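import Pool.Agent.U659.OF.Cnv

/-!
# Components
-/

set_option autoImplicit false
set_option linter.unusedSectionVars false

namespace Pool.Agent.U659.OF

open Finset Pool.Agent.TH676.Z Pool.Agent.Y335.FL Pool.Agent.Y358.IN

variable {V E : Type} [Fintype V] [DecidableEq V] [Fintype E] [DecidableEq E]
  {s d : E → V}

/-- an additive parity on the disjoint unions of components -/
theorem no_five_of {ι : Type} [Finite ι] [DecidableEq ι] (mk : V → ι) (w : V → ZMod 2)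
    (P : Finset V → Prop) (hP : ∀ X, P X → ∀ u v, mk u = mk v → (u ∈ X ↔ v ∈ X))
    (h : Nat.card {c : ι // ∑ v ∈ univ.filter (fun v => mk v = c), w v ≠ 0} ≤ 4) :
    ¬ ∃ K : Finset (Finset V), K.card = 5 ∧ (∀ X ∈ K, ∑ v ∈ X, w v ≠ 0 ∧ P X) ∧
      ∀ X ∈ K, ∀ Y ∈ K, X ≠ Y → Disjoint X Y := by
  rintro ⟨K, hK5, hK, hKd⟩
  have hex : ∀ X ∈ K, ∃ c : ι, (∑ v ∈ univ.filter (fun v => mk v = c), w v ≠ 0) ∧
      ∃ v ∈ X, mk v = c := by
    intro X hX
    obtain ⟨h1, h2⟩ := hK X hX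
    rw [← sum_fiberwise_of_maps_to (t := X.image mk) (g := mk)
      (fun v hv => mem_image_of_mem mk hv)] at h1
    obtain ⟨c, hc, hne⟩ := exists_ne_zero_of_sum_ne_zero h1
    obtain ⟨v, hv, rfl⟩ := mem_image.1 hc
    refine ⟨mk v, ?_, v, hv, rfl⟩
    have h3 : univ.filter (fun u => mk u = mk v) = X.filter (fun u => mk u = mk v) := by
      ext u
      rw [mem_filter, mem_filter]
      constructor
      · rintro ⟨_, hu⟩
        exact ⟨(hP X h2 u v hu).2 hv, hu⟩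
      · rintro ⟨_, hu⟩
        exact ⟨mem_univ _, hu⟩
    rw [h3]
    exact hne
  choose f hf1 hf2 using hex
  have hinj : Function.Injective (fun X : K => (⟨f X.1 X.2, hf1 X.1 X.2⟩ :
      {c : ι // ∑ v ∈ univ.filter (fun v => mk v = c), w v ≠ 0})) := by
    intro X Y hXY
    have h1 : f X.1 X.2 = f Y.1 Y.2 := congrArg Subtype.val hXY
    by_contra hne
    have h2 : X.1 ≠ Y.1 := fun h => hne (Subtype.ext h)
    obtain ⟨u, hu, hu'⟩ := hf2 X.1 X.2
    obtain ⟨v, hv, hv'⟩ := hf2 Y.1 Y.2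
    have h3 : u ∈ Y.1 := (hP Y.1 (hK Y.1 Y.2).2 u v (by rw [hu', hv', h1])).2 hv
    exact disjoint_left.1 (hKd X.1 X.2 Y.1 Y.2 h2) hu h3
  have h5 := Nat.card_le_card_of_injective _ hinj
  rw [Nat.card_eq_fintype_card (α := K), Fintype.card_coe, hK5] at h5
  omega

end Pool.Agent.U659.OF
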