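import Pool.Agent.U659.OF.Fin

/-!
# Even sets of edges with at most four odd components
-/

set_option autoImplicit false
set_option linter.unusedSectionVars false

namespace Pool.Agent.U659.OF

open Finset Pool.Agent.TH676.Z Pool.Agent.Y335.FL Pool.Agent.Y358.IN

variable {V E : Type} [Fintype V] [DecidableEq V] [Fintype E] [DecidableEq E]
  {s d : E → V}

theorem b2_lin {ι : Type} (S : Finset ι) (c : ι → ZMod 2) (z : ι → E → ZMod 2) (v : V) :
    b2 s d (fun e => ∑ i ∈ S, c i * z i e) v = ∑ i ∈ S, c i * b2 s d (z i) v := by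
  unfold b2
  simp_rw [mul_sum]
  rw [sum_comm]
  refine sum_congr rfl fun e _ => ?_
  by_cases h1 : s e = v <;> by_cases h2 : d e = v <;> simp [h1, h2, sum_add_distrib, mul_add]

/-- the parity of a set -/
theorem crs_b2 (X : Finset V) : ((crs s d X).card : ZMod 2) = ∑ v ∈ X, b2 s d (fun _ => 1) v := by
  rw [sum_b2, sum_const, nsmul_eq_mul, mul_one]

/-- `x` is even and has at most four odd components -/
theorem cl4_of {x : E → ZMod 2} (hx : ∀ v, b2 s d x v = 0)
    (h : ¬ ∃ K : Finset (Finset V), K.card = 5 ∧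
      (∀ X ∈ K, Odd (crs s d X).card ∧ ∀ e ∈ crs s d X, x e = 0) ∧
      ∀ X ∈ K, ∀ Y ∈ K, X ≠ Y → Disjoint X Y) : Cl4 s d := by
  classical
  set c : E → ZMod 2 := fun e => if x e = 0 then 1 else 0 with hc
  have hz := fun v => chain_eqv (rp_eqv s d x v)
  choose z hz1 hz2 using hz
  set w : V → ZMod 2 := fun v => b2 s d c v with hw
  set Z : E → ZMod 2 := fun e => ∑ v, w v * z v e with hZ
  have hZ0 : ∀ e, x e = 0 → Z e = 0 := by
    intro e he
    refine sum_eq_zero fun v _ => ?_
    have h1 : z v e = 0 := by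
      by_contra h1
      exact hz1 v e h1 he
    rw [h1, mul_zero]
  set y : E → ZMod 2 := fun e => c e + Z e with hy
  have hby : ∀ u, b2 s d y u = ∑ v ∈ univ.filter (fun v => rp s d x v = u), w v := by
    intro u
    rw [hy, b2_add, hZ, b2_lin]
    have h1 : ∑ v, w v * b2 s d (z v) u = w u + ∑ v ∈ univ.filter (fun v => rp s d x v = u), w v := by
      rw [sum_filter]
      have h2 : ∀ v, w v * b2 s d (z v) u =
          (if u = v then w v else 0) + (if rp s d x v = u then w v else 0) := by
        intro v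
        rw [hz2]
        by_cases h3 : u = v
        · by_cases h4 : rp s d x v = u
          · rw [if_pos h3, if_pos h4.symm, if_pos h3, if_pos h4]
            ring
          · rw [if_pos h3, if_neg (fun h => h4 h.symm), if_pos h3, if_neg h4]
            ring
        · by_cases h4 : rp s d x v = u
          · rw [if_neg h3, if_pos h4.symm, if_neg h3, if_pos h4]
            ring
          · rw [if_neg h3, if_neg (fun h => h4 h.symm), if_neg h3, if_neg h4]
            ring
      rw [sum_congr rfl (fun v _ => h2 v), sum_add_distrib, sum_ite_eq]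
      simp
    rw [h1, ← add_assoc]
    have h2 : b2 s d c u + w u = 0 := z2_self _
    rw [h2, zero_add]
  refine ⟨x, y, fun e _ => ?_, hx, ?_⟩
  · by_cases he : x e = 0
    · right
      rw [hy]
      beta_reduce
      rw [hZ0 e he, hc]
      beta_reduce
      rw [if_pos he]
      decide
    · exact Or.inl he
  · by_contra hcon
    push Not at hcon
    obtain ⟨T, hT, hT5⟩ := exists_subset_card_eq (show 5 ≤ (odd s d y).card by omega)
    set fb : V → Finset V := fun u => univ.filter (fun v => rp s d x v = u) with hfb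
    have hmem : ∀ u v, v ∈ fb u ↔ rp s d x v = u := fun u v => by simp [hfb]
    have hcr : ∀ u, ∀ e ∈ crs s d (fb u), x e = 0 := by
      intro u e he
      by_contra hne
      rw [mem_crs, hmem, hmem, rp_edge hne] at he
      exact he Iff.rfl
    have hodd : ∀ u ∈ odd s d y, Odd (crs s d (fb u)).card := by
      intro u hu
      rw [mem_odd, hby] at hu
      rw [hw] at hu
      rw [sum_b2] at hu
      rw [← z2_cast_ne]
      intro h1
      apply hu
      refine Eq.trans ?_ h1
      rw [card_eq_sum_ones, Nat.cast_sum]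
      refine sum_congr rfl fun e he => ?_
      rw [hc]
      beta_reduce
      rw [if_pos (hcr u e he)]
      norm_num
    have hne : ∀ u ∈ odd s d y, (fb u).Nonempty := by
      intro u hu
      by_contra h1
      rw [not_nonempty_iff_eq_empty] at h1
      have h2 := hodd u hu
      rw [h1] at h2
      have h3 : crs s d ∅ = ∅ := by
        ext e
        simp [mem_crs]
      rw [h3, card_empty] at h2
      exact absurd h2 (by decide)
    have hdis : ∀ u u', u ≠ u' → Disjoint (fb u) (fb u') := by
      intro u u' huu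
      rw [disjoint_left]
      intro v hv hv'
      rw [hmem] at hv hv'
      exact huu (hv.symm.trans hv')
    refine h ⟨T.image fb, ?_, ?_, ?_⟩
    · rw [card_image_of_injOn, hT5]
      intro u hu u' hu' huu
      by_contra hne'
      obtain ⟨v, hv⟩ := hne u (hT (mem_coe.1 hu))
      have h1 : fb u = fb u' := huu
      exact disjoint_left.1 (hdis u u' hne') hv (h1 ▸ hv)
    · intro X hX
      obtain ⟨u, hu, rfl⟩ := mem_image.1 hX
      exact ⟨hodd u (hT hu), hcr u⟩
    · intro X hX Y hY hXY
      obtain ⟨u, hu, rfl⟩ := mem_image.1 hX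
      obtain ⟨u', hu', rfl⟩ := mem_image.1 hY
      exact hdis u u' fun h => hXY (by rw [h])

theorem mem_crs'3 {X : Finset V} {e : E} :
    e ∈ crs s d X ↔ ¬ (s e ∈ X ↔ d e ∈ X) := by simp [crs]

/-- contraction of `C` -/
theorem flow_odd4 (hq : St_quot) (s d : E → V) (C F : Finset E) (hbr : Br s d ∅ ∅)
    (hF : ∀ v, Even (crs s d {v} ∩ F).card)
    (h : ¬ ∃ K : Finset (Finset V), K.card = 5 ∧
      (∀ X ∈ K, Odd (crs s d X).card ∧ Disjoint (crs s d X) (F ∪ C)) ∧
      ∀ X ∈ K, ∀ Y ∈ K, X ≠ Y → Disjoint X Y) : FlowOn s d ∅ C := by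
  classical
  obtain ⟨W, _, _, r, hr, hrF, hl, hcl⟩ := hq V E s d C
  have h0 : FlowOn (r ∘ s) (r ∘ d) ∅ ∅ → FlowOn s d ∅ C := fun h => by
    have h1 := hl ∅ h
    rwa [union_empty] at h1
  apply h0
  set up : Finset W → Finset V := fun X => univ.filter (fun v => r v ∈ X) with hup
  have hmem : ∀ X v, v ∈ up X ↔ r v ∈ X := fun X v => by simp [hup]
  have hcu : ∀ X, crs s d (up X) = crs (r ∘ s) (r ∘ d) X := by
    intro X
    ext e
    rw [mem_crs, mem_crs, hmem, hmem]
    rfl
  have hbr' : Br (r ∘ s) (r ∘ d) ∅ ∅ := by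
    intro Y _
    have h1 := hbr (up Y) (disjoint_empty_right _)
    rw [sdiff_empty] at h1 ⊢
    rw [← hcu]
    exact h1
  refine flow_cl4 (cl4_of (x := fun e => if e ∈ F then 1 else 0) (fun w => ?_) ?_) hbr'
  · rw [b2_map]
    refine sum_eq_zero fun v _ => ?_
    have h1 := sum_b2 s d (fun e => if e ∈ F then (1 : ZMod 2) else 0) {v}
    rw [sum_singleton] at h1
    rw [h1, ← sum_filter, sum_const, nsmul_eq_mul, mul_one, z2_cast_zero, filter_mem_eq_inter]
    exact hF v
  · rintro ⟨K, hK5, hK, hKd⟩
    have hne : ∀ X ∈ K, ∃ v, r v ∈ X := by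
      intro X hX
      obtain ⟨h1, _⟩ := hK X hX
      have h2 : (crs (r ∘ s) (r ∘ d) X).Nonempty := by
        rw [← card_pos]
        exact h1.pos
      obtain ⟨e, he⟩ := h2
      rw [mem_crs] at he
      by_cases h3 : (r ∘ s) e ∈ X
      · exact ⟨s e, h3⟩
      · by_cases h4 : (r ∘ d) e ∈ X
        · exact ⟨d e, h4⟩
        · exact absurd ⟨fun h => absurd h h3, fun h => absurd h h4⟩ he
    have hdis : ∀ X ∈ K, ∀ Y ∈ K, X ≠ Y → Disjoint (up X) (up Y) := by
      intro X hX Y hY hXY
      rw [disjoint_left]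
      intro v hv hv'
      rw [hmem] at hv hv'
      exact disjoint_left.1 (hKd X hX Y hY hXY) hv hv'
    refine h ⟨K.image up, ?_, ?_, ?_⟩
    · rw [card_image_of_injOn, hK5]
      intro X hX Y hY hXY
      by_contra hne'
      obtain ⟨v, hv⟩ := hne X (mem_coe.1 hX)
      have h1 : up X = up Y := hXY
      have h2 : v ∈ up X := (hmem X v).2 hv
      exact disjoint_left.1 (hdis X (mem_coe.1 hX) Y (mem_coe.1 hY) hne') h2 (h1 ▸ h2)
    · intro X hX
      obtain ⟨Y, hY, rfl⟩ := mem_image.1 hX
      obtain ⟨h1, h2⟩ := hK Y hY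
      rw [hcu]
      refine ⟨h1, ?_⟩
      rw [disjoint_left]
      intro e he heFC
      rcases mem_union.1 heFC with h3 | h3
      · have h4 := h2 e he
        rw [if_pos h3] at h4
        exact absurd h4 (by decide)
      · rw [mem_crs] at he
        apply he
        simp only [Function.comp, hrF e h3]
    · intro X hX Y hY hXY
      obtain ⟨X', hX', rfl⟩ := mem_image.1 hX
      obtain ⟨Y', hY', rfl⟩ := mem_image.1 hY
      exact hdis X' hX' Y' hY' fun h => hXY (by rw [h])

/-- the parity of the boundary in a cubic graph -/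
theorem cubic_par (h3 : ∀ v, (univ.filter (fun e => s e = v)).card +
    (univ.filter (fun e => d e = v)).card = 3) (X : Finset V) :
    Odd (crs s d X).card ↔ Odd X.card := by
  rw [← z2_cast_ne, ← z2_cast_ne, crs_b2]
  have h1 : ∀ v, b2 s d (fun _ => (1 : ZMod 2)) v = 1 := by
    intro v
    have h4 := congrArg (fun n : ℕ => (n : ZMod 2)) (h3 v)
    unfold b2
    rw [sum_add_distrib, ← sum_filter, ← sum_filter, sum_const, sum_const, nsmul_eq_mul,
      nsmul_eq_mul, mul_one, mul_one, ← Nat.cast_add]
    refine h4.trans ?_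
    decide
  rw [sum_congr rfl (fun v _ => h1 v), sum_const, nsmul_eq_mul, mul_one]

theorem two_even (F : Finset E) (v : V) (h2 : (F.filter (fun e => s e = v)).card +
    (F.filter (fun e => d e = v)).card = 2) : Even (crs s d {v} ∩ F).card := by
  rw [← z2_cast_zero]
  have h1 := sum_b2 s d (fun e => if e ∈ F then (1 : ZMod 2) else 0) {v}
  rw [sum_singleton, ← sum_filter, sum_const, nsmul_eq_mul, mul_one, filter_mem_eq_inter] at h1
  rw [← h1]
  unfold b2
  have h4 := congrArg (fun n : ℕ => (n : ZMod 2)) h2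
  have h5 : ∀ q : E → V, ∑ e, (if q e = v then (if e ∈ F then (1 : ZMod 2) else 0) else 0) =
      ((F.filter (fun e => q e = v)).card : ZMod 2) := by
    intro q
    rw [card_filter, Nat.cast_sum, ← sum_filter_add_sum_filter_not univ (fun e => e ∈ F)]
    have e1 : ∑ e ∈ univ.filter (fun e => ¬ e ∈ F),
        (if q e = v then (if e ∈ F then (1 : ZMod 2) else 0) else 0) = 0 := by
      refine sum_eq_zero fun e he => ?_
      rw [if_neg (mem_filter.1 he).2, ite_self]
    rw [e1, add_zero]
    have e2 : univ.filter (fun e => e ∈ F) = F := by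
      ext e
      simp
    rw [e2]
    refine sum_congr rfl fun e he => ?_
    rw [if_pos he]
    split_ifs <;> simp
  rw [sum_add_distrib, h5, h5, ← Nat.cast_add]
  refine h4.trans ?_
  decide

end Pool.Agent.U659.OF
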