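import Pool.Agent.U659.OF.Str

/-!
# Disjoint supports of the numbers of flows on the two sides of a cut with four edges
-/

set_option autoImplicit false
set_option linter.unusedSectionVars false

namespace Pool.Agent.U659.OF

open Finset Pool.Agent.TH676.Z

/-- the value of a parameter function -/
theorem vl4 (a : ℤ) (b : Fin 4 → Fin 4 → ℤ) (t : Fin 4 → ZMod 5) (ht : Nz t) :
    vl a b t = a + (if t 0 + t 1 = 0 then (b 0 1 + b 1 0) + (b 2 3 + b 3 2) else 0) +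
      (if t 0 + t 2 = 0 then (b 0 2 + b 2 0) + (b 1 3 + b 3 1) else 0) +
      (if t 0 + t 3 = 0 then (b 0 3 + b 3 0) + (b 1 2 + b 2 1) else 0) := by
  have hd : ∀ x, ¬ (t x + t x = 0) := by
    intro x
    have := ht.1 x
    generalize t x = c at *
    revert this
    revert c
    decide
  have hsum := ht.2
  rw [Fin.sum_univ_four] at hsum
  have e1 : (t 2 + t 3 = 0) ↔ (t 0 + t 1 = 0) := by
    constructor <;> intro h
    · have : t 0 + t 1 + (t 2 + t 3) = 0 := by rw [← hsum]; ring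
      rwa [h, add_zero] at this
    · have : t 0 + t 1 + (t 2 + t 3) = 0 := by rw [← hsum]; ring
      rwa [h, zero_add] at this
  have e2 : (t 1 + t 3 = 0) ↔ (t 0 + t 2 = 0) := by
    constructor <;> intro h
    · have : t 0 + t 2 + (t 1 + t 3) = 0 := by rw [← hsum]; ring
      rwa [h, add_zero] at this
    · have : t 0 + t 2 + (t 1 + t 3) = 0 := by rw [← hsum]; ring
      rwa [h, zero_add] at this
  have e3 : (t 1 + t 2 = 0) ↔ (t 0 + t 3 = 0) := by
    constructor <;> intro h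
    · have : t 0 + t 3 + (t 1 + t 2) = 0 := by rw [← hsum]; ring
      rwa [h, add_zero] at this
    · have : t 0 + t 3 + (t 1 + t 2) = 0 := by rw [← hsum]; ring
      rwa [h, zero_add] at this
  have hc : ∀ (x y : Fin 4) (c : ℤ), (if t y + t x = 0 then c else 0) =
      (if t x + t y = 0 then c else 0) := fun x y c => by rw [add_comm]
  have hs : ∀ (x y : Fin 4) (c c' : ℤ), (if t x + t y = 0 then c + c' else 0) =
      (if t x + t y = 0 then c else 0) + (if t x + t y = 0 then c' else 0) := fun x y c c' => by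
    split_ifs <;> simp
  unfold vl
  simp only [Fin.sum_univ_four]
  rw [hc 0 1 (b 1 0), hc 0 2 (b 2 0), hc 0 3 (b 3 0), hc 1 2 (b 2 1), hc 1 3 (b 3 1),
    hc 2 3 (b 3 2)]
  rw [if_neg (hd 0), if_neg (hd 1), if_neg (hd 2), if_neg (hd 3)]
  simp only [e1, e2, e3]
  rw [hs 0 1, hs 0 2, hs 0 3, hs 0 1, hs 0 1, hs 0 2, hs 0 2, hs 0 3, hs 0 3]
  ring

/-- the conclusion -/
def Cnc4 (N N' : (Fin 4 → ZMod 5) → ℤ) : Prop := ∃ j k l : Fin 4,
  (0 ≠ j ∧ 0 ≠ k ∧ 0 ≠ l ∧ j ≠ k ∧ j ≠ l ∧ k ≠ l) ∧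
  (∀ t, Nz t → t 0 + t j = 0 → N t = 0) ∧ (∀ t, Nz t → t 0 + t j ≠ 0 → N' t = 0)

theorem nz4 (t : Fin 4 → ZMod 5) (h : (∀ i, t i ≠ 0) ∧ ∑ i, t i = 0) : Nz t := h

theorem K4' {N N' : (Fin 4 → ZMod 5) → ℤ} {a a' : ℤ} {b b' : Fin 4 → Fin 4 → ℤ}
    (hN : ∀ t, Nz t → N t = vl a b t) (hN' : ∀ t, Nz t → N' t = vl a' b' t)
    (h0 : ∀ t, Nz t → 0 ≤ N t) (h0' : ∀ t, Nz t → 0 ≤ N' t)
    (hz : ∀ t, Nz t → N t = 0 ∨ N' t = 0) (hn : ∃ t, Nz t ∧ N t ≠ 0) (hn' : ∃ t, Nz t ∧ N' t ≠ 0)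
    (ha : a' = 0) : Cnc4 N N' := by
  set β1 := (b 0 1 + b 1 0) + (b 2 3 + b 3 2) with hβ1
  set β2 := (b 0 2 + b 2 0) + (b 1 3 + b 3 1) with hβ2
  set β3 := (b 0 3 + b 3 0) + (b 1 2 + b 2 1) with hβ3
  set γ1 := (b' 0 1 + b' 1 0) + (b' 2 3 + b' 3 2) with hγ1
  set γ2 := (b' 0 2 + b' 2 0) + (b' 1 3 + b' 3 1) with hγ2
  set γ3 := (b' 0 3 + b' 3 0) + (b' 1 2 + b' 2 1) with hγ3
  have hv : ∀ t, Nz t → N t = a + (if t 0 + t 1 = 0 then β1 else 0) +
      (if t 0 + t 2 = 0 then β2 else 0) + (if t 0 + t 3 = 0 then β3 else 0) := fun t ht => by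
    rw [hN t ht, vl4 a b t ht]
  have hv' : ∀ t, Nz t → N' t = (if t 0 + t 1 = 0 then γ1 else 0) +
      (if t 0 + t 2 = 0 then γ2 else 0) + (if t 0 + t 3 = 0 then γ3 else 0) := fun t ht => by
    rw [hN' t ht, vl4 a' b' t ht, ha, zero_add]
  have nE : Nz (![1, 1, 1, 2] : Fin 4 → ZMod 5) := nz4 _ (by decide)
  have n1 : Nz (![1, 4, 2, 3] : Fin 4 → ZMod 5) := nz4 _ (by decide)
  have n2 : Nz (![1, 2, 4, 3] : Fin 4 → ZMod 5) := nz4 _ (by decide)
  have n3 : Nz (![1, 2, 3, 4] : Fin 4 → ZMod 5) := nz4 _ (by decide)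
  have n12 : Nz (![1, 4, 4, 1] : Fin 4 → ZMod 5) := nz4 _ (by decide)
  have n13 : Nz (![1, 4, 1, 4] : Fin 4 → ZMod 5) := nz4 _ (by decide)
  have n23 : Nz (![1, 1, 4, 4] : Fin 4 → ZMod 5) := nz4 _ (by decide)
  have vE : N ![1, 1, 1, 2] = a ∧ N' ![1, 1, 1, 2] = 0 := by
    rw [hv _ nE, hv' _ nE, if_neg (by decide), if_neg (by decide), if_neg (by decide),
      if_neg (by decide), if_neg (by decide), if_neg (by decide)]
    simp
  have v1 : N ![1, 4, 2, 3] = a + β1 ∧ N' ![1, 4, 2, 3] = γ1 := by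
    rw [hv _ n1, hv' _ n1, if_pos (by decide), if_neg (by decide), if_neg (by decide),
      if_pos (by decide), if_neg (by decide), if_neg (by decide)]
    simp
  have v2 : N ![1, 2, 4, 3] = a + β2 ∧ N' ![1, 2, 4, 3] = γ2 := by
    rw [hv _ n2, hv' _ n2, if_neg (by decide), if_pos (by decide), if_neg (by decide),
      if_neg (by decide), if_pos (by decide), if_neg (by decide)]
    simp
  have v3 : N ![1, 2, 3, 4] = a + β3 ∧ N' ![1, 2, 3, 4] = γ3 := by
    rw [hv _ n3, hv' _ n3, if_neg (by decide), if_neg (by decide), if_pos (by decide),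
      if_neg (by decide), if_neg (by decide), if_pos (by decide)]
    simp
  have v12 : N ![1, 4, 4, 1] = a + β1 + β2 ∧ N' ![1, 4, 4, 1] = γ1 + γ2 := by
    rw [hv _ n12, hv' _ n12, if_pos (by decide), if_pos (by decide), if_neg (by decide),
      if_pos (by decide), if_pos (by decide), if_neg (by decide)]
    simp
  have v13 : N ![1, 4, 1, 4] = a + β1 + β3 ∧ N' ![1, 4, 1, 4] = γ1 + γ3 := by
    rw [hv _ n13, hv' _ n13, if_pos (by decide), if_neg (by decide), if_pos (by decide),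
      if_pos (by decide), if_neg (by decide), if_pos (by decide)]
    simp
  have v23 : N ![1, 1, 4, 4] = a + β2 + β3 ∧ N' ![1, 1, 4, 4] = γ2 + γ3 := by
    rw [hv _ n23, hv' _ n23, if_neg (by decide), if_pos (by decide), if_pos (by decide),
      if_neg (by decide), if_pos (by decide), if_pos (by decide)]
    simp
  have a0 := h0 _ nE
  have a1 := h0 _ n1
  have a2 := h0 _ n2
  have a3 := h0 _ n3
  have c1 := h0' _ n1
  have c2 := h0' _ n2
  have c3 := h0' _ n3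
  have z1 := hz _ n1
  have z2 := hz _ n2
  have z3 := hz _ n3
  have z12 := hz _ n12
  have z13 := hz _ n13
  have z23 := hz _ n23
  rw [vE.1] at a0
  rw [v1.1] at a1
  rw [v2.1] at a2
  rw [v3.1] at a3
  rw [v1.2] at c1
  rw [v2.2] at c2
  rw [v3.2] at c3
  rw [v1.1, v1.2] at z1
  rw [v2.1, v2.2] at z2
  rw [v3.1, v3.2] at z3
  rw [v12.1, v12.2] at z12
  rw [v13.1, v13.2] at z13
  rw [v23.1, v23.2] at z23
  -- not everything is zero
  have hpos : 0 < γ1 ∨ 0 < γ2 ∨ 0 < γ3 := by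
    by_contra hcon
    push Not at hcon
    obtain ⟨t, ht, hne⟩ := hn'
    apply hne
    rw [hv' t ht, le_antisymm hcon.1 c1, le_antisymm hcon.2.1 c2, le_antisymm hcon.2.2 c3]
    simp
  have ha0 : ¬ (a = 0 ∧ β1 = 0 ∧ β2 = 0 ∧ β3 = 0) := by
    rintro ⟨h1, h2, h3, h4⟩
    obtain ⟨t, ht, hne⟩ := hn
    apply hne
    rw [hv t ht, h1, h2, h3, h4]
    simp
  rcases hpos with hp | hp | hp
  · have y1 : a + β1 = 0 := by omega
    have y2 : β2 = 0 := by omega
    have y3 : β3 = 0 := by omega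
    have y4 : 0 < a := by omega
    have y5 : γ2 = 0 := by omega
    have y6 : γ3 = 0 := by omega
    refine ⟨1, 2, 3, by decide, fun t ht h => ?_, fun t ht h => ?_⟩
    · rw [hv t ht, if_pos h, y2, y3, ite_self, ite_self]
      omega
    · rw [hv' t ht, if_neg h, y5, y6, ite_self, ite_self]
      omega
  · have y1 : a + β2 = 0 := by omega
    have y2 : β1 = 0 := by omega
    have y3 : β3 = 0 := by omega
    have y4 : 0 < a := by omega
    have y5 : γ1 = 0 := by omega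
    have y6 : γ3 = 0 := by omega
    refine ⟨2, 1, 3, by decide, fun t ht h => ?_, fun t ht h => ?_⟩
    · rw [hv t ht, if_pos h, y2, y3, ite_self, ite_self]
      omega
    · rw [hv' t ht, if_neg h, y5, y6, ite_self, ite_self]
      omega
  · have y1 : a + β3 = 0 := by omega
    have y2 : β1 = 0 := by omega
    have y3 : β2 = 0 := by omega
    have y4 : 0 < a := by omega
    have y5 : γ1 = 0 := by omega
    have y6 : γ2 = 0 := by omega
    refine ⟨3, 1, 2, by decide, fun t ht h => ?_, fun t ht h => ?_⟩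
    · rw [hv t ht, if_pos h, y2, y3, ite_self, ite_self]
      omega
    · rw [hv' t ht, if_neg h, y5, y6, ite_self, ite_self]
      omega

/-- **Four edges.** -/
theorem K4 {N N' : (Fin 4 → ZMod 5) → ℤ} (hN : Gd N) (hN' : Gd N')
    (h0 : ∀ t, Nz t → 0 ≤ N t) (h0' : ∀ t, Nz t → 0 ≤ N' t)
    (hz : ∀ t, Nz t → N t = 0 ∨ N' t = 0) (hn : ∃ t, Nz t ∧ N t ≠ 0)
    (hn' : ∃ t, Nz t ∧ N' t ≠ 0) : Cnc4 N N' ∨ Cnc4 N' N := by
  obtain ⟨a, b, hN⟩ := hN
  obtain ⟨a', b', hN'⟩ := hN'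
  have nE : Nz (![1, 1, 1, 2] : Fin 4 → ZMod 5) := nz4 _ (by decide)
  have h1 := hz _ nE
  rw [hN _ nE, hN' _ nE, vl4 a b _ nE, vl4 a' b' _ nE, if_neg (by decide), if_neg (by decide),
    if_neg (by decide), if_neg (by decide), if_neg (by decide), if_neg (by decide)] at h1
  rcases h1 with h1 | h1
  · exact Or.inr (K4' hN' hN h0' h0 (fun t ht => (hz t ht).symm) hn' hn (by linarith))
  · exact Or.inl (K4' hN hN' h0 h0' hz hn hn' (by linarith))

end Pool.Agent.U659.OF
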