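import Pool.Agent.U659.OF.Par
import Pool.Agent.U659.FC.Quot
import Pool.Agent.H160R2.HF.Hoffman
import Pool.Agent.Y335.FL.Trail
import Pool.Agent.Y335.FL.CircEx
import Pool.Agent.Y335.FL.Main
import Pool.Agent.TH676.Z.Cut3
import Pool.Agent.TH676.Z.Cut4

/-!
# Minimal counterexamples
-/

set_option autoImplicit false
set_option linter.unusedSectionVars false

namespace Pool.Agent.U659.OF

open Finset Pool.Agent.TH676.Z Pool.Agent.Y335.FL Pool.Agent.Y358.IN

section

variable {V W E : Type} [Fintype V] [DecidableEq V] [Fintype W] [DecidableEq W]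
  [Fintype E] [DecidableEq E]

/-- the class -/
def Cl4 (s d : E → V) : Prop := ∃ x y : E → ZMod 2, (∀ e, s e ≠ d e → x e ≠ 0 ∨ y e ≠ 0) ∧
  (∀ v, b2 s d x v = 0) ∧ (odd s d y).card ≤ 4

theorem b2_map (s d : E → V) (q : V → W) (x : E → ZMod 2) (w : W) :
    b2 (q ∘ s) (q ∘ d) x w = ∑ v ∈ univ.filter (fun v => q v = w), b2 s d x v := by
  unfold b2
  rw [sum_comm]
  refine sum_congr rfl fun e _ => ?_
  rw [sum_add_distrib, sum_ite_eq, sum_ite_eq]
  simp

theorem Cl4.map {s d : E → V} (h : Cl4 s d) (q : V → W) : Cl4 (q ∘ s) (q ∘ d) := by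
  obtain ⟨x, y, h1, h2, h3⟩ := h
  refine ⟨x, y, fun e he => h1 e fun h => he (by simp [h]), fun w => ?_, ?_⟩
  · rw [b2_map]
    exact sum_eq_zero fun v _ => h2 v
  · refine le_trans (card_le_card (t := (odd s d y).image q) ?_) (card_image_le.trans h3)
    intro w hw
    rw [mem_odd, b2_map] at hw
    obtain ⟨v, hv, hne⟩ := exists_ne_zero_of_sum_ne_zero hw
    exact mem_image.2 ⟨v, mem_odd.2 hne, (mem_filter.1 hv).2⟩

/-- a minimal counterexample in the class -/
structure Mn (s d : E → V) : Prop where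
  br : Br s d ∅ ∅
  nf : ¬ FlowOn s d ∅ ∅
  cl : Cl4 s d
  mn : ∀ s' d' : E → V, Cl4 s' d' → Br s' d' ∅ ∅ → (Crit.nl s' d').card < (Crit.nl s d).card →
    FlowOn s' d' ∅ ∅

theorem exists_mn (s d : E → V) (h1 : Cl4 s d) (h2 : Br s d ∅ ∅) (h3 : ¬ FlowOn s d ∅ ∅) :
    ∃ s' d' : E → V, Mn s' d' := by
  classical
  have hex : ∃ m, ∃ s d : E → V, Cl4 s d ∧ Br s d ∅ ∅ ∧ ¬ FlowOn s d ∅ ∅ ∧
      (Crit.nl s d).card = m := ⟨_, s, d, h1, h2, h3, rfl⟩
  obtain ⟨s, d, hs1, hs2, hs3, hs4⟩ := Nat.find_spec hex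
  refine ⟨s, d, hs2, hs3, hs1, fun s' d' h5 h6 h7 => ?_⟩
  by_contra h8
  rw [hs4] at h7
  exact Nat.find_min hex h7 ⟨s', d', h5, h6, h8, rfl⟩

theorem Mn.minC {s d : E → V} (h : Mn s d) : MinC s d := by
  refine ⟨h.br, h.nf, ?_⟩
  rintro C ⟨e, heC, hne⟩
  set s1 := ctr (s e) (d e) ∘ s with hs1'
  set d1 := ctr (s e) (d e) ∘ d with hd1'
  have hnot : e ∉ Crit.nl s1 d1 := Crit.not_nl_ctr e
  have hsub : Crit.nl s1 d1 ⊆ Crit.nl s d := Crit.nl_ctr_sub _ _
  have hlt : (Crit.nl s1 d1).card < (Crit.nl s d).card :=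
    card_lt_card ⟨hsub, fun h => hnot (h (Crit.mem_nl.mpr hne))⟩
  have hfl : FlowOn s1 d1 ∅ ∅ := by
    refine h.mn s1 d1 (h.cl.map _) ?_ hlt
    intro Y _
    rw [hs1', hd1', Crit.crs_ctr]
    exact h.br _ (disjoint_empty_right _)
  obtain ⟨f, hf0, _, hf2⟩ := hfl
  have hb : ∀ x, x ≠ s e → x ≠ d e → bd s d f x = 0 := by
    intro x h1 h2
    have h3 := hf0 x
    rw [hs1', hd1', Crit.bd_ctr s d _ _ hne, if_neg h2, if_neg h1] at h3
    exact h3
  have hb2 : bd s d f (s e) + bd s d f (d e) = 0 := by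
    have h3 := hf0 (s e)
    rw [hs1', hd1', Crit.bd_ctr s d _ _ hne, if_neg hne, if_pos rfl] at h3
    exact h3
  refine ⟨f + Pi.single e (bd s d f (d e)), fun v => ?_, fun x hx => absurd hx (notMem_empty x),
    fun x _ h2 => ?_⟩
  · rw [Crit.bd_add, Crit.bd_single]
    by_cases h1 : s e = v
    · have h2 : d e ≠ v := fun h => hne (h1.trans h.symm)
      rw [if_pos h1, if_neg h2, sub_zero, ← h1, hb2]
    · by_cases h2 : d e = v
      · rw [if_neg h1, if_pos h2, zero_sub, ← h2, add_neg_cancel]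
      · rw [if_neg h1, if_neg h2, hb v (Ne.symm h1) (Ne.symm h2)]; simp
  · have h3 : x ≠ e := fun h => h2 (h ▸ heC)
    rw [Pi.add_apply, Pi.single_eq_of_ne h3, add_zero]
    exact hf2 x (notMem_empty x) (notMem_empty x)

end

section

variable {V E : Type} [Fintype V] [DecidableEq V] [Fintype E] [DecidableEq E] {s d : E → V}

/-- the proper edges inside `X` -/
def int (s d : E → V) (X : Finset V) : Finset E := univ.filter (fun e => s e ≠ d e ∧ s e ∈ X ∧ d e ∈ X)

theorem mem_int {X : Finset V} {e : E} : e ∈ int s d X ↔ s e ≠ d e ∧ s e ∈ X ∧ d e ∈ X := by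
  simp [int]

/-- the two flows at a cut -/
theorem sides (h : MinC s d) (Y : Finset V) (h1 : (int s d Y).Nonempty)
    (h2 : (int s d Yᶜ).Nonempty) :
    ∃ f1 f2 : E → ZMod 5, (∀ v, bd s d f1 v = 0) ∧ (∀ v, bd s d f2 v = 0) ∧
      (∀ e, (s e ∈ Y ∨ d e ∈ Y) → f1 e ≠ 0) ∧
      (∀ e, (s e ∉ Y ∨ d e ∉ Y) → f2 e ≠ 0) := by
  obtain ⟨f1, a1, _, a3⟩ := h.crit (univ.filter (fun e => s e ∉ Y ∧ d e ∉ Y)) (by
    obtain ⟨e, he⟩ := h2
    rw [mem_int, mem_compl, mem_compl] at he
    exact ⟨e, by simpa using he.2, he.1⟩)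
  obtain ⟨f2, b1, _, b3⟩ := h.crit (univ.filter (fun e => s e ∈ Y ∧ d e ∈ Y)) (by
    obtain ⟨e, he⟩ := h1
    rw [mem_int] at he
    exact ⟨e, by simpa using he.2, he.1⟩)
  refine ⟨f1, f2, a1, b1, fun e he => a3 e (notMem_empty _) ?_,
    fun e he => b3 e (notMem_empty _) ?_⟩
  · simp only [mem_filter, mem_univ, true_and]; tauto
  · simp only [mem_filter, mem_univ, true_and]; tauto

theorem br_ne (h : MinC s d) (X : Finset V) : (crs s d X).card ≠ 1 := by
  have := h.br X (disjoint_empty_right _)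
  rwa [sdiff_empty] at this

/-- a nonempty cut has at least three edges -/
theorem cutC (h : MinC s d) (Y : Finset V) (hne : (crs s d Y).Nonempty) : 3 ≤ (crs s d Y).card := by
  by_contra hlt
  have h1 := br_ne h Y
  have h0 := card_pos.2 hne
  have h2 : (crs s d Y).card = 2 := by omega
  obtain ⟨e1, e2, hne, hY⟩ := card_eq_two.mp h2
  have he1 : e1 ∈ crs s d Y := by rw [hY]; simp
  obtain ⟨f, hf1, _, hf2⟩ := h.crit {e1} ⟨e1, by simp, fun heq => by
    rw [mem_crs, heq] at he1; exact he1 Iff.rfl⟩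
  have hsum := Pool.Agent.TH676.Z.sum_cut (src := s) (dst := d) (f := f) (Y := Y) (fun v _ => hf1 v)
  rw [hY, sum_pair hne] at hsum
  refine h.nf ⟨f, hf1, fun e he => absurd he (notMem_empty _), fun e _ _ => ?_⟩
  by_cases hee : e = e1
  · subst hee
    have h5 : f e2 ≠ 0 := hf2 e2 (notMem_empty _) (by simpa using hne.symm)
    intro h6
    rw [h6] at hsum
    apply h5
    by_cases h7 : s e2 ∈ Y
    · simpa [h7] using hsum
    · simpa [h7] using hsum
  · exact hf2 e (notMem_empty _) (by simpa using hee)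

/-- an empty cut has a side without proper edges -/
theorem cut0 (h : MinC s d) (Y : Finset V) (h0 : crs s d Y = ∅) : int s d Y = ∅ ∨ int s d Yᶜ = ∅ := by
  by_contra hcon
  rw [not_or, ← Ne, ← Ne, ← nonempty_iff_ne_empty, ← nonempty_iff_ne_empty] at hcon
  obtain ⟨f1, f2, a1, a2, a3, a4⟩ := sides h Y hcon.1 hcon.2
  refine h.nf (Cut4.glue (Y := Y) (f1 := f1) (f2 := f2)
    (fun v _ => a1 v) (fun v _ => a2 v) a3 (fun e he _ => a4 e (Or.inl he)) ?_)
  intro e he
  rw [h0] at he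
  exact absurd he (notMem_empty _)

/-- a cut with three edges has a side without proper edges -/
theorem cutT3 (h : MinC s d) (Y : Finset V) (hc3 : (crs s d Y).card = 3) :
    int s d Y = ∅ ∨ int s d Yᶜ = ∅ := by
  by_contra hcon
  rw [not_or, ← Ne, ← Ne, ← nonempty_iff_ne_empty, ← nonempty_iff_ne_empty] at hcon
  obtain ⟨f1, f2, a1, a2, a3, a4⟩ := sides h Y hcon.1 hcon.2
  obtain ⟨f', b1, b2, b3⟩ := three V E s d Y hc3 f1 (fun v _ => a1 v) a3 f2 (fun e he => by
    rw [mem_crs] at he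
    exact a4 e (by tauto)) (Pool.Agent.TH676.Z.sum_cut fun v _ => a2 v)
  exact h.nf (Cut4.glue b1 (fun v _ => a2 v) b2 (fun e he _ => a4 e (Or.inl he)) b3)

/-- not isolated -/
def Ni (s d : E → V) (v : V) : Prop := ∃ e, s e ≠ d e ∧ (s e = v ∨ d e = v)

/-- a cut with vertices which are not isolated on both sides -/
theorem cut3' (h : MinC s d) {Y : Finset V} {x y : V} (hx : x ∈ Y) (hy : y ∉ Y) (nx : Ni s d x)
    (ny : Ni s d y) : 3 ≤ (crs s d Y).card := by
  apply cutC h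
  rw [nonempty_iff_ne_empty]
  intro h0
  have hin : ∀ e, (s e ∈ Y ↔ d e ∈ Y) := by
    intro e
    by_contra hc
    have := mem_crs.mpr hc
    rw [h0] at this
    exact absurd this (notMem_empty _)
  rcases cut0 h Y h0 with h1 | h1
  · obtain ⟨e, he, he2⟩ := nx
    apply notMem_empty e
    rw [← h1, mem_int]
    refine ⟨he, ?_⟩
    rcases he2 with he2 | he2
    · have : s e ∈ Y := he2 ▸ hx
      exact ⟨this, (hin e).mp this⟩
    · have : d e ∈ Y := he2 ▸ hx
      exact ⟨(hin e).mpr this, this⟩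
  · obtain ⟨e, he, he2⟩ := ny
    apply notMem_empty e
    rw [← h1, mem_int, mem_compl, mem_compl]
    refine ⟨he, ?_⟩
    rcases he2 with he2 | he2
    · have : s e ∉ Y := he2 ▸ hy
      exact ⟨this, fun hd => this ((hin e).mpr hd)⟩
    · have : d e ∉ Y := he2 ▸ hy
      exact ⟨fun hd => this ((hin e).mp hd), this⟩

/-- even sets have at least twelve edges -/
theorem short_even (h : MinC s d) {x : E → ZMod 2} (hx : ∀ v, b2 s d x v = 0)
    (hl : ∀ e, x e ≠ 0 → s e ≠ d e) (hne : ∃ e, x e ≠ 0) :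
    12 ≤ (univ.filter (fun e => x e ≠ 0)).card := by
  classical
  by_contra hlt
  push Not at hlt
  set S := univ.filter (fun e => x e ≠ 0) with hS
  have hdeg : ∀ v, Even ((S.filter (fun e => s e = v)).card + (S.filter (fun e => d e = v)).card) := by
    intro v
    rw [← z2_cast_zero, Nat.cast_add, ← hx v]
    unfold b2
    rw [sum_add_distrib]
    congr 1
    · rw [← sum_filter, z2_sum]
      congr 2
      ext e
      simp [hS, and_comm]
    · rw [← sum_filter, z2_sum]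
      congr 2
      ext e
      simp [hS, and_comm]
  obtain ⟨ψ, h1, h2⟩ := Pool.Agent.H160R2.HF.eulerian s d S hdeg
  obtain ⟨e0, he0⟩ := hne
  have he0S : e0 ∈ S := mem_filter.2 ⟨mem_univ _, he0⟩
  have hfl := h.crit S ⟨e0, he0S, hl e0 he0⟩
  have h3 := trail contract_all circEx V E s d ∅ S (fun e => ((ψ e : ℤ) : ZMod 5)) (by
    intro v
    have h4 := h2 v
    unfold Pool.Agent.H160R2.HF.net at h4
    rw [sum_filter, sum_filter, ← sum_sub_distrib] at h4
    have h5 := congrArg (fun t : ℤ => (t : ZMod 5)) h4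
    simp only [Int.cast_sum, Int.cast_sub, Int.cast_zero] at h5
    refine Eq.trans ?_ h5
    unfold bd
    refine sum_congr rfl fun e _ => ?_
    split_ifs <;> simp) (by
    intro e he
    rcases (h1 e).1 he with h5 | h5
    · rw [h5]
      decide
    · rw [h5]
      decide) (by
    intro e _ he
    rw [(h1 e).2 he]
    simp) (by omega) (by rwa [empty_union])
  exact h.nf h3

end

end Pool.Agent.U659.OF
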