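import Pool.Agent.U659.OF.Kl
import Pool.Agent.U659.OF.Kf
import Pool.Agent.U659.OF.Mn

/-!
# Values on a cut which extend to one side
-/

set_option autoImplicit false
set_option linter.unusedSectionVars false

namespace Pool.Agent.U659.OF

open Finset Pool.Agent.TH676.Z Pool.Agent.Y335.FL Pool.Agent.Y358.IN

variable {V E : Type} [Fintype V] [DecidableEq V] [Fintype E] [DecidableEq E]

/-- the outward value -/
def sg (s : E → V) (Y : Finset V) (e : E) (a : ZMod 5) : ZMod 5 := if s e ∈ Y then a else - a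

theorem sg_sg (s : E → V) (Y : Finset V) (e : E) (a : ZMod 5) : sg s Y e (sg s Y e a) = a := by
  unfold sg
  split_ifs <;> simp

theorem sg_ne {s : E → V} {Y : Finset V} {e : E} {a : ZMod 5} (h : a ≠ 0) : sg s Y e a ≠ 0 := by
  unfold sg
  split_ifs
  · exact h
  · exact neg_ne_zero.2 h

/-- the values `τ` on the cut extend to the side `Y` -/
def Ext (s d : E → V) (Y : Finset V) {n : ℕ} (c : Fin n → E) (τ : Fin n → ZMod 5) : Prop :=
  ∃ f : E → ZMod 5, (∀ v ∈ Y, bd s d f v = 0) ∧ (∀ e, (s e ∈ Y ∨ d e ∈ Y) → f e ≠ 0) ∧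
    ∀ i, sg s Y (c i) (f (c i)) = τ i

/-- the end in `Y` -/
def ye (s d : E → V) (Y : Finset V) (e : E) : V := if s e ∈ Y then s e else d e

/-- the edges inside `Y` -/
def inn (s d : E → V) (Y : Finset V) : Finset E := univ.filter (fun e => s e ∈ Y ∧ d e ∈ Y)

theorem mem_inn' {s d : E → V} {Y : Finset V} {e : E} : e ∈ inn s d Y ↔ s e ∈ Y ∧ d e ∈ Y := by
  simp [inn]

theorem bd_split {s d : E → V} {Y : Finset V} {n : ℕ} {c : Fin n → E}
    (hc : Function.Injective c) (hr : univ.image c = crs s d Y) (f : E → ZMod 5) {x : V}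
    (hx : x ∈ Y) :
    bd s d f x = bd s d (fun e => if e ∈ inn s d Y then f e else 0) x +
      dem (fun i => ye s d Y (c i)) (fun i => sg s Y (c i) (f (c i))) x := by
  have h1 : dem (fun i => ye s d Y (c i)) (fun i => sg s Y (c i) (f (c i))) x =
      ∑ e, if e ∈ crs s d Y then ((if s e = x then f e else 0) - (if d e = x then f e else 0))
        else 0 := by
    rw [← sum_filter, filter_mem_eq_inter, univ_inter, ← hr, sum_image (fun a _ b _ h => hc h)]
    unfold dem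
    refine sum_congr rfl fun i _ => ?_
    have hi : c i ∈ crs s d Y := by
      rw [← hr]
      exact mem_image_of_mem _ (mem_univ _)
    rw [mem_crs] at hi
    unfold ye sg
    by_cases h1 : s (c i) ∈ Y
    · have h2 : d (c i) ≠ x := fun h => hi ⟨fun _ => h ▸ hx, fun _ => h1⟩
      simp [h1, h2]
    · have h2 : s (c i) ≠ x := fun h => h1 (h ▸ hx)
      simp only [h1, if_false, h2, zero_sub]
      split_ifs <;> simp
  rw [h1]
  unfold bd
  rw [← sum_add_distrib]
  refine sum_congr rfl fun e _ => ?_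
  beta_reduce
  simp only [mem_inn', mem_crs]
  by_cases h2 : s e ∈ Y <;> by_cases h3 : d e ∈ Y
  · simp [h2, h3]
  · simp [h2, h3]
  · simp [h2, h3]
  · have h4 : s e ≠ x := fun h => h2 (h ▸ hx)
    have h5 : d e ≠ x := fun h => h3 (h ▸ hx)
    simp [h2, h3, h4, h5]

/-- the number of the extensions -/
noncomputable def ND (s d : E → V) (Y : Finset V) {n : ℕ} (c : Fin n → E)
    (t : Fin n → ZMod 5) : ℤ :=
  ((Linx.TT s d (fun i => ye s d Y (c i)) (inn s d Y) (inn s d Y) t).card : ℤ)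

theorem ye_mem {s d : E → V} {Y : Finset V} {e : E} (h : e ∈ crs s d Y) : ye s d Y e ∈ Y := by
  rw [mem_crs] at h
  unfold ye
  split_ifs with h1
  · exact h1
  · by_contra h2
    exact h ⟨fun h => absurd h h1, fun h => absurd h h2⟩

theorem dem_neg {n : ℕ} (v : Fin n → V) (t : Fin n → ZMod 5) (x : V) :
    dem v (fun i => - t i) x = - dem v t x := by
  unfold dem
  rw [← sum_neg_distrib]
  refine sum_congr rfl fun i _ => ?_
  split_ifs <;> simp

theorem ext_iff {s d : E → V} {Y : Finset V} {n : ℕ} {c : Fin n → E}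
    (hc : Function.Injective c) (hr : univ.image c = crs s d Y) (τ : Fin n → ZMod 5)
    (hτ : ∀ i, τ i ≠ 0) : Ext s d Y c τ ↔ ND s d Y c (fun i => - τ i) ≠ 0 := by
  have hcm : ∀ i, c i ∈ crs s d Y := fun i => by
    rw [← hr]
    exact mem_image_of_mem _ (mem_univ _)
  have hout : ∀ (g : E → ZMod 5), (∀ e, e ∉ inn s d Y → g e = 0) → ∀ x, x ∉ Y →
      bd s d g x = dem (fun i => ye s d Y (c i)) (fun i => - τ i) x := by
    intro g hg x hx
    have h1 : dem (fun i => ye s d Y (c i)) (fun i => - τ i) x = 0 := by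
      unfold dem
      refine sum_eq_zero fun i _ => if_neg fun h => hx ?_
      rw [← h]
      exact ye_mem (hcm i)
    rw [h1]
    unfold bd
    refine sum_eq_zero fun e _ => ?_
    by_cases he : e ∈ inn s d Y
    · rw [mem_inn'] at he
      have h2 : s e ≠ x := fun h => hx (h ▸ he.1)
      have h3 : d e ≠ x := fun h => hx (h ▸ he.2)
      simp [h2, h3]
    · simp [hg e he]
  unfold ND
  rw [Nat.cast_ne_zero, ← Nat.pos_iff_ne_zero, card_pos]
  constructor
  · rintro ⟨f, h1, h2, h3⟩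
    refine ⟨fun e => if e ∈ inn s d Y then f e else 0, ?_⟩
    rw [Linx.mem_TT]
    refine ⟨fun e he => if_neg he, fun e he => ?_, fun x => ?_⟩
    · rw [if_pos he]
      exact h2 e (Or.inl (mem_inn'.1 he).1)
    · by_cases hx : x ∈ Y
      · have h4 := bd_split hc hr f hx
        have e2 : (fun i => sg s Y (c i) (f (c i))) = τ := funext h3
        rw [h1 x hx, e2] at h4
        rw [dem_neg, eq_neg_iff_add_eq_zero]
        exact h4.symm
      · exact hout _ (fun e he => if_neg he) x hx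
  · rintro ⟨g, hg⟩
    rw [Linx.mem_TT] at hg
    obtain ⟨g1, g2, g3⟩ := hg
    set f : E → ZMod 5 := fun e => g e + ∑ i, if c i = e then sg s Y e (τ i) else 0 with hf
    have hfi : ∀ e ∈ inn s d Y, f e = g e := by
      intro e he
      rw [hf]
      beta_reduce
      rw [sum_eq_zero, add_zero]
      intro i _
      refine if_neg fun h => ?_
      have h4 := hcm i
      rw [h, mem_crs] at h4
      rw [mem_inn'] at he
      exact h4 ⟨fun _ => he.2, fun _ => he.1⟩
    have hfc : ∀ i, f (c i) = sg s Y (c i) (τ i) := by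
      intro i
      rw [hf]
      beta_reduce
      rw [g1 (c i), zero_add, sum_eq_single i, if_pos rfl]
      · intro j _ hj
        exact if_neg fun h => hj (hc h)
      · intro h
        exact absurd (mem_univ _) h
      · intro h
        have h4 := hcm i
        rw [mem_crs] at h4
        rw [mem_inn'] at h
        exact h4 ⟨fun _ => h.2, fun _ => h.1⟩
    refine ⟨f, fun v hv => ?_, fun e he => ?_, fun i => ?_⟩
    · rw [bd_split hc hr f hv]
      have e1 : (fun e => if e ∈ inn s d Y then f e else 0) = g := by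
        funext e
        split_ifs with h
        · exact hfi e h
        · exact (g1 e h).symm
      have e2 : (fun i => sg s Y (c i) (f (c i))) = τ := by
        funext i
        rw [hfc, sg_sg]
      rw [e1, e2, g3 v, dem_neg]
      ring
    · by_cases h : e ∈ inn s d Y
      · rw [hfi e h]
        exact g2 e h
      · have h4 : e ∈ crs s d Y := by
          rw [mem_crs]
          rw [mem_inn'] at h
          tauto
        rw [← hr, mem_image] at h4
        obtain ⟨i, _, rfl⟩ := h4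
        rw [hfc]
        exact sg_ne (hτ i)
    · rw [hfc, sg_sg]

theorem Ext.nz {s d : E → V} {Y : Finset V} {n : ℕ} {c : Fin n → E}
    (hc : Function.Injective c) (hr : univ.image c = crs s d Y) {τ : Fin n → ZMod 5}
    (h : Ext s d Y c τ) : Nz τ := by
  obtain ⟨f, h1, h2, h3⟩ := h
  have hcm : ∀ i, c i ∈ crs s d Y := fun i => by
    rw [← hr]
    exact mem_image_of_mem _ (mem_univ _)
  constructor
  · intro i
    rw [← h3]
    refine sg_ne (h2 _ ?_)
    have := hcm i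
    rw [mem_crs] at this
    tauto
  · have h4 := Pool.Agent.TH676.Z.sum_cut (src := s) (dst := d) (f := f) (Y := Y) h1
    rw [← hr, sum_image (fun a _ b _ h => hc h)] at h4
    rw [← h4]
    exact sum_congr rfl fun i _ => (h3 i).symm

theorem ext_glue {s d : E → V} {Y : Finset V} {n : ℕ} {c : Fin n → E}
    (hr : univ.image c = crs s d Y) {τ : Fin n → ZMod 5}
    (h : Ext s d Y c τ) (h' : Ext s d Yᶜ c (fun i => - τ i)) : FlowOn s d ∅ ∅ := by
  obtain ⟨f, h1, h2, h3⟩ := h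
  obtain ⟨f', h1', h2', h3'⟩ := h'
  refine Cut4.glue (Y := Y) (f1 := f) (f2 := f') h1 (fun v hv => h1' v (mem_compl.2 hv)) h2
    (fun e he _ => h2' e (Or.inl (mem_compl.2 he))) ?_
  intro e he
  have he' := he
  rw [← hr, mem_image] at he
  obtain ⟨i, _, rfl⟩ := he
  have h4 := h3 i
  have h5 : sg s Yᶜ (c i) (f' (c i)) = - τ i := h3' i
  rw [← h4] at h5
  unfold sg at h5
  simp only [mem_compl] at h5
  by_cases h6 : s (c i) ∈ Y
  · simpa [h6] using h5.symm
  · simpa [h6] using h5.symm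

theorem Nz.neg {n : ℕ} {t : Fin n → ZMod 5} (h : Nz t) : Nz (fun i => - t i) := by
  refine ⟨fun i => neg_ne_zero.2 (h.1 i), ?_⟩
  rw [sum_neg_distrib, h.2, neg_zero]

theorem Gd.neg {n : ℕ} {N : (Fin n → ZMod 5) → ℤ} (h : Gd N) : Gd (fun t => N (fun i => - t i)) := by
  obtain ⟨a, b, h⟩ := h
  refine ⟨a, b, fun t ht => ?_⟩
  beta_reduce
  rw [h _ ht.neg]
  unfold vl
  congr 1
  refine sum_congr rfl fun x _ => sum_congr rfl fun y _ => ?_
  have : (-t x + -t y = 0) ↔ (t x + t y = 0) := by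
    rw [← neg_add, neg_eq_zero]
  simp only [this]

/-- the situation at a cut -/
def Bad (s d : E → V) (Y : Finset V) {n : ℕ} (c : Fin n → E) (i j k l : Fin n) : Prop :=
  (∀ τ, τ i + τ j = 0 → ¬ Ext s d Y c τ) ∧
    ∀ τ, τ i + τ j ≠ 0 → τ k + τ l ≠ 0 → ¬ Ext s d Yᶜ c τ

/-- different indices -/
def Df {n : ℕ} (i j k l : Fin n) : Prop := i ≠ j ∧ k ≠ l ∧ i ≠ k ∧ i ≠ l ∧ j ≠ k ∧ j ≠ l

theorem dich {s d : E → V} (h : MinC s d) {n : ℕ} (hn : n = 4 ∨ n = 5) (Y : Finset V)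
    (c : Fin n → E) (hc : Function.Injective c) (hr : univ.image c = crs s d Y)
    (h1 : (int s d Y).Nonempty) (h2 : (int s d Yᶜ).Nonempty) :
    ∃ Y', (Y' = Y ∨ Y' = Yᶜ) ∧ ∃ i j k l : Fin n, Df i j k l ∧ Bad s d Y' c i j k l := by
  have hr' : univ.image c = crs s d Yᶜ := by rw [crs_compl, hr]
  have hT : ∀ p : Fin n → Fin n, Tri p := by
    rcases hn with rfl | rfl
    · exact tri4
    · exact tri5
  set N : (Fin n → ZMod 5) → ℤ := fun t => ND s d Y c (fun i => - t i) with hN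
  set N' : (Fin n → ZMod 5) → ℤ := fun t => ND s d Yᶜ c t with hN'
  have g1 : Gd N := (show Gd (fun t => ND s d Y c t) from good_TT s d _ hT _ _).neg
  have g2 : Gd N' := good_TT s d _ hT _ _
  have e1 : ∀ t, Nz t → (Ext s d Y c t ↔ N t ≠ 0) := fun t ht => ext_iff hc hr t ht.1
  have e2 : ∀ t, Nz t → (Ext s d Yᶜ c (fun i => - t i) ↔ N' t ≠ 0) := fun t ht => by
    rw [ext_iff hc hr' _ ht.neg.1, hN']
    simp only [neg_neg]
  have p1 : ∀ t, Nz t → 0 ≤ N t := fun t _ => by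
    rw [hN]
    exact Nat.cast_nonneg _
  have p2 : ∀ t, Nz t → 0 ≤ N' t := fun t _ => by
    rw [hN']
    exact Nat.cast_nonneg _
  have hz : ∀ t, Nz t → N t = 0 ∨ N' t = 0 := by
    intro t ht
    by_contra hcon
    rw [not_or, ← Ne, ← Ne, ← e1 t ht, ← e2 t ht] at hcon
    exact h.nf (ext_glue hr hcon.1 hcon.2)
  obtain ⟨f1, f2, a1, a2, a3, a4⟩ := sides h Y h1 h2
  have q1 : Ext s d Y c (fun i => sg s Y (c i) (f1 (c i))) :=
    ⟨f1, fun v _ => a1 v, a3, fun i => rfl⟩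
  have q2 : Ext s d Yᶜ c (fun i => sg s Yᶜ (c i) (f2 (c i))) :=
    ⟨f2, fun v _ => a2 v, fun e he => a4 e (by rwa [mem_compl, mem_compl] at he), fun i => rfl⟩
  have x1 : ∃ t, Nz t ∧ N t ≠ 0 := ⟨_, q1.nz hc hr, (e1 _ (q1.nz hc hr)).1 q1⟩
  have x2 : ∃ t, Nz t ∧ N' t ≠ 0 := by
    have h3 := (q2.nz hc hr').neg
    refine ⟨_, h3, (e2 _ h3).1 ?_⟩
    simpa only [neg_neg] using q2
  -- translation
  have tr : ∀ i j k l : Fin n, (∀ t, Nz t → t i + t j = 0 → N t = 0) →
      (∀ t, Nz t → t i + t j ≠ 0 → t k + t l ≠ 0 → N' t = 0) → Bad s d Y c i j k l := by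
    intro i j k l u1 u2
    refine ⟨fun τ hτ hE => ?_, fun τ hτ hτ' hE => ?_⟩
    · have h3 := hE.nz hc hr
      exact (e1 _ h3).1 hE (u1 _ h3 hτ)
    · have h3 := (hE.nz hc hr').neg
      refine (e2 _ h3).1 ?_ (u2 _ h3 ?_ ?_)
      · simpa only [neg_neg] using hE
      · rw [← neg_add]
        exact neg_ne_zero.2 hτ
      · rw [← neg_add]
        exact neg_ne_zero.2 hτ'
  have tr' : ∀ i j k l : Fin n, (∀ t, Nz t → t i + t j = 0 → N' t = 0) →
      (∀ t, Nz t → t i + t j ≠ 0 → t k + t l ≠ 0 → N t = 0) → Bad s d Yᶜ c i j k l := by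
    intro i j k l u1 u2
    refine ⟨fun τ hτ hE => ?_, fun τ hτ hτ' hE => ?_⟩
    · have h3 := (hE.nz hc hr').neg
      refine (e2 _ h3).1 ?_ (u1 _ h3 ?_)
      · simpa only [neg_neg] using hE
      · rw [← neg_add, hτ, neg_zero]
    · rw [compl_compl] at hE
      have h3 := hE.nz hc hr
      exact (e1 _ h3).1 hE (u2 _ h3 hτ hτ')
  rcases hn with rfl | rfl
  · rcases K4 g1 g2 p1 p2 hz x1 x2 with ⟨j, k, l, ⟨b1, b2, b3, b4, b5, b6⟩, u1, u2⟩ |
      ⟨j, k, l, ⟨b1, b2, b3, b4, b5, b6⟩, u1, u2⟩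
    · exact ⟨Y, Or.inl rfl, 0, j, k, l, ⟨b1, b6, b2, b3, b4, b5⟩,
        tr _ _ _ _ u1 (fun t ht h3 _ => u2 t ht h3)⟩
    · exact ⟨Yᶜ, Or.inr rfl, 0, j, k, l, ⟨b1, b6, b2, b3, b4, b5⟩,
        tr' _ _ _ _ u1 (fun t ht h3 _ => u2 t ht h3)⟩
  · rcases K5 g1 g2 p1 p2 hz x1 x2 with ⟨i, j, k, l, m, hA, u1, u2⟩ | ⟨i, j, k, l, m, hA, u1, u2⟩
    · obtain ⟨b1, b2, b3, b4, b5, b6, b7, b8, b9, b10⟩ := hA
      exact ⟨Y, Or.inl rfl, i, j, k, l, ⟨b1, b8, b2, b3, b5, b6⟩, tr _ _ _ _ u1 u2⟩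
    · obtain ⟨b1, b2, b3, b4, b5, b6, b7, b8, b9, b10⟩ := hA
      exact ⟨Yᶜ, Or.inr rfl, i, j, k, l, ⟨b1, b8, b2, b3, b5, b6⟩, tr' _ _ _ _ u1 u2⟩

end Pool.Agent.U659.OF
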