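import Pool.Agent.U659.OF.Unc

/-!
# Orientations and sets violating Hoffman's condition
-/

set_option autoImplicit false
set_option linter.unusedSectionVars false

namespace Pool.Agent.U659.OF

open Finset Pool.Agent.TH676.Z Pool.Agent.Y335.FL Pool.Agent.Y358.IN

variable {V E : Type} [Fintype V] [DecidableEq V] [Fintype E] [DecidableEq E]
  {s d : E → V}

/-- the sets which violate Hoffman's condition -/
def BadX (s d : E → V) (x y : E → ZMod 2) (X : Finset V) : Prop :=
  (crs s d X).card = 6 ∧ (∀ e ∈ crs s d X, y e ≠ 0) ∧ (fc s d x X).card = 2 ∧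
    ∀ p ∈ TT s d x y, ∃ e, s e ≠ d e ∧ (s e = p ∨ d e = p) ∧ e ∉ crs s d X

theorem BadX.compl {x y : E → ZMod 2} {X : Finset V} (h : BadX s d x y X) : BadX s d x y Xᶜ := by
  unfold BadX fc at *
  rw [crs_compl]
  exact h

theorem submod (s d : E → V) (X Y : Finset V) :
    (crs s d (X ∩ Y)).card + (crs s d (X ∪ Y)).card ≤ (crs s d X).card + (crs s d Y).card := by
  unfold crs
  rw [card_filter, card_filter, card_filter, card_filter, ← sum_add_distrib, ← sum_add_distrib]
  refine sum_le_sum fun e _ => ?_
  by_cases h1 : s e ∈ X <;> by_cases h2 : s e ∈ Y <;> by_cases h3 : d e ∈ X <;>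
    by_cases h4 : d e ∈ Y <;> simp [h1, h2, h3, h4]

theorem uncross (hM : MinC s d) (h5 : T5 s d) {x y : E → ZMod 2} (h : Mp s d x y)
    (h4 : (odd s d y).card = 4) {X Y : Finset V} (bX : BadX s d x y X) (bY : BadX s d x y Y)
    (hX : (X ∩ odd s d y).card = 2) (hY : (Y ∩ odd s d y).card = 2)
    (hXY : ((X ∩ Y) ∩ odd s d y).card = 1) : False := by
  classical
  set R := odd s d y with hR
  have r1 : ((X ∩ Y) ∩ R).card + ((X \ Y) ∩ R).card = (X ∩ R).card := by
    rw [← card_union_of_disjoint]
    · congr 1
      ext v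
      simp only [mem_union, mem_inter, mem_sdiff]
      tauto
    · rw [disjoint_left]
      intro v hv hv'
      rw [mem_inter, mem_inter] at hv
      rw [mem_inter, mem_sdiff] at hv'
      exact hv'.1.2 hv.1.2
  have r2 : ((X ∩ Y) ∩ R).card + ((Y \ X) ∩ R).card = (Y ∩ R).card := by
    rw [← card_union_of_disjoint]
    · congr 1
      ext v
      simp only [mem_union, mem_inter, mem_sdiff]
      tauto
    · rw [disjoint_left]
      intro v hv hv'
      rw [mem_inter, mem_inter] at hv
      rw [mem_inter, mem_sdiff] at hv'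
      exact hv'.1.2 hv.1.1
  have r3 : (X ∩ R).card + ((Y \ X) ∩ R).card + ((X ∪ Y)ᶜ ∩ R).card = R.card := by
    rw [← card_union_of_disjoint, ← card_union_of_disjoint]
    · congr 1
      ext v
      simp only [mem_union, mem_inter, mem_sdiff, mem_compl]
      tauto
    · rw [disjoint_left]
      intro v hv hv'
      simp only [mem_union, mem_inter, mem_sdiff, mem_compl] at hv hv'
      tauto
    · rw [disjoint_left]
      intro v hv hv'
      simp only [mem_inter, mem_sdiff] at hv hv'
      tauto
  have hodd : ∀ B : Finset V, (B ∩ R).card = 1 → (∀ e ∈ crs s d B, y e ≠ 0) →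
      Odd (crs s d B).card := by
    intro B hB hy
    have h1 := cut_par' s d y B
    have h2 : (crs s d B).filter (fun e => y e ≠ 0) = crs s d B := by
      rw [filter_eq_self]
      exact hy
    rw [h2, ← hR, hB] at h1
    rw [← Nat.not_even_iff_odd, ← h1]
    norm_num
  have hyb : ∀ B : Finset V, (∀ e, e ∈ crs s d B → e ∈ crs s d X ∨ e ∈ crs s d Y) →
      ∀ e ∈ crs s d B, y e ≠ 0 := by
    intro B hB e he
    rcases hB e he with h1 | h1
    · exact bX.2.1 e h1
    · exact bY.2.1 e h1
  have o1 := hodd (X ∩ Y) hXY (hyb _ (by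
    intro e he
    rw [mem_crs, mem_inter, mem_inter] at he
    rw [mem_crs, mem_crs]
    tauto))
  have o2 := hodd (X \ Y) (by omega) (hyb _ (by
    intro e he
    rw [mem_crs, mem_sdiff, mem_sdiff] at he
    rw [mem_crs, mem_crs]
    tauto))
  have o3 := hodd (Y \ X) (by omega) (hyb _ (by
    intro e he
    rw [mem_crs, mem_sdiff, mem_sdiff] at he
    rw [mem_crs, mem_crs]
    tauto))
  have o4 := hodd (X ∪ Y)ᶜ (by omega) (hyb _ (by
    intro e he
    rw [crs_compl, mem_crs, mem_union, mem_union] at he
    rw [mem_crs, mem_crs]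
    tauto))
  have m1 := submod s d X Y
  have m2 := submod s d X Yᶜ
  have e1 : X ∩ Yᶜ = X \ Y := by
    ext v
    simp only [mem_inter, mem_sdiff, mem_compl]
  have e2 : crs s d (X ∪ Yᶜ) = crs s d (Y \ X) := by
    rw [← crs_compl]
    congr 1
    ext v
    simp only [mem_union, mem_sdiff, mem_compl]
    tauto
  rw [e1, e2, crs_compl, bX.1, bY.1] at m2
  rw [← crs_compl s d (X ∪ Y), bX.1, bY.1] at m1
  have c1 : (crs s d (X ∩ Y)).card ≤ 5 ∨ (crs s d (X ∪ Y)ᶜ).card ≤ 5 := by
    obtain ⟨k, hk⟩ := o1
    obtain ⟨k', hk'⟩ := o4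
    omega
  have c2 : (crs s d (X \ Y)).card ≤ 5 ∨ (crs s d (Y \ X)).card ≤ 5 := by
    obtain ⟨k, hk⟩ := o2
    obtain ⟨k', hk'⟩ := o3
    omega
  have fin : ∀ A A' Z : Finset V, Disjoint A A' → A ∪ A' = Z → BadX s d x y Z →
      (crs s d A).card ≤ 5 → (crs s d A').card ≤ 5 → Odd (crs s d A).card →
      Odd (crs s d A').card → (A ∩ R).card = 1 → (A' ∩ R).card = 1 → False := by
    intro A A' Z hd hu hb a1 a2 a3 a4 a5 a6
    subst hu
    exact no_small hM h5 h h4 hd a1 a2 a3 a4 a5 a6 hb.1 hb.2.2.1 (fun p hp _ => hb.2.2.2 p hp)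
  rcases c1 with c1 | c1 <;> rcases c2 with c2 | c2
  · refine fin (X ∩ Y) (X \ Y) X ?_ ?_ bX c1 c2 o1 o2 hXY (by omega)
    · rw [disjoint_left]
      intro v hv hv'
      exact (mem_sdiff.1 hv').2 (mem_inter.1 hv).2
    · ext v
      simp only [mem_union, mem_inter, mem_sdiff]
      tauto
  · refine fin (X ∩ Y) (Y \ X) Y ?_ ?_ bY c1 c2 o1 o3 hXY (by omega)
    · rw [disjoint_left]
      intro v hv hv'
      exact (mem_sdiff.1 hv').2 (mem_inter.1 hv).1
    · ext v
      simp only [mem_union, mem_inter, mem_sdiff]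
      tauto
  · refine fin (X ∪ Y)ᶜ (X \ Y) Yᶜ ?_ ?_ bY.compl c1 c2 o4 o2 (by omega) (by omega)
    · rw [disjoint_left]
      intro v hv hv'
      exact (mem_compl.1 hv) (mem_union_left _ (mem_sdiff.1 hv').1)
    · ext v
      simp only [mem_union, mem_sdiff, mem_compl]
      tauto
  · refine fin (X ∪ Y)ᶜ (Y \ X) Xᶜ ?_ ?_ bX.compl c1 c2 o4 o3 (by omega) (by omega)
    · rw [disjoint_left]
      intro v hv hv'
      exact (mem_compl.1 hv) (mem_union_right _ (mem_sdiff.1 hv').1)
    · ext v
      simp only [mem_union, mem_sdiff, mem_compl]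
      tauto

open Pool.Agent.H160R2.HF in
/-- orientations with prescribed opposite vertices -/
theorem orient (y : E → ZMod 2) (a b c e' : V)
    (hb : ∀ v, b2 s d y v = ((if v = a then 1 else 0) + (if v = b then 1 else 0)) +
      ((if v = c then 1 else 0) + (if v = e' then 1 else 0))) :
    ∃ (ψ : E → ℤ) (p q : ℤ), (p = 1 ∨ p = -1) ∧ (q = 1 ∨ q = -1) ∧
      (∀ e, (y e ≠ 0 → ψ e = 1 ∨ ψ e = -1) ∧ (y e = 0 → ψ e = 0)) ∧
      ∀ v, net s d ψ v = p * ((if v = a then 1 else 0) - (if v = b then 1 else 0)) +
        q * ((if v = c then 1 else 0) - (if v = e' then 1 else 0)) := by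
  classical
  set t' : E ⊕ Fin 2 → V := Sum.elim s ![a, c] with ht'
  set h' : E ⊕ Fin 2 → V := Sum.elim d ![b, e'] with hh'
  set y' : E ⊕ Fin 2 → ZMod 2 := Sum.elim y (fun _ => 1) with hy'
  have h0 : ∀ v, b2 t' h' y' v = 0 := by
    intro v
    have h1 := hb v
    unfold b2 at h1 ⊢
    rw [Fintype.sum_sum_type, Fin.sum_univ_two]
    simp only [ht', hh', hy', Sum.elim_inl, Sum.elim_inr, Matrix.cons_val_zero,
      Matrix.cons_val_one]
    rw [h1]
    simp only [eq_comm (a := a), eq_comm (a := b), eq_comm (a := c), eq_comm (a := e')]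
    exact z2_self _
  obtain ⟨ψ', h1, h2⟩ := eulerian t' h' (sp y') (by
    intro v
    have h1 := b2_ind t' h' (sp y') v
    rw [ind_sp, h0] at h1
    exact z2_cast_zero.1 h1.symm)
  have hr : ∀ i : Fin 2, ψ' (Sum.inr i) = 1 ∨ ψ' (Sum.inr i) = -1 := by
    intro i
    refine (h1 (Sum.inr i)).1 (mem_sp.2 ?_)
    simp [hy']
  refine ⟨fun e => ψ' (Sum.inl e), - ψ' (Sum.inr 0), - ψ' (Sum.inr 1), ?_, ?_, fun e => ⟨?_, ?_⟩,
    fun v => ?_⟩
  · rcases hr 0 with h3 | h3 <;> rw [h3] <;> simp
  · rcases hr 1 with h3 | h3 <;> rw [h3] <;> simp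
  · intro he
    exact (h1 (Sum.inl e)).1 (mem_sp.2 (by simpa [hy'] using he))
  · intro he
    refine (h1 (Sum.inl e)).2 fun h3 => ?_
    rw [mem_sp] at h3
    exact h3 (by simpa [hy'] using he)
  · have h3 := h2 v
    unfold net at h3 ⊢
    rw [sum_filter, sum_filter, Fintype.sum_sum_type, Fintype.sum_sum_type, Fin.sum_univ_two,
      Fin.sum_univ_two] at h3
    simp only [ht', hh', Sum.elim_inl, Sum.elim_inr, Matrix.cons_val_zero,
      Matrix.cons_val_one] at h3
    rw [sum_filter, sum_filter]
    simp only [eq_comm (a := a), eq_comm (a := b), eq_comm (a := c), eq_comm (a := e')] at h3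
    have g : ∀ (P : Prop) [Decidable P] (z : ℤ), (if P then z else 0) = z * (if P then 1 else 0) := by
      intro P _ z
      split_ifs <;> simp
    rw [g (v = a), g (v = b), g (v = c), g (v = e')] at h3
    linarith

open Pool.Agent.H160R2.HF in
theorem bad_ex (hM : MinC s d) {x y : E → ZMod 2} (hv : Vd s d x y) {ψ : E → ℤ} {ρ : V → ℤ}
    (hψ : ∀ e, (y e ≠ 0 → ψ e = 1 ∨ ψ e = -1) ∧ (y e = 0 → ψ e = 0))
    (hn : ∀ v, net s d ψ v = ρ v) (h1 : ∀ v, |ρ v| ≤ 1) (h2 : ∀ X : Finset V, ∑ v ∈ X, ρ v ≤ 2) :
    ∃ X, BadX s d x y X ∧ ∑ v ∈ X, ρ v = 2 := by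
  classical
  obtain ⟨φ, hφ, hφn⟩ := eulerian s d (sp x) (by
    intro v
    have h3 := b2_ind s d (sp x) v
    rw [ind_sp, hv.ev] at h3
    exact z2_cast_zero.1 h3.symm)
  have hφ1 : ∀ e, x e ≠ 0 → φ e = 1 ∨ φ e = -1 := fun e he => (hφ e).1 (mem_sp.2 he)
  have hφ0 : ∀ e, x e = 0 → φ e = 0 := fun e he => (hφ e).2 fun h => mem_sp.1 h he
  set f : E → ℤ := fun e => 2 * φ e + ψ e with hf
  have hf0 : ∀ e, s e ≠ d e → f e ≠ 0 := by
    intro e he
    have := hv.nz e he
    have e1 := hφ1 e
    have e2 := hφ0 e
    have e3 := (hψ e).1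
    have e4 := (hψ e).2
    rw [hf]
    beta_reduce
    by_cases hx : x e = 0
    · have hy : y e ≠ 0 := this.resolve_left fun h => h hx
      have := e2 hx
      rcases e3 hy with h5 | h5 <;> omega
    · by_cases hy : y e = 0
      · have := e4 hy
        rcases e1 hx with h5 | h5 <;> omega
      · rcases e1 hx with h5 | h5 <;> rcases e3 hy with h6 | h6 <;> omega
  set lo : E → ℤ := fun e => if s e = d e then 1 else if 0 < f e then 1 else -4 with hlo
  set hi : E → ℤ := fun e => if s e = d e then 1 else if 0 < f e then 4 else -1 with hhi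
  have hle : ∀ e, lo e ≤ hi e := by
    intro e
    rw [hlo, hhi]
    beta_reduce
    split_ifs <;> norm_num
  by_contra hcon
  push Not at hcon
  have hff : ∀ X, 0 ≤ ff s d lo hi (fun _ => 0) X := by
    intro X
    by_contra hneg
    push Not at hneg
    set o : E → ℤ := fun e => if s e ∈ X then f e else - f e with ho
    have hff' : ff s d lo hi (fun _ => 0) X = ∑ e ∈ crs s d X, (if 0 < o e then (-1 : ℤ) else 4) := by
      unfold ff
      rw [sum_const_zero, zero_add]
      unfold crs
      rw [sum_filter]
      refine sum_congr rfl fun e _ => ?_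
      unfold ce
      have hz := hf0 e
      rw [ho, hlo, hhi]
      beta_reduce
      by_cases a1 : s e ∈ X <;> by_cases a2 : d e ∈ X
      · simp [a1, a2]
      · have hne : s e ≠ d e := fun h => a2 (h ▸ a1)
        have hz' := hz hne
        simp only [a1, a2, hne, not_true_eq_false, and_false, false_and, not_false_eq_true,
          and_self, if_true, if_false, true_iff]
        split_ifs with h6
        · rfl
        · norm_num
      · have hne : s e ≠ d e := fun h => a1 (h ▸ a2)
        have hz' := hz hne
        simp only [a1, a2, hne, not_false_eq_true, and_self, if_true, if_false, false_iff,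
          not_true_eq_false]
        split_ifs with h6 h7 h7
        · omega
        · rfl
        · rfl
        · omega
      · simp [a1, a2]
    have hbd : ∀ e ∈ crs s d X, o e ≠ 0 ∧ -3 ≤ o e := by
      intro e he
      have hne : s e ≠ d e := by
        intro h
        rw [mem_crs, h] at he
        exact he Iff.rfl
      have h3 := hf0 e hne
      have h4 : -3 ≤ f e ∧ f e ≤ 3 := by
        rw [hf]
        beta_reduce
        have e1 : φ e = 1 ∨ φ e = -1 ∨ φ e = 0 := by
          by_cases hx : x e = 0
          · exact Or.inr (Or.inr (hφ0 e hx))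
          · rcases hφ1 e hx with h | h
            · exact Or.inl h
            · exact Or.inr (Or.inl h)
        have e2 : ψ e = 1 ∨ ψ e = -1 ∨ ψ e = 0 := by
          by_cases hy : y e = 0
          · exact Or.inr (Or.inr ((hψ e).2 hy))
          · rcases (hψ e).1 hy with h | h
            · exact Or.inl h
            · exact Or.inr (Or.inl h)
        omega
      rw [ho]
      beta_reduce
      split_ifs
      · exact ⟨h3, h4.1⟩
      · exact ⟨by omega, by omega⟩
    have hsum : ∀ g : E → ℤ, ∑ e ∈ crs s d X, (if s e ∈ X then g e else - g e) =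
        ∑ v ∈ X, net s d g v := by
      intro g
      rw [net_sum]
      unfold crs
      rw [sum_filter]
      refine sum_congr rfl fun e _ => ?_
      by_cases a1 : s e ∈ X <;> by_cases a2 : d e ∈ X <;> simp [a1, a2]
    have hS : ∑ e ∈ crs s d X, o e = ∑ v ∈ X, ρ v := by
      rw [ho, hsum f]
      refine sum_congr rfl fun v _ => ?_
      rw [← hn v]
      have h3 := hφn v
      unfold net at h3 ⊢
      rw [hf]
      rw [sum_add_distrib, sum_add_distrib, ← mul_sum, ← mul_sum]
      linarith
    set P := (crs s d X).filter (fun e => 0 < o e) with hP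
    set Q := (crs s d X).filter (fun e => ¬ 0 < o e) with hQ
    have hPQ : P.card + Q.card = (crs s d X).card := card_filter_add_card_filter_not _
    have hsp : ∀ g : E → ℤ, ∑ e ∈ crs s d X, g e = ∑ e ∈ P, g e + ∑ e ∈ Q, g e := by
      intro g
      exact (sum_filter_add_sum_filter_not _ _ _).symm
    have k1 : ff s d lo hi (fun _ => 0) X = - (P.card : ℤ) + 4 * Q.card := by
      rw [hff', hsp]
      have q1 : ∑ e ∈ P, (if 0 < o e then (-1 : ℤ) else 4) = ∑ e ∈ P, (-1 : ℤ) :=
        sum_congr rfl fun e he => if_pos (mem_filter.1 he).2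
      have q2 : ∑ e ∈ Q, (if 0 < o e then (-1 : ℤ) else 4) = ∑ e ∈ Q, (4 : ℤ) :=
        sum_congr rfl fun e he => if_neg (mem_filter.1 he).2
      rw [q1, q2, sum_const, sum_const]
      simp
      ring
    have k2 : (P.card : ℤ) ≤ ∑ e ∈ P, o e := by
      rw [card_eq_sum_ones]
      push_cast
      refine sum_le_sum fun e he => ?_
      have := (mem_filter.1 he).2
      omega
    have k3 : -3 * (Q.card : ℤ) ≤ ∑ e ∈ Q, o e := by
      rw [card_eq_sum_ones]
      push_cast
      rw [mul_sum]
      refine sum_le_sum fun e he => ?_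
      have := (hbd e (mem_filter.1 he).1).2
      omega
    have k4 := hsp o
    have k5 := h2 X
    rw [hS] at k4
    rw [k1] at hneg
    have hQ1 : Q.card ≤ 1 := by omega
    have hQ2 : Q.card ≠ 0 := by
      intro h0
      have h6 : 0 < (crs s d X).card := by omega
      have h7 := cutC hM X (card_pos.1 h6)
      omega
    have hQ3 : Q.card = 1 := by omega
    have hP5 : P.card = 5 := by omega
    have hρ2 : ∑ v ∈ X, ρ v = 2 := by omega
    refine hcon X ?_ hρ2
    -- the values
    have z1 : ∀ e ∈ P, o e = 1 := by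
      have h6 : ∑ e ∈ P, (o e - 1) = 0 := by
        rw [sum_sub_distrib, sum_const]
        simp only [smul_eq_mul, mul_one, nsmul_eq_mul]
        omega
      intro e he
      have h7 := (sum_eq_zero_iff_of_nonneg (fun e he => by
        have := (mem_filter.1 he).2
        omega)).1 h6 e he
      omega
    have z2 : ∀ e ∈ Q, o e = -3 := by
      have h6 : ∑ e ∈ Q, (o e + 3) = 0 := by
        rw [sum_add_distrib, sum_const]
        simp only [smul_eq_mul, nsmul_eq_mul]
        omega
      intro e he
      have h7 := (sum_eq_zero_iff_of_nonneg (fun e he => by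
        have := (hbd e (mem_filter.1 he).1).2
        omega)).1 h6 e he
      omega
    have zz : ∀ e ∈ crs s d X, o e = 1 ∨ o e = -3 := by
      intro e he
      by_cases h6 : 0 < o e
      · exact Or.inl (z1 e (mem_filter.2 ⟨he, h6⟩))
      · exact Or.inr (z2 e (mem_filter.2 ⟨he, h6⟩))
    have hoe : ∀ e, o e = 2 * (if s e ∈ X then φ e else - φ e) + (if s e ∈ X then ψ e else - ψ e) := by
      intro e
      rw [ho, hf]
      beta_reduce
      split_ifs <;> ring
    refine ⟨by omega, ?_, ?_, ?_⟩
    · intro e he hy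
      have h6 := zz e he
      rw [hoe, (hψ e).2 hy] at h6
      split_ifs at h6 <;> omega
    · have h6 : ((fc s d x X).card : ℤ) = ∑ e ∈ crs s d X, (if x e ≠ 0 then (1 : ℤ) else 0) := by
        unfold fc
        rw [card_filter]
        push_cast
        rfl
      have h7 : ∑ e ∈ crs s d X, (if s e ∈ X then φ e else - φ e) = 0 := by
        rw [hsum φ]
        exact sum_eq_zero fun v _ => hφn v
      rw [hsp] at h6 h7
      have h8 : ∑ e ∈ P, (if x e ≠ 0 then (1 : ℤ) else 0) =
          ∑ e ∈ P, (if s e ∈ X then φ e else - φ e) := by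
        refine sum_congr rfl fun e he => ?_
        have h9 := z1 e he
        rw [hoe] at h9
        by_cases hx : x e = 0
        · rw [if_neg (not_not.2 hx), hφ0 e hx]
          simp
        · rw [if_pos hx]
          have h10 := hφ1 e hx
          have h11 : ψ e = 1 ∨ ψ e = -1 ∨ ψ e = 0 := by
            by_cases hy : y e = 0
            · exact Or.inr (Or.inr ((hψ e).2 hy))
            · rcases (hψ e).1 hy with h | h
              · exact Or.inl h
              · exact Or.inr (Or.inl h)
          split_ifs at h9 ⊢ <;> omega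
      have h12 : ∑ e ∈ Q, (if x e ≠ 0 then (1 : ℤ) else 0) =
          ∑ e ∈ Q, ((if s e ∈ X then φ e else - φ e) + 2) := by
        refine sum_congr rfl fun e he => ?_
        have h9 := z2 e he
        rw [hoe] at h9
        have h11 : ψ e = 1 ∨ ψ e = -1 ∨ ψ e = 0 := by
          by_cases hy : y e = 0
          · exact Or.inr (Or.inr ((hψ e).2 hy))
          · rcases (hψ e).1 hy with h | h
            · exact Or.inl h
            · exact Or.inr (Or.inl h)
        by_cases hx : x e = 0
        · rw [hφ0 e hx] at h9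
          split_ifs at h9 <;> omega
        · rw [if_pos hx]
          have h10 := hφ1 e hx
          split_ifs at h9 ⊢ <;> omega
      rw [h8, h12, sum_add_distrib, sum_const] at h6
      simp only [nsmul_eq_mul] at h6
      rw [hQ3] at h6
      push_cast at h6
      omega
    · intro p hp
      by_contra hcon2
      push Not at hcon2
      have hpp := mem_TT.1 hp
      have h6 := deg_three hM (ni_of_odd hpp.1)
      have h7 : ∀ e ∈ crs s d {p}, (if s e ∈ X then ψ e else - ψ e) = 1 := by
        intro e he
        rw [mem_crs_sing] at he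
        have h8 := zz e (hcon2 e he.1 he.2)
        rw [hoe, hφ0 e (hpp.2 e he.2)] at h8
        have h11 : ψ e = 1 ∨ ψ e = -1 ∨ ψ e = 0 := by
          by_cases hy : y e = 0
          · exact Or.inr (Or.inr ((hψ e).2 hy))
          · rcases (hψ e).1 hy with h | h
            · exact Or.inl h
            · exact Or.inr (Or.inl h)
        split_ifs at h8 ⊢ <;> omega
      have h8 : net s d ψ p = ∑ e ∈ crs s d {p}, (if s e = p then ψ e else - ψ e) := by
        have h9 := net_sum s d ψ {p}
        rw [sum_singleton] at h9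
        rw [h9]
        unfold crs
        rw [sum_filter]
        refine sum_congr rfl fun e _ => ?_
        by_cases a1 : s e = p <;> by_cases a2 : d e = p <;> simp [a1, a2]
      have h9 := h1 p
      rw [← hn p, h8] at h9
      by_cases hpX : p ∈ X
      · have h10 : ∑ e ∈ crs s d {p}, (if s e = p then ψ e else - ψ e) =
            ((crs s d {p}).card : ℤ) := by
          rw [card_eq_sum_ones]
          push_cast
          refine sum_congr rfl fun e he => ?_
          have h11 := h7 e he
          rw [mem_crs_sing] at he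
          have h12 := hcon2 e he.1 he.2
          rw [mem_crs] at h12
          by_cases a1 : s e = p
          · have a2 : s e ∈ X := a1 ▸ hpX
            rw [if_pos a2] at h11
            rw [if_pos a1, h11]
          · have a2 : d e ∈ X := (he.2.resolve_left a1) ▸ hpX
            have a3 : s e ∉ X := fun h => h12 ⟨fun _ => a2, fun _ => h⟩
            rw [if_neg a3] at h11
            rw [if_neg a1, h11]
        rw [h10, abs_le] at h9
        omega
      · have h10 : ∑ e ∈ crs s d {p}, (if s e = p then ψ e else - ψ e) =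
            - ((crs s d {p}).card : ℤ) := by
          rw [card_eq_sum_ones]
          push_cast
          rw [← sum_neg_distrib]
          refine sum_congr rfl fun e he => ?_
          have h11 := h7 e he
          rw [mem_crs_sing] at he
          have h12 := hcon2 e he.1 he.2
          rw [mem_crs] at h12
          by_cases a1 : s e = p
          · have a2 : s e ∉ X := fun h => hpX (a1 ▸ h)
            rw [if_neg a2] at h11
            rw [if_pos a1]
            omega
          · have a2 : d e ∉ X := fun h => hpX ((he.2.resolve_left a1) ▸ h)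
            have a3 : s e ∈ X := by
              by_contra h
              exact h12 ⟨fun h' => absurd h' h, fun h' => absurd h' a2⟩
            rw [if_pos a3] at h11
            rw [if_neg a1, h11]
        rw [h10, abs_le] at h9
        omega
  obtain ⟨g, hg1, hg2⟩ := hoffman s d lo hi (fun _ => 0) hle (by simp) hff
  apply hM.nf
  refine ⟨fun e => ((g e : ℤ) : ZMod 5), fun v => ?_, fun e he => absurd he (notMem_empty e),
    fun e _ _ => ?_⟩
  · have h4 := hg2 v
    unfold net at h4
    rw [sum_filter, sum_filter, ← sum_sub_distrib] at h4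
    have h5 := congrArg (fun t : ℤ => (t : ZMod 5)) h4
    simp only [Int.cast_sum, Int.cast_sub, Int.cast_zero] at h5
    refine Eq.trans ?_ h5
    unfold bd
    refine sum_congr rfl fun e _ => ?_
    split_ifs <;> simp
  · have h6 := hg1 e
    rw [hlo, hhi] at h6
    beta_reduce at h6
    change ((g e : ℤ) : ZMod 5) ≠ 0
    rw [Ne, ZMod.intCast_zmod_eq_zero_iff_dvd]
    intro h7
    obtain ⟨k, hk⟩ := h7
    push_cast at hk
    split_ifs at h6 <;> omega

end Pool.Agent.U659.OF
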