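import Pool.Agent.U659.OF.Red
import Pool.Agent.U659.OF.Ori

/-!
# There is no minimal counterexample
-/

set_option autoImplicit false
set_option linter.unusedSectionVars false

namespace Pool.Agent.U659.OF

open Finset Pool.Agent.TH676.Z Pool.Agent.Y335.FL Pool.Agent.Y358.IN

variable {V E : Type} [Fintype V] [DecidableEq V] [Fintype E] [DecidableEq E]
  {s d : E → V}

theorem rho_sum (X : Finset V) (a b c e' : V) (p q : ℤ) :
    ∑ v ∈ X, (p * ((if v = a then 1 else 0) - (if v = b then 1 else 0)) +
      q * ((if v = c then 1 else 0) - (if v = e' then 1 else 0))) =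
    p * ((if a ∈ X then 1 else 0) - (if b ∈ X then 1 else 0)) +
      q * ((if c ∈ X then 1 else 0) - (if e' ∈ X then 1 else 0)) := by
  rw [sum_add_distrib, ← mul_sum, ← mul_sum, sum_sub_distrib, sum_sub_distrib]
  simp only [sum_ite_eq']

theorem b2_odd (y : E → ZMod 2) (v : V) : b2 s d y v = if v ∈ odd s d y then 1 else 0 := by
  by_cases h : b2 s d y v = 0
  · rw [if_neg (fun h' => mem_odd.1 h' h), h]
  · rw [if_pos (mem_odd.2 h), z2_one h]

theorem card_inter_sum (X R : Finset V) : (X ∩ R).card = ∑ v ∈ R, if v ∈ X then 1 else 0 := by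
  rw [inter_comm, ← filter_mem_eq_inter, card_filter]

theorem sum_four {a b c e' : V} (hab : a ≠ b) (hac : a ≠ c) (hae : a ≠ e') (hbc : b ≠ c)
    (hbe : b ≠ e') (hce : c ≠ e') (f : V → ℕ) :
    ∑ v ∈ ({a, b, c, e'} : Finset V), f v = f a + (f b + (f c + f e')) := by
  rw [sum_insert (by simp [hab, hac, hae]), sum_insert (by simp [hbc, hbe]),
    sum_insert (by simp [hce]), sum_singleton]

theorem four_aux (hM : MinC s d) {x y : E → ZMod 2} (hv : Vd s d x y) {a b c e' : V}
    (hab : a ≠ b) (hac : a ≠ c) (hae : a ≠ e') (hbc : b ≠ c)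
    (hbe : b ≠ e') (hce : c ≠ e') (hR : odd s d y = {a, b, c, e'}) :
    ∃ X, BadX s d x y X ∧ ¬ (a ∈ X ↔ b ∈ X) ∧ ¬ (c ∈ X ↔ e' ∈ X) := by
  obtain ⟨ψ, p, q, hp, hq, h1, h2⟩ := orient (s := s) (d := d) y a b c e' (by
    intro v
    rw [b2_odd, hR]
    by_cases h1 : v = a
    · subst h1
      simp [hab, hac, hae]
    · by_cases h2 : v = b
      · subst h2
        simp [h1, hbc, hbe]
      · by_cases h3 : v = c
        · subst h3
          simp [h1, h2, hce]
        · by_cases h4 : v = e'
          · subst h4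
            simp [h1, h2, h3]
          · simp [h1, h2, h3, h4])
  obtain ⟨X, hX, hs⟩ := bad_ex hM hv h1 h2 (by
    clear h1 h2
    intro v
    rw [abs_le]
    by_cases h1 : v = a
    · subst h1
      rw [if_pos rfl, if_neg hab, if_neg hac, if_neg hae]
      omega
    · by_cases h2 : v = b
      · subst h2
        rw [if_neg h1, if_pos rfl, if_neg hbc, if_neg hbe]
        omega
      · by_cases h3 : v = c
        · subst h3
          rw [if_neg h1, if_neg h2, if_pos rfl, if_neg hce]
          omega
        · by_cases h4 : v = e'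
          · subst h4
            rw [if_neg h1, if_neg h2, if_neg h3, if_pos rfl]
            omega
          · rw [if_neg h1, if_neg h2, if_neg h3, if_neg h4]
            omega) (by
    intro X
    rw [rho_sum]
    rcases hp with hp | hp <;> rcases hq with hq | hq <;> rw [hp, hq] <;> split_ifs <;> norm_num)
  refine ⟨X, hX, ?_⟩
  rw [rho_sum] at hs
  by_cases k1 : a ∈ X <;> by_cases k2 : b ∈ X <;> by_cases k3 : c ∈ X <;> by_cases k4 : e' ∈ X <;>
    simp only [k1, k2, k3, k4, if_true, if_false, iff_true, iff_false, iff_self,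
      not_true_eq_false, not_false_eq_true, and_true, true_and, and_false, false_and] at hs ⊢ <;>
    rcases hp with hp | hp <;> rcases hq with hq | hq <;> rw [hp, hq] at hs <;> norm_num at hs

theorem no_mn (h : Mn s d) : False := by
  classical
  have hM := h.minC
  have h5 : T5 s d := cutT5 h
  obtain ⟨x, y, hp⟩ := exists_mp h.cl
  have hle := hp.le
  have hcard : (odd s d y).card = 0 ∨ (odd s d y).card = 2 ∨ (odd s d y).card = 4 := by
    obtain ⟨k, hk⟩ := even_odd s d y
    omega
  rcases hcard with h0 | h2 | h4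
  · rcases isEmpty_or_nonempty V with hV | ⟨⟨a⟩⟩
    · exact h.nf ⟨fun _ => 1, fun v => (hV.false v).elim, fun e he => absurd he (notMem_empty e),
        fun e _ _ => (by decide : (1 : ZMod 5) ≠ 0)⟩
    · rw [card_eq_zero] at h0
      obtain ⟨ψ, p, q, hp', hq, h1, h2⟩ := orient (s := s) (d := d) y a a a a (by
        intro v
        rw [b2_odd, h0, z2_self]
        simp)
      obtain ⟨X, hX, hs⟩ := bad_ex hM hp.vd h1 h2 (by
        intro v
        rw [sub_self, mul_zero, mul_zero, add_zero, abs_zero]
        norm_num) (by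
        intro X
        rw [rho_sum, sub_self, mul_zero, mul_zero, add_zero]
        norm_num)
      rw [rho_sum, sub_self, mul_zero, mul_zero, add_zero] at hs
      norm_num at hs
  · obtain ⟨a, b, hab, hR⟩ := card_eq_two.1 h2
    obtain ⟨ψ, p, q, hp', hq, h1, h2⟩ := orient (s := s) (d := d) y a b a a (by
      intro v
      rw [b2_odd, hR, z2_self, add_zero]
      by_cases h1 : v = a
      · subst h1
        simp [hab]
      · by_cases h2 : v = b
        · subst h2
          simp [h1]
        · simp [h1, h2])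
    obtain ⟨X, hX, hs⟩ := bad_ex hM hp.vd h1 h2 (by
      clear h1 h2
      intro v
      rw [sub_self (if v = a then (1 : ℤ) else 0), mul_zero, add_zero, abs_le]
      by_cases h1 : v = a
      · subst h1
        rw [if_pos rfl, if_neg hab]
        omega
      · by_cases h2 : v = b
        · subst h2
          rw [if_neg h1, if_pos rfl]
          omega
        · rw [if_neg h1, if_neg h2]
          omega) (by
      intro X
      rw [rho_sum, sub_self (if a ∈ X then (1 : ℤ) else 0), mul_zero, add_zero]
      rcases hp' with hp | hp <;> rw [hp] <;> split_ifs <;> norm_num)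
    rw [rho_sum, sub_self (if a ∈ X then (1 : ℤ) else 0), mul_zero, add_zero] at hs
    rcases hp' with hp | hp <;> rw [hp] at hs <;> split_ifs at hs <;> norm_num at hs
  · have h4' := h4
    rw [show (4 : ℕ) = 3 + 1 from rfl, card_eq_succ] at h4'
    obtain ⟨a, R', haR, hR', h3⟩ := h4'
    obtain ⟨b, c, e', hbc, hbe, hce, hR3⟩ := card_eq_three.1 h3
    subst hR3
    simp only [mem_insert, mem_singleton, not_or] at haR
    obtain ⟨hab, hac, hae⟩ := haR
    have hR : odd s d y = {a, b, c, e'} := hR'.symm
    obtain ⟨X, bX, k1, k2⟩ := four_aux hM hp.vd hab hac hae hbc hbe hce hR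
    have key : ∀ Y, BadX s d x y Y → (X ∩ odd s d y).card = 2 → (Y ∩ odd s d y).card = 2 →
        ((X ∩ Y) ∩ odd s d y).card = 1 → False :=
      fun Y bY g1 g2 g3 => uncross hM h5 hp h4 bX bY g1 g2 g3
    rw [hR] at key
    simp only [card_inter_sum, sum_four hab hac hae hbc hbe hce, mem_inter] at key
    by_cases hc : a ∈ X ↔ c ∈ X
    · obtain ⟨Y, bY, k3, k4⟩ := four_aux hM hp.vd hac hab hae hbc.symm hce hbe (by
        rw [hR]
        ext v
        simp only [mem_insert, mem_singleton]
        tauto)
      refine key Y bY ?_ ?_ ?_ <;>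
      by_cases a1 : a ∈ X <;> by_cases a2 : b ∈ X <;> by_cases a3 : c ∈ X <;>
        by_cases a4 : e' ∈ X <;> simp only [a1, a2, a3, a4, iff_true, iff_false, iff_self,
          not_true_eq_false, not_false_eq_true] at k1 k2 hc <;>
        by_cases b1 : a ∈ Y <;> by_cases b2 : b ∈ Y <;> by_cases b3 : c ∈ Y <;>
        by_cases b4 : e' ∈ Y <;> simp only [b1, b2, b3, b4, iff_true, iff_false, iff_self,
          not_true_eq_false, not_false_eq_true] at k3 k4 <;>
        simp [a1, a2, a3, a4, b1, b2, b3, b4]
    · obtain ⟨Y, bY, k3, k4⟩ := four_aux hM hp.vd hae hab hac hbe.symm hce.symm hbc (by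
        rw [hR]
        ext v
        simp only [mem_insert, mem_singleton]
        tauto)
      refine key Y bY ?_ ?_ ?_ <;>
      by_cases a1 : a ∈ X <;> by_cases a2 : b ∈ X <;> by_cases a3 : c ∈ X <;>
        by_cases a4 : e' ∈ X <;> simp only [a1, a2, a3, a4, iff_true, iff_false, iff_self,
          not_true_eq_false, not_false_eq_true] at k1 k2 hc <;>
        by_cases b1 : a ∈ Y <;> by_cases b2 : b ∈ Y <;> by_cases b3 : c ∈ Y <;>
        by_cases b4 : e' ∈ Y <;> simp only [b1, b2, b3, b4, iff_true, iff_false, iff_self,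
          not_true_eq_false, not_false_eq_true] at k3 k4 <;>
        simp [a1, a2, a3, a4, b1, b2, b3, b4]

/-- the class has nowhere-zero 5-flows -/
theorem flow_cl4 (h1 : Cl4 s d) (h2 : Br s d ∅ ∅) : FlowOn s d ∅ ∅ := by
  by_contra h3
  obtain ⟨s', d', h⟩ := exists_mn s d h1 h2 h3
  exact no_mn h

end Pool.Agent.U659.OF
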