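import Pool.Agent.U659.OF.Ext

/-!
# Replacing one side of a cut
-/

set_option autoImplicit false
set_option linter.unusedSectionVars false

namespace Pool.Agent.U659.OF

open Finset Pool.Agent.TH676.Z Pool.Agent.Y335.FL Pool.Agent.Y358.IN

variable {V E : Type} [Fintype V] [DecidableEq V] [Fintype E] [DecidableEq E]

/-- the ends outside `Y` are replaced by `g` -/
def rs (s : E → V) (Y : Finset V) (g : E → V) : E → V := fun e => if s e ∈ Y then s e else g e

theorem rs_eq {s : E → V} {Y : Finset V} {g : E → V} (hg : ∀ e, g e ∉ Y) {v : V} (hv : v ∈ Y)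
    (e : E) : rs s Y g e = v ↔ s e = v := by
  unfold rs
  split_ifs with h
  · rfl
  · constructor
    · intro h1
      exact absurd (h1 ▸ hv) (hg e)
    · intro h1
      exact absurd (h1 ▸ hv) h

section

variable {s d : E → V} {Y : Finset V} {gs gd : E → V}

theorem rm_bd (h1 : ∀ e, gs e ∉ Y) (h2 : ∀ e, gd e ∉ Y) (f : E → ZMod 5) {v : V} (hv : v ∈ Y) :
    bd (rs s Y gs) (rs d Y gd) f v = bd s d f v := by
  unfold bd
  refine sum_congr rfl fun e _ => ?_
  simp only [rs_eq h1 hv, rs_eq h2 hv]

theorem rm_b2 (h1 : ∀ e, gs e ∉ Y) (h2 : ∀ e, gd e ∉ Y) (x : E → ZMod 2) {v : V} (hv : v ∈ Y) :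
    b2 (rs s Y gs) (rs d Y gd) x v = b2 s d x v := by
  unfold b2
  refine sum_congr rfl fun e _ => ?_
  simp only [rs_eq h1 hv, rs_eq h2 hv]

variable {n : ℕ} {c : Fin n → E}

theorem rm_at (hc : Function.Injective c) (hr : univ.image c = crs s d Y)
    (hg : ∀ k, gs (c k) = gd (c k)) (f : E → ZMod 5) {u : V} (hu : u ∉ Y) :
    bd (rs s Y gs) (rs d Y gd) f u =
      - (∑ k, if gs (c k) = u then sg s Y (c k) (f (c k)) else 0) +
      ∑ e ∈ inn s d Yᶜ, ((if gs e = u then f e else 0) - (if gd e = u then f e else 0)) := by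
  have h1 : (∑ k, if gs (c k) = u then sg s Y (c k) (f (c k)) else 0) =
      ∑ e, if e ∈ crs s d Y then (if gs e = u then sg s Y e (f e) else 0) else 0 := by
    symm
    rw [← sum_filter, filter_mem_eq_inter, univ_inter, ← hr, sum_image (fun a _ b _ h => hc h)]
  have h2 : ∑ e ∈ inn s d Yᶜ, ((if gs e = u then f e else 0) - (if gd e = u then f e else 0)) =
      ∑ e, if e ∈ inn s d Yᶜ then ((if gs e = u then f e else 0) - (if gd e = u then f e else 0))
        else 0 := by
    rw [← sum_filter, filter_mem_eq_inter, univ_inter]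
  rw [h1, h2, ← sum_neg_distrib, ← sum_add_distrib]
  unfold bd
  refine sum_congr rfl fun e _ => ?_
  have hgc : e ∈ crs s d Y → gs e = gd e := by
    intro he
    rw [← hr, mem_image] at he
    obtain ⟨k, _, rfl⟩ := he
    exact hg k
  rw [mem_crs] at hgc
  simp only [mem_inn', mem_crs, mem_compl]
  by_cases h3 : s e ∈ Y <;> by_cases h4 : d e ∈ Y
  · have h5 : s e ≠ u := fun h => hu (h ▸ h3)
    have h6 : d e ≠ u := fun h => hu (h ▸ h4)
    simp [rs, h3, h4, h5, h6]
  · have h5 : s e ≠ u := fun h => hu (h ▸ h3)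
    have h6 := hgc (fun h => h4 (h.1 h3))
    by_cases h7 : gd e = u <;> simp [rs, sg, h3, h4, h5, h6, h7]
  · have h5 : d e ≠ u := fun h => hu (h ▸ h4)
    have h6 := hgc (fun h => h3 (h.2 h4))
    by_cases h7 : gd e = u <;> simp [rs, sg, h3, h4, h5, h6, h7]
  · simp [rs, h3, h4]

theorem rm_at2 (hc : Function.Injective c) (hr : univ.image c = crs s d Y)
    (hg : ∀ k, gs (c k) = gd (c k)) (x : E → ZMod 2) {u : V} (hu : u ∉ Y) :
    b2 (rs s Y gs) (rs d Y gd) x u =
      (∑ k, if gs (c k) = u then x (c k) else 0) +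
      ∑ e ∈ inn s d Yᶜ, ((if gs e = u then x e else 0) + (if gd e = u then x e else 0)) := by
  have h1 : (∑ k, if gs (c k) = u then x (c k) else 0) =
      ∑ e, if e ∈ crs s d Y then (if gs e = u then x e else 0) else 0 := by
    symm
    rw [← sum_filter, filter_mem_eq_inter, univ_inter, ← hr, sum_image (fun a _ b _ h => hc h)]
  have h2 : ∑ e ∈ inn s d Yᶜ, ((if gs e = u then x e else 0) + (if gd e = u then x e else 0)) =
      ∑ e, if e ∈ inn s d Yᶜ then ((if gs e = u then x e else 0) + (if gd e = u then x e else 0))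
        else 0 := by
    rw [← sum_filter, filter_mem_eq_inter, univ_inter]
  rw [h1, h2, ← sum_add_distrib]
  unfold b2
  refine sum_congr rfl fun e _ => ?_
  have hgc : e ∈ crs s d Y → gs e = gd e := by
    intro he
    rw [← hr, mem_image] at he
    obtain ⟨k, _, rfl⟩ := he
    exact hg k
  rw [mem_crs] at hgc
  simp only [mem_inn', mem_crs, mem_compl]
  by_cases h3 : s e ∈ Y <;> by_cases h4 : d e ∈ Y
  · have h5 : s e ≠ u := fun h => hu (h ▸ h3)
    have h6 : d e ≠ u := fun h => hu (h ▸ h4)
    simp [rs, h3, h4, h5, h6]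
  · have h5 : s e ≠ u := fun h => hu (h ▸ h3)
    have h6 := hgc (fun h => h4 (h.1 h3))
    simp [rs, h3, h4, h5, h6]
  · have h5 : d e ≠ u := fun h => hu (h ▸ h4)
    have h6 := hgc (fun h => h3 (h.2 h4))
    simp [rs, h3, h4, h5, h6]
  · simp [rs, h3, h4]

/-- the flows of the new graph -/
theorem rm_ext (h1 : ∀ e, gs e ∉ Y) (h2 : ∀ e, gd e ∉ Y) {f : E → ZMod 5}
    (hf : ∀ v, bd (rs s Y gs) (rs d Y gd) f v = 0) (hn : ∀ e, f e ≠ 0) :
    Ext s d Y c (fun k => sg s Y (c k) (f (c k))) :=
  ⟨f, fun v hv => by rw [← rm_bd h1 h2 f hv, hf], fun e _ => hn e, fun _ => rfl⟩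

/-- cuts which do not separate the new vertices -/
theorem rm_same {Z : Finset V} (P : Prop) [Decidable P] (h1 : ∀ e, s e ∉ Y → (gs e ∈ Z ↔ P))
    (h2 : ∀ e, d e ∉ Y → (gd e ∈ Z ↔ P)) :
    crs (rs s Y gs) (rs d Y gd) Z = crs s d (univ.filter (fun v => if v ∈ Y then v ∈ Z else P)) := by
  have key : ∀ (t : E → V) (g : E → V), (∀ e, t e ∉ Y → (g e ∈ Z ↔ P)) → ∀ e,
      (rs t Y g e ∈ Z ↔ t e ∈ univ.filter (fun v => if v ∈ Y then v ∈ Z else P)) := by
    intro t g h e
    rw [mem_filter]
    unfold rs
    by_cases h3 : t e ∈ Y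
    · simp [h3]
    · simp [h3, h e h3]
  ext e
  rw [mem_crs, mem_crs, key s gs h1, key d gd h2]

theorem sum_two {M : Type} [AddCommMonoid M] {i j : Fin n} (hij : i ≠ j) (F : Fin n → M)
    (Q : Fin n → Prop) [DecidablePred Q] (hQ : ∀ k, Q k ↔ (k = i ∨ k = j)) :
    ∑ k, (if Q k then F k else 0) = F i + F j := by
  rw [← sum_filter, ← sum_pair hij]
  congr 1
  ext k
  rw [mem_filter, mem_insert, mem_singleton, hQ]
  simp

theorem card_two {i j : Fin n} (hij : i ≠ j) (Q : Fin n → Prop) [DecidablePred Q]
    (hQ : ∀ k, Q k ↔ (k = i ∨ k = j)) : (univ.filter Q).card = 2 := by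
  rw [← card_pair hij]
  congr 1
  ext k
  rw [mem_filter, mem_insert, mem_singleton, hQ]
  simp

/-- counting edges of a cut -/
theorem card_part (hc : Function.Injective c) {T I : Finset E} (hI : ∀ k, c k ∉ I)
    (Q : Fin n → Prop) [DecidablePred Q] (h : ∀ e, e ∈ T ↔ (e ∈ I ∨ ∃ k, Q k ∧ c k = e)) :
    T.card = I.card + (univ.filter Q).card := by
  have h1 : T = I ∪ (univ.filter Q).image c := by
    ext e
    rw [h, mem_union, mem_image]
    simp
  rw [h1, card_union_of_disjoint, card_image_of_injective _ hc]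
  rw [disjoint_left]
  intro e he he'
  obtain ⟨k, _, rfl⟩ := mem_image.1 he'
  exact hI k he

end

/-- the new ends -/
def g0 (s d : E → V) (Y : Finset V) (ci cj ck cl : E) (u v w : V) : E → V := fun e =>
  if e = ci ∨ e = cj then u else if e = ck ∨ e = cl then w else if e ∈ crs s d Y then v else u

theorem g0_mem (s d : E → V) (Y : Finset V) (ci cj ck cl : E) (u v w : V) (e : E) :
    g0 s d Y ci cj ck cl u v w e = u ∨ g0 s d Y ci cj ck cl u v w e = v ∨
      g0 s d Y ci cj ck cl u v w e = w := by
  unfold g0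
  split_ifs <;> simp

theorem even_le {m : ℕ} (h : Even m) (h5 : m ≤ 5) : m ≤ 4 := by
  obtain ⟨k, hk⟩ := h
  omega

/-- the sum of all boundaries is zero -/
theorem b2_last {s d : E → V} {x : E → ZMod 2} {w : V} (h : ∀ v, v ≠ w → b2 s d x v = 0) (v : V) :
    b2 s d x v = 0 := by
  by_cases hv : v = w
  · have h1 := sum_b2 s d x univ
    rw [crs_univ, sum_empty, ← add_sum_erase univ _ (mem_univ w),
      sum_eq_zero (fun v hv => h v (mem_erase.1 hv).1), add_zero] at h1
    rw [hv]
    exact h1
  · exact h v hv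

section

variable {s d : E → V} {n : ℕ} {c : Fin n → E} {Y : Finset V}

/-- **The first gadget.** -/
theorem gadI (h : Mn s d) (hn : n = 4 ∨ n = 5) (hc : Function.Injective c)
    (hr : univ.image c = crs s d Y) {i j : Fin n} (hij : i ≠ j)
    (hp : ∀ X, (crs s d X).card = n - 1 → (int s d X).card ≤ n - 4 ∨ (int s d Xᶜ).card ≤ n - 4)
    (hY : n - 2 ≤ (int s d Y).card) (hY' : n - 2 ≤ (int s d Yᶜ).card)
    (hcl : ∃ x y : E → ZMod 2, (∀ e, s e ≠ d e → (s e ∈ Y ∨ d e ∈ Y) → x e ≠ 0 ∨ y e ≠ 0) ∧
      (∀ v ∈ Y, b2 s d x v = 0) ∧ (Y ∩ odd s d y).card ≤ 3 ∧ x (c i) = x (c j)) :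
    ∃ τ, τ i + τ j = 0 ∧ Ext s d Y c τ := by
  classical
  obtain ⟨x, y, hxy, hx, hy, hxij⟩ := hcl
  have hcm : ∀ k, c k ∈ crs s d Y := fun k => by
    rw [← hr]
    exact mem_image_of_mem _ (mem_univ _)
  obtain ⟨e0, he0⟩ := card_pos.1 (show 0 < (int s d Yᶜ).card by omega)
  rw [mem_int, mem_compl, mem_compl] at he0
  obtain ⟨huw, huY, hwY⟩ := he0
  set u := s e0 with hu
  set w := d e0 with hw
  set g := g0 s d Y (c i) (c j) (c i) (c j) u w w with hg
  have hgv : ∀ e, g e = u ∨ g e = w := fun e => by
    rcases g0_mem s d Y (c i) (c j) (c i) (c j) u w w e with h1 | h1 | h1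
    · exact Or.inl h1
    · exact Or.inr h1
    · exact Or.inr h1
  have hgY : ∀ e, g e ∉ Y := fun e => by
    rcases hgv e with h1 | h1 <;> rw [h1] <;> assumption
  have hgu : ∀ k, g (c k) = u ↔ (k = i ∨ k = j) := by
    intro k
    rw [hg]
    unfold g0
    by_cases h1 : k = i ∨ k = j
    · have h2 : c k = c i ∨ c k = c j := by
        rcases h1 with h1 | h1
        · exact Or.inl (by rw [h1])
        · exact Or.inr (by rw [h1])
      simp [h1, h2]
    · have h2 : ¬ (c k = c i ∨ c k = c j) := by
        rintro (h3 | h3)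
        · exact h1 (Or.inl (hc h3))
        · exact h1 (Or.inr (hc h3))
      rw [if_neg h2, if_neg h2, if_pos (hcm k)]
      exact ⟨fun h3 => absurd h3.symm huw, fun h3 => absurd h3 h1⟩
  have hC := cutC h.minC
  -- the new graph is in the class
  have hcl' : Cl4 (rs s Y g) (rs d Y g) := by
    refine ⟨x, y, fun e he => ?_, fun v => b2_last (w := w) (fun v hv => ?_) v, ?_⟩
    · have h1 : s e ∈ Y ∨ d e ∈ Y := by
        by_contra hcon
        rw [not_or] at hcon
        apply he
        unfold rs
        rw [if_neg hcon.1, if_neg hcon.2]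
      refine hxy e (fun h2 => he ?_) h1
      unfold rs
      rw [h2]
    · by_cases hvY : v ∈ Y
      · rw [rm_b2 hgY hgY x hvY]
        exact hx v hvY
      · rw [rm_at2 hc hr (fun _ => rfl) x hvY, sum_eq_zero (s := inn s d Yᶜ), add_zero]
        · by_cases hvu : v = u
          · rw [hvu, sum_two hij (fun k => x (c k)) (fun k => g (c k) = u) hgu, hxij]
            exact z2_self _
          · refine sum_eq_zero fun k _ => if_neg fun h1 => ?_
            rcases hgv (c k) with h2 | h2
            · exact hvu (h1.symm.trans h2)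
            · exact hv (h1.symm.trans h2)
        · intro e _
          exact z2_self _
    · refine even_le (even_odd _ _ _) ?_
      have h1 : odd (rs s Y g) (rs d Y g) y ⊆ (Y ∩ odd s d y) ∪ {u, w} := by
        intro v hv
        rw [mem_odd] at hv
        rw [mem_union, mem_inter, mem_insert, mem_singleton, mem_odd]
        by_cases hvY : v ∈ Y
        · rw [rm_b2 hgY hgY y hvY] at hv
          exact Or.inl ⟨hvY, hv⟩
        · right
          by_contra hcon
          rw [not_or] at hcon
          apply hv
          rw [rm_at2 hc hr (fun _ => rfl) y hvY, sum_eq_zero, sum_eq_zero, add_zero]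
          · intro e _
            exact z2_self _
          · intro k _
            refine if_neg fun h1 => ?_
            rcases hgv (c k) with h2 | h2
            · exact hcon.1 (h1.symm.trans h2)
            · exact hcon.2 (h1.symm.trans h2)
      have h2 := (card_le_card h1).trans (card_union_le _ _)
      have h3 : ({u, w} : Finset V).card ≤ 2 := card_le_two
      omega
  -- the new graph is smaller
  have hlt : (Crit.nl (rs s Y g) (rs d Y g)).card < (Crit.nl s d).card := by
    refine card_lt_card (Finset.ssubset_iff_subset_ne.2 ⟨?_, ?_⟩)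
    · intro e he
      rw [Crit.mem_nl] at he ⊢
      intro h1
      apply he
      unfold rs
      rw [h1]
    · intro h1
      have h2 : e0 ∈ Crit.nl (rs s Y g) (rs d Y g) := by
        rw [h1, Crit.mem_nl]
        exact huw
      rw [Crit.mem_nl] at h2
      apply h2
      unfold rs
      rw [if_neg huY, if_neg hwY]
  -- the new graph has no bridges
  have key : ∀ Z : Finset V, u ∈ Z → w ∉ Z → (crs (rs s Y g) (rs d Y g) Z).card ≠ 1 := by
    intro Z huZ hwZ hone
    set I := univ.filter (fun e => s e ∈ Y ∧ d e ∈ Y ∧ ¬ (s e ∈ Z ↔ d e ∈ Z)) with hI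
    have hcI : ∀ k, c k ∉ I := by
      intro k hk
      rw [hI, mem_filter] at hk
      have := hcm k
      rw [mem_crs] at this
      exact this ⟨fun _ => hk.2.2.1, fun _ => hk.2.1⟩
    have hgZ : ∀ k, g (c k) ∈ Z ↔ (k = i ∨ k = j) := by
      intro k
      rw [← hgu k]
      constructor
      · intro h1
        rcases hgv (c k) with h2 | h2
        · exact h2
        · rw [h2] at h1
          exact absurd h1 hwZ
      · intro h1
        rw [h1]
        exact huZ
    have hcrs : ∀ e, e ∈ crs s d Y ↔ ∃ k, c k = e := by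
      intro e
      rw [← hr, mem_image]
      simp
    have t1 := card_part (T := crs (rs s Y g) (rs d Y g) Z) hc hcI
      (fun k => ¬ (ye s d Y (c k) ∈ Z ↔ (k = i ∨ k = j))) (by
        intro e
        rw [mem_crs, hI, mem_filter]
        by_cases h1 : s e ∈ Y <;> by_cases h2 : d e ∈ Y
        · have h3 : ¬ ∃ k, (¬ (ye s d Y (c k) ∈ Z ↔ (k = i ∨ k = j))) ∧ c k = e := by
            rintro ⟨k, _, rfl⟩
            have := hcm k
            rw [mem_crs] at this
            exact this ⟨fun _ => h2, fun _ => h1⟩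
          simp [rs, h1, h2, h3]
        · obtain ⟨k, rfl⟩ := (hcrs e).1 (mem_crs.2 fun h => h2 (h.1 h1))
          have h3 := hgZ k
          have h4 : ye s d Y (c k) = s (c k) := by simp [ye, h1]
          simp only [rs, h1, h2, if_true, if_false, h3, false_and, and_false, false_or]
          constructor
          · intro h5
            exact ⟨k, by rwa [h4], rfl⟩
          · rintro ⟨k', h5, h6⟩
            rw [hc h6, h4] at h5
            exact h5
        · obtain ⟨k, rfl⟩ := (hcrs e).1 (mem_crs.2 fun h => h1 (h.2 h2))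
          have h3 := hgZ k
          have h4 : ye s d Y (c k) = d (c k) := by simp [ye, h1]
          simp only [rs, h1, h2, if_true, if_false, h3, false_and, and_false, false_or]
          constructor
          · intro h5
            exact ⟨k, by rw [h4]; clear * - h5; tauto, rfl⟩
          · rintro ⟨k', h5, h6⟩
            rw [hc h6, h4] at h5
            clear * - h5; tauto
        · have h3 : ¬ ∃ k, (¬ (ye s d Y (c k) ∈ Z ↔ (k = i ∨ k = j))) ∧ c k = e := by
            rintro ⟨k, _, rfl⟩
            have := hcm k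
            rw [mem_crs] at this
            exact this ⟨fun h => absurd h h1, fun h => absurd h h2⟩
          simp [rs, h1, h2, h3])
    have t2 := card_part (T := crs s d (Z ∩ Y)) hc hcI (fun k => ye s d Y (c k) ∈ Z) (by
        intro e
        rw [mem_crs, hI, mem_filter, mem_inter, mem_inter]
        by_cases h1 : s e ∈ Y <;> by_cases h2 : d e ∈ Y
        · have h3 : ¬ ∃ k, ye s d Y (c k) ∈ Z ∧ c k = e := by
            rintro ⟨k, _, rfl⟩
            have := hcm k
            rw [mem_crs] at this
            exact this ⟨fun _ => h2, fun _ => h1⟩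
          simp [h1, h2, h3]
        · obtain ⟨k, rfl⟩ := (hcrs e).1 (mem_crs.2 fun h => h2 (h.1 h1))
          have h4 : ye s d Y (c k) = s (c k) := by simp [ye, h1]
          constructor
          · intro h5
            exact Or.inr ⟨k, by rw [h4]; clear * - h1 h2 h5; tauto, rfl⟩
          · rintro (h5 | ⟨k', h5, h6⟩)
            · exact absurd h5.2.2.1 h2
            · rw [hc h6, h4] at h5
              clear * - h1 h2 h5; tauto
        · obtain ⟨k, rfl⟩ := (hcrs e).1 (mem_crs.2 fun h => h1 (h.2 h2))
          have h4 : ye s d Y (c k) = d (c k) := by simp [ye, h1]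
          constructor
          · intro h5
            exact Or.inr ⟨k, by rw [h4]; clear * - h1 h2 h5; tauto, rfl⟩
          · rintro (h5 | ⟨k', h5, h6⟩)
            · exact absurd h5.2.1 h1
            · rw [hc h6, h4] at h5
              clear * - h1 h2 h5; tauto
        · have h3 : ¬ ∃ k, ye s d Y (c k) ∈ Z ∧ c k = e := by
            rintro ⟨k, _, rfl⟩
            have := hcm k
            rw [mem_crs] at this
            exact this ⟨fun h => absurd h h1, fun h => absurd h h2⟩
          simp [h1, h2, h3])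
    have t3 := card_part (T := crs s d (Y \ Z)) hc hcI (fun k => ye s d Y (c k) ∉ Z) (by
        intro e
        rw [mem_crs, hI, mem_filter, mem_sdiff, mem_sdiff]
        by_cases h1 : s e ∈ Y <;> by_cases h2 : d e ∈ Y
        · have h3 : ¬ ∃ k, ye s d Y (c k) ∉ Z ∧ c k = e := by
            rintro ⟨k, _, rfl⟩
            have := hcm k
            rw [mem_crs] at this
            exact this ⟨fun _ => h2, fun _ => h1⟩
          simp only [h1, h2, h3, true_and, or_false, mem_univ]
          clear * - h1; tauto
        · obtain ⟨k, rfl⟩ := (hcrs e).1 (mem_crs.2 fun h => h2 (h.1 h1))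
          have h4 : ye s d Y (c k) = s (c k) := by simp [ye, h1]
          constructor
          · intro h5
            exact Or.inr ⟨k, by rw [h4]; clear * - h1 h2 h5; tauto, rfl⟩
          · rintro (h5 | ⟨k', h5, h6⟩)
            · exact absurd h5.2.2.1 h2
            · rw [hc h6, h4] at h5
              clear * - h1 h2 h5; tauto
        · obtain ⟨k, rfl⟩ := (hcrs e).1 (mem_crs.2 fun h => h1 (h.2 h2))
          have h4 : ye s d Y (c k) = d (c k) := by simp [ye, h1]
          constructor
          · intro h5
            exact Or.inr ⟨k, by rw [h4]; clear * - h1 h2 h5; tauto, rfl⟩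
          · rintro (h5 | ⟨k', h5, h6⟩)
            · exact absurd h5.2.1 h1
            · rw [hc h6, h4] at h5
              clear * - h1 h2 h5; tauto
        · have h3 : ¬ ∃ k, ye s d Y (c k) ∉ Z ∧ c k = e := by
            rintro ⟨k, _, rfl⟩
            have := hcm k
            rw [mem_crs] at this
            exact this ⟨fun h => absurd h h1, fun h => absurd h h2⟩
          simp [h1, h2, h3])
    -- the numbers
    set A := univ.filter (fun k : Fin n => k = i ∨ k = j) with hA
    have hA2 : A.card = 2 := card_two hij _ (fun k => Iff.rfl)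
    have hAc : Aᶜ.card = n - 2 := by
      rw [card_compl, hA2, Fintype.card_fin]
    set P := univ.filter (fun k : Fin n => ye s d Y (c k) ∈ Z) with hP
    have n1 : (A ∩ P).card + (A \ P).card = 2 := by rw [card_inter_add_card_sdiff, hA2]
    have n2 : (Aᶜ ∩ P).card + (Aᶜ \ P).card = n - 2 := by rw [card_inter_add_card_sdiff, hAc]
    have m1 : (univ.filter (fun k => ¬ (ye s d Y (c k) ∈ Z ↔ (k = i ∨ k = j)))).card =
        (A \ P).card + (Aᶜ ∩ P).card := by
      rw [← card_union_of_disjoint]
      · congr 1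
        ext k
        simp only [hA, hP, mem_filter, mem_univ, true_and, mem_union, mem_sdiff, mem_inter,
          mem_compl]
        clear * - hij; tauto
      · rw [disjoint_left]
        intro k h1 h2
        exact (mem_compl.1 (mem_inter.1 h2).1) (mem_sdiff.1 h1).1
    have m2 : (univ.filter (fun k : Fin n => ye s d Y (c k) ∈ Z)).card =
        (A ∩ P).card + (Aᶜ ∩ P).card := by
      rw [← card_union_of_disjoint]
      · congr 1
        ext k
        simp only [hA, hP, mem_filter, mem_univ, true_and, mem_union, mem_inter, mem_compl]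
        clear * - hij; tauto
      · rw [disjoint_left]
        intro k h1 h2
        exact (mem_compl.1 (mem_inter.1 h2).1) (mem_inter.1 h1).1
    have m3 : (univ.filter (fun k : Fin n => ye s d Y (c k) ∉ Z)).card =
        (A \ P).card + (Aᶜ \ P).card := by
      rw [← card_union_of_disjoint]
      · congr 1
        ext k
        simp only [hA, hP, mem_filter, mem_univ, true_and, mem_union, mem_sdiff, mem_compl]
        clear * - hij; tauto
      · rw [disjoint_left]
        intro k h1 h2
        exact (mem_compl.1 (mem_sdiff.1 h2).1) (mem_sdiff.1 h1).1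
    rw [hone, m1] at t1
    rw [m2] at t2
    rw [m3] at t3
    have c2 : (crs s d (Z ∩ Y)).card = 0 ∨ 3 ≤ (crs s d (Z ∩ Y)).card := by
      rcases Nat.eq_zero_or_pos (crs s d (Z ∩ Y)).card with h0 | h0
      · exact Or.inl h0
      · exact Or.inr (hC _ (card_pos.1 h0))
    have c3 : (crs s d (Y \ Z)).card = 0 ∨ 3 ≤ (crs s d (Y \ Z)).card := by
      rcases Nat.eq_zero_or_pos (crs s d (Y \ Z)).card with h0 | h0
      · exact Or.inl h0
      · exact Or.inr (hC _ (card_pos.1 h0))
    have d1 : (crs s d (Z ∩ Y)).card = 3 := by omega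
    have d2 : (crs s d (Y \ Z)).card = n - 1 := by omega
    have d3 : I.card = 1 := by omega
    have mono : ∀ X X' : Finset V, X ⊆ X' → (int s d X).card ≤ (int s d X').card := by
      intro X X' hX
      refine card_le_card fun e he => ?_
      rw [mem_int] at he ⊢
      exact ⟨he.1, hX he.2.1, hX he.2.2⟩
    have w1 : (int s d (Z ∩ Y)).card = 0 := by
      rcases cutT3 h.minC _ d1 with h1 | h1
      · rw [h1, card_empty]
      · have h2 := mono Yᶜ (Z ∩ Y)ᶜ (by
          intro v hv
          rw [mem_compl] at hv ⊢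
          exact fun h3 => hv (mem_inter.1 h3).2)
        rw [h1, card_empty] at h2
        omega
    have w2 : (int s d (Y \ Z)).card ≤ n - 4 := by
      rcases hp _ d2 with h1 | h1
      · exact h1
      · have h2 := mono Yᶜ (Y \ Z)ᶜ (by
          intro v hv
          rw [mem_compl] at hv ⊢
          exact fun h3 => hv (mem_sdiff.1 h3).1)
        omega
    have w3 : int s d Y ⊆ int s d (Z ∩ Y) ∪ int s d (Y \ Z) ∪ I := by
      intro e he
      rw [mem_int] at he
      rw [mem_union, mem_union, mem_int, mem_int, hI, mem_filter, mem_inter, mem_inter, mem_sdiff,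
        mem_sdiff]
      have := mem_univ e
      clear * - he this; tauto
    have w4 := (card_le_card w3).trans ((card_union_le _ _).trans
      (Nat.add_le_add_right (card_union_le _ _) _))
    omega
  have hbr : Br (rs s Y g) (rs d Y g) ∅ ∅ := by
    intro Z _
    rw [sdiff_empty]
    by_cases h1 : u ∈ Z <;> by_cases h2 : w ∈ Z
    · rw [rm_same True]
      · exact br_ne h.minC _
      · intro e _
        rcases hgv e with h3 | h3 <;> rw [h3] <;> simp [h1, h2]
      · intro e _
        rcases hgv e with h3 | h3 <;> rw [h3] <;> simp [h1, h2]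
    · exact key Z h1 h2
    · rw [← crs_compl]
      rw [← compl_compl Z] at h1 h2
      rw [mem_compl, not_not] at h1
      rw [mem_compl] at h2
      have h3 := key Zᶜ h1 h2
      exact h3
    · rw [rm_same False]
      · exact br_ne h.minC _
      · intro e _
        rcases hgv e with h3 | h3 <;> rw [h3] <;> simp [h1, h2]
      · intro e _
        rcases hgv e with h3 | h3 <;> rw [h3] <;> simp [h1, h2]
  obtain ⟨f, hf1, _, hf2⟩ := h.mn _ _ hcl' hbr hlt
  refine ⟨_, ?_, rm_ext hgY hgY hf1 (fun e => hf2 e (notMem_empty _) (notMem_empty _))⟩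
  have h1 := hf1 u
  rw [rm_at hc hr (fun _ => rfl) f huY, sum_eq_zero (s := inn s d Yᶜ), add_zero,
    sum_two hij (fun k => sg s Y (c k) (f (c k))) (fun k => g (c k) = u) hgu, neg_eq_zero] at h1
  · exact h1
  · intro e _
    exact sub_self _

end

end Pool.Agent.U659.OF
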