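import Pool.Agent.U659.OF.Gad

/-!
# Replacing one side of a cut by a tree
-/

set_option autoImplicit false
set_option linter.unusedSectionVars false

namespace Pool.Agent.U659.OF

open Finset Pool.Agent.TH676.Z Pool.Agent.Y335.FL Pool.Agent.Y358.IN

variable {V E : Type} [Fintype V] [DecidableEq V] [Fintype E] [DecidableEq E]
  {s d : E → V} {n : ℕ} {c : Fin n → E} {Y : Finset V}

/-- the vertices and the edges of the tree -/
theorem tree_ex (h : Mn s d) (hn : n = 4 ∨ n = 5) (hY' : n - 2 ≤ (int s d Yᶜ).card) :
    ∃ (f1 f2 : E) (u v w : V), f1 ∈ int s d Yᶜ ∧ f2 ∈ int s d Yᶜ ∧ f1 ≠ f2 ∧ u ∉ Y ∧ v ∉ Y ∧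
      w ∉ Y ∧ u ≠ v ∧ u ≠ w ∧ ((n = 4 ∧ v = w) ∨ (n = 5 ∧ v ≠ w)) := by
  obtain ⟨f1, h1, f2, h2, hne⟩ := one_lt_card.1 (show 1 < (int s d Yᶜ).card by omega)
  have h1' := mem_int.1 h1
  have h2' := mem_int.1 h2
  rw [mem_compl, mem_compl] at h1' h2'
  rcases hn with rfl | rfl
  · exact ⟨f1, f2, s f1, d f1, d f1, h1, h2, hne, h1'.2.1, h1'.2.2, h1'.2.2, h1'.1, h1'.1,
      Or.inl ⟨rfl, rfl⟩⟩
  · obtain ⟨r, hr, hr1, hr2⟩ : ∃ r, r ∉ Y ∧ r ≠ s f1 ∧ r ≠ d f1 := by
      by_contra hcon
      push Not at hcon
      apply hne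
      refine no_par contract_all h.minC h1'.1 (Or.inl ⟨rfl, rfl⟩) ?_
      have a1 := hcon (s f2) h2'.2.1
      have a2 := hcon (d f2) h2'.2.2
      by_cases a3 : s f2 = s f1
      · by_cases a4 : d f2 = s f1
        · exact absurd (a3.trans a4.symm) h2'.1
        · exact Or.inl ⟨a3, a2 a4⟩
      · by_cases a4 : d f2 = s f1
        · exact Or.inr ⟨a1 a3, a4⟩
        · exact absurd ((a1 a3).trans (a2 a4).symm) h2'.1
    exact ⟨f1, f2, s f1, d f1, r, h1, h2, hne, h1'.2.1, h1'.2.2, hr, h1'.1, hr1.symm,
      Or.inr ⟨rfl, hr2.symm⟩⟩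

theorem sum_pair' {M : Type} [AddCommMonoid M] {S : Finset E} {f1 f2 : E} (h1 : f1 ∈ S)
    (h2 : f2 ∈ S) (hne : f1 ≠ f2) (F : E → M) (hF : ∀ e ∈ S, e ≠ f1 → e ≠ f2 → F e = 0) :
    ∑ e ∈ S, F e = F f1 + F f2 := by
  rw [← sum_pair hne]
  symm
  refine sum_subset (fun e he => ?_) fun e he hne' => ?_
  · rw [mem_insert, mem_singleton] at he
    rcases he with rfl | rfl <;> assumption
  · rw [mem_insert, mem_singleton, not_or] at hne'
    exact hF e he hne'.1 hne'.2

theorem z2_eq {p q : ZMod 2} (h : p + q = 0) : p = q := by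
  revert p q
  decide

/-- **The second gadget.** -/
theorem gadII (h : Mn s d) (hn : n = 4 ∨ n = 5) (hc : Function.Injective c)
    (hr : univ.image c = crs s d Y) {i j k l : Fin n} (hdf : Df i j k l)
    (hY' : n - 2 ≤ (int s d Yᶜ).card)
    (hcl : ∃ x y : E → ZMod 2, (∀ e, s e ≠ d e → (s e ∈ Y ∨ d e ∈ Y) → x e ≠ 0 ∨ y e ≠ 0) ∧
      (∀ v ∈ Y, b2 s d x v = 0) ∧ ((Y ∩ odd s d y).card ≤ 1 ∨
        ((Y ∩ odd s d y).card ≤ 3 ∧ x (c i) ≠ x (c j)))) :
    ∃ τ, τ i + τ j ≠ 0 ∧ τ k + τ l ≠ 0 ∧ Ext s d Y c τ := by
  classical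
  obtain ⟨hij, hkl, hik, hil, hjk, hjl⟩ := hdf
  obtain ⟨x, y, hxy, hx, hy⟩ := hcl
  have hcm : ∀ k, c k ∈ crs s d Y := fun k => by
    rw [← hr]
    exact mem_image_of_mem _ (mem_univ _)
  obtain ⟨f1, f2, u, v, w, hf1, hf2, hf12, huY, hvY, hwY, huv, huw, hvw⟩ := tree_ex h hn hY'
  have hf1' := mem_int.1 hf1
  have hf2' := mem_int.1 hf2
  rw [mem_compl, mem_compl] at hf1' hf2'
  have hcf1 : ∀ k, c k ≠ f1 := fun k hk => by
    have := hcm k
    rw [hk, mem_crs] at this
    exact this ⟨fun h => absurd h hf1'.2.1, fun h => absurd h hf1'.2.2⟩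
  have hcf2 : ∀ k, c k ≠ f2 := fun k hk => by
    have := hcm k
    rw [hk, mem_crs] at this
    exact this ⟨fun h => absurd h hf2'.2.1, fun h => absurd h hf2'.2.2⟩
  set g := g0 s d Y (c i) (c j) (c k) (c l) u v w with hg
  set gs : E → V := fun e => if e = f1 then u else if e = f2 then v else g e with hgs
  set gd : E → V := fun e => if e = f1 then v else if e = f2 then w else g e with hgd
  have hgv : ∀ e, g e = u ∨ g e = v ∨ g e = w := g0_mem s d Y (c i) (c j) (c k) (c l) u v w
  have hgY : ∀ e, g e ∉ Y := fun e => by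
    rcases hgv e with h1 | h1 | h1 <;> rw [h1] <;> assumption
  have hgsY : ∀ e, gs e ∉ Y := fun e => by
    rw [hgs]
    beta_reduce
    split_ifs
    · exact huY
    · exact hvY
    · exact hgY e
  have hgdY : ∀ e, gd e ∉ Y := fun e => by
    rw [hgd]
    beta_reduce
    split_ifs
    · exact hvY
    · exact hwY
    · exact hgY e
  have hgsc : ∀ k, gs (c k) = g (c k) := fun k => by
    rw [hgs]
    beta_reduce
    rw [if_neg (hcf1 k), if_neg (hcf2 k)]
  have hgdc : ∀ k, gd (c k) = g (c k) := fun k => by
    rw [hgd]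
    beta_reduce
    rw [if_neg (hcf1 k), if_neg (hcf2 k)]
  have hgg : ∀ k, gs (c k) = gd (c k) := fun k => (hgsc k).trans (hgdc k).symm
  have hgu : ∀ a, g (c a) = u ↔ (a = i ∨ a = j) := by
    intro a
    rw [hg]
    unfold g0
    by_cases h1 : a = i ∨ a = j
    · have h2 : c a = c i ∨ c a = c j := by
        rcases h1 with h1 | h1
        · exact Or.inl (by rw [h1])
        · exact Or.inr (by rw [h1])
      simp [h1, h2]
    · have h2 : ¬ (c a = c i ∨ c a = c j) := by
        rintro (h3 | h3)
        · exact h1 (Or.inl (hc h3))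
        · exact h1 (Or.inr (hc h3))
      rw [if_neg h2]
      constructor
      · intro h3
        split_ifs at h3
        · exact absurd h3.symm huw
        · exact absurd h3.symm huv
        · exact absurd (hcm a) (by assumption)
      · intro h3
        exact absurd h3 h1
  have hgw : v ≠ w → ∀ a, g (c a) = w ↔ (a = k ∨ a = l) := by
    intro hvw' a
    rw [hg]
    unfold g0
    by_cases h1 : a = k ∨ a = l
    · have h2 : c a = c k ∨ c a = c l := by
        rcases h1 with h1 | h1
        · exact Or.inl (by rw [h1])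
        · exact Or.inr (by rw [h1])
      have h3 : ¬ (c a = c i ∨ c a = c j) := by
        rintro (h3 | h3)
        · rcases h1 with h1 | h1
          · exact hik ((hc h3).symm.trans h1)
          · exact hil ((hc h3).symm.trans h1)
        · rcases h1 with h1 | h1
          · exact hjk ((hc h3).symm.trans h1)
          · exact hjl ((hc h3).symm.trans h1)
      rw [if_neg h3, if_pos h2]
      exact ⟨fun _ => h1, fun _ => rfl⟩
    · have h2 : ¬ (c a = c k ∨ c a = c l) := by
        rintro (h3 | h3)
        · exact h1 (Or.inl (hc h3))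
        · exact h1 (Or.inr (hc h3))
      rw [if_neg h2]
      constructor
      · intro h3
        split_ifs at h3
        · exact absurd h3 huw
        · exact absurd h3 hvw'
        · exact absurd h3 huw
      · intro h3
        exact absurd h3 h1
  have hgo : ∀ e ∈ inn s d Yᶜ, e ≠ f1 → e ≠ f2 → gs e = u ∧ gd e = u := by
    intro e he h1 h2
    have h3 : g e = u := by
      rw [mem_inn', mem_compl, mem_compl] at he
      have h4 : e ∉ crs s d Y := by
        rw [mem_crs, not_not]
        exact ⟨fun h => absurd h he.1, fun h => absurd h he.2⟩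
      have h5 : ∀ k, e ≠ c k := fun k hk => h4 (hk ▸ hcm k)
      rw [hg]
      unfold g0
      rw [if_neg (by rintro (h6 | h6) <;> exact h5 _ h6),
        if_neg (by rintro (h6 | h6) <;> exact h5 _ h6), if_neg h4]
    rw [hgs, hgd]
    beta_reduce
    rw [if_neg h1, if_neg h2, if_neg h1, if_neg h2]
    exact ⟨h3, h3⟩
  have hf1i : f1 ∈ inn s d Yᶜ := by
    rw [mem_inn', mem_compl, mem_compl]
    exact hf1'.2
  have hf2i : f2 ∈ inn s d Yᶜ := by
    rw [mem_inn', mem_compl, mem_compl]
    exact hf2'.2
  have e1 : gs f1 = u := by rw [hgs]; simp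
  have e2 : gd f1 = v := by rw [hgd]; simp
  have e3 : gs f2 = v := by rw [hgs]; simp [hf12.symm]
  have e4 : gd f2 = w := by rw [hgd]; simp [hf12.symm]
  have hC := cutC h.minC
  -- the new graph is smaller
  have hlt : (Crit.nl (rs s Y gs) (rs d Y gd)).card < (Crit.nl s d).card := by
    set J := univ.filter (fun e => s e ≠ d e ∧ (s e ∈ Y ∨ d e ∈ Y)) with hJ
    have h1 : J.card + (int s d Yᶜ).card ≤ (Crit.nl s d).card := by
      rw [← card_union_of_disjoint]
      · refine card_le_card fun e he => ?_
        rw [Crit.mem_nl]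
        rw [mem_union, mem_int, hJ, mem_filter] at he
        rcases he with he | he
        · exact he.2.1
        · exact he.1
      · rw [disjoint_left]
        intro e he he'
        rw [hJ, mem_filter] at he
        rw [mem_int, mem_compl, mem_compl] at he'
        rcases he.2.2 with h3 | h3
        · exact he'.2.1 h3
        · exact he'.2.2 h3
    have h2 : ∀ e ∈ Crit.nl (rs s Y gs) (rs d Y gd), e ∈ J ∨ e = f1 ∨ (e = f2 ∧ v ≠ w) := by
      intro e he
      rw [Crit.mem_nl] at he
      unfold rs at he
      by_cases h3 : s e ∈ Y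
      · left
        rw [hJ, mem_filter]
        refine ⟨mem_univ _, fun h4 => he ?_, Or.inl h3⟩
        rw [if_pos h3, if_pos (h4 ▸ h3), h4]
      · by_cases h4 : d e ∈ Y
        · left
          rw [hJ, mem_filter]
          refine ⟨mem_univ _, fun h5 => h3 (h5 ▸ h4), Or.inr h4⟩
        · right
          rw [if_neg h3, if_neg h4] at he
          by_contra hcon
          rw [not_or, not_and, not_not] at hcon
          by_cases h5 : e = f2
          · rw [h5, e3, e4] at he
            exact he (hcon.2 h5)
          · have h6 := hgo e (by rw [mem_inn', mem_compl, mem_compl]; exact ⟨h3, h4⟩) hcon.1 h5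
            rw [h6.1, h6.2] at he
            exact he rfl
    rcases hvw with ⟨hn4, hvw'⟩ | ⟨hn5, hvw'⟩
    · have h3 : Crit.nl (rs s Y gs) (rs d Y gd) ⊆ insert f1 J := by
        intro e he
        rw [mem_insert]
        rcases h2 e he with h4 | h4 | h4
        · exact Or.inr h4
        · exact Or.inl h4
        · exact absurd hvw' h4.2
      have h4 := (card_le_card h3).trans (card_insert_le _ _)
      omega
    · have h3 : Crit.nl (rs s Y gs) (rs d Y gd) ⊆ insert f1 (insert f2 J) := by
        intro e he
        rw [mem_insert, mem_insert]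
        rcases h2 e he with h4 | h4 | h4
        · exact Or.inr (Or.inr h4)
        · exact Or.inl h4
        · exact Or.inr (Or.inl h4.1)
      have h4 := (card_le_card h3).trans (card_insert_le _ _)
      have h5 := card_insert_le f2 J
      omega
  -- the new graph has no bridges
  have hcrs : ∀ e, e ∈ crs s d Y ↔ ∃ k, c k = e := by
    intro e
    rw [← hr, mem_image]
    simp
  have hf1c : ∀ Z : Finset V, f1 ∈ crs (rs s Y gs) (rs d Y gd) Z ↔ ¬ (u ∈ Z ↔ v ∈ Z) := by
    intro Z
    rw [mem_crs]
    unfold rs
    rw [if_neg hf1'.2.1, if_neg hf1'.2.2, e1, e2]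
  have hf2c : ∀ Z : Finset V, f2 ∈ crs (rs s Y gs) (rs d Y gd) Z ↔ ¬ (v ∈ Z ↔ w ∈ Z) := by
    intro Z
    rw [mem_crs]
    unfold rs
    rw [if_neg hf2'.2.1, if_neg hf2'.2.2, e3, e4]
  have key : ∀ (Z : Finset V) (e0 : E), (e0 = f1 ∨ e0 = f2) →
      crs (rs s Y gs) (rs d Y gd) Z = {e0} → ∀ a b : Fin n, a ≠ b →
      (∀ k, g (c k) ∈ Z ↔ (k = a ∨ k = b)) → False := by
    intro Z e0 he0 hZ a b hab hab'
    have h1 : crs s d (Z ∩ Y) = (univ.filter (fun k => k = a ∨ k = b)).image c := by
      ext e
      rw [mem_image, mem_crs, mem_inter, mem_inter]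
      by_cases h2 : e ∈ crs s d Y
      · obtain ⟨q, rfl⟩ := (hcrs e).1 h2
        have h3 : c q ∉ crs (rs s Y gs) (rs d Y gd) Z := by
          rw [hZ, mem_singleton]
          rcases he0 with rfl | rfl
          · exact hcf1 q
          · exact hcf2 q
        have h4 := hab' q
        have h5 : (∃ a_1 ∈ univ.filter (fun k => k = a ∨ k = b), c a_1 = c q) ↔ (q = a ∨ q = b) := by
          constructor
          · rintro ⟨q', h6, h7⟩
            rw [← hc h7]
            exact (mem_filter.1 h6).2
          · intro h6
            exact ⟨q, mem_filter.2 ⟨mem_univ _, h6⟩, rfl⟩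
        rw [h5, ← h4]
        rw [mem_crs, not_not] at h3
        unfold rs at h3
        rw [hgsc, hgdc] at h3
        rw [mem_crs] at h2
        by_cases h6 : s (c q) ∈ Y
        · have h7 : d (c q) ∉ Y := fun h => h2 ⟨fun _ => h, fun _ => h6⟩
          rw [if_pos h6, if_neg h7] at h3
          rw [← h3]
          simp [h6, h7]
        · have h7 : d (c q) ∈ Y := by
            by_contra h7
            exact h2 ⟨fun h => absurd h h6, fun h => absurd h h7⟩
          rw [if_neg h6, if_pos h7] at h3
          rw [h3]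
          simp [h6, h7]
      · have h5 : ¬ (∃ a_1 ∈ univ.filter (fun k => k = a ∨ k = b), c a_1 = e) := by
          rintro ⟨q', _, h7⟩
          exact h2 (h7 ▸ hcm q')
        have h3 : e ∉ crs (rs s Y gs) (rs d Y gd) Z ∨ (s e ∉ Y ∧ d e ∉ Y) := by
          by_cases h6 : e = e0
          · right
            rcases he0 with rfl | rfl
            · rw [h6]
              exact hf1'.2
            · rw [h6]
              exact hf2'.2
          · left
            rw [hZ, mem_singleton]
            exact h6
        rw [mem_crs, not_not] at h2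
        constructor
        · intro h6
          exfalso
          apply h6
          rcases h3 with h3 | h3
          · rw [mem_crs, not_not] at h3
            unfold rs at h3
            by_cases h7 : s e ∈ Y
            · have h8 := h2.1 h7
              rw [if_pos h7, if_pos h8] at h3
              rw [h3]
              simp [h7, h8]
            · have h8 : d e ∉ Y := fun h => h7 (h2.2 h)
              simp [h7, h8]
          · simp [h3.1, h3.2]
        · intro h6
          exact absurd h6 h5
    have h2 : (crs s d (Z ∩ Y)).card = 2 := by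
      rw [h1, card_image_of_injective _ hc]
      exact card_two hab _ (fun _ => Iff.rfl)
    have h3 := hC (Z ∩ Y) (card_pos.1 (by omega))
    omega
  -- the sets which contain `u`
  have key2 : ∀ Z : Finset V, u ∈ Z → (crs (rs s Y gs) (rs d Y gd) Z).card ≠ 1 := by
    intro Z huZ hone
    obtain ⟨e0, he0⟩ := card_eq_one.1 hone
    by_cases h1 : v ∈ Z <;> by_cases h2 : w ∈ Z
    · -- all three
      rw [rm_same True] at hone
      · exact br_ne h.minC _ hone
      · intro e he
        rw [iff_true, hgs]
        beta_reduce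
        split_ifs
        · exact huZ
        · exact h1
        · rcases hgv e with h3 | h3 | h3 <;> rw [h3] <;> assumption
      · intro e he
        rw [iff_true, hgd]
        beta_reduce
        split_ifs
        · exact h1
        · exact h2
        · rcases hgv e with h3 | h3 | h3 <;> rw [h3] <;> assumption
    · -- only `w` is on the other side
      have hvw' : v ≠ w := fun h => h2 (h ▸ h1)
      have h3 : f2 ∈ crs (rs s Y gs) (rs d Y gd) Z := (hf2c Z).2 fun h => h2 (h.1 h1)
      have h4 : e0 = f2 := by
        rw [he0, mem_singleton] at h3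
        exact h3.symm
      refine key Zᶜ f2 (Or.inr rfl) (by rw [crs_compl, he0, h4]) k l hkl fun a => ?_
      rw [← hgw hvw' a, mem_compl]
      constructor
      · intro h5
        rcases hgv (c a) with h6 | h6 | h6
        · exact absurd (h6 ▸ huZ) h5
        · exact absurd (h6 ▸ h1) h5
        · exact h6
      · intro h5
        rw [h5]
        exact h2
    · -- only `v` is on the other side
      have h3 : f1 ∈ crs (rs s Y gs) (rs d Y gd) Z := (hf1c Z).2 fun h => h1 (h.1 huZ)
      have h4 : f2 ∈ crs (rs s Y gs) (rs d Y gd) Z := (hf2c Z).2 fun h => h1 (h.2 h2)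
      rw [he0, mem_singleton] at h3 h4
      exact hf12 (h3.trans h4.symm)
    · -- only `u`
      have h3 : f1 ∈ crs (rs s Y gs) (rs d Y gd) Z := (hf1c Z).2 fun h => h1 (h.1 huZ)
      have h4 : e0 = f1 := by
        rw [he0, mem_singleton] at h3
        exact h3.symm
      refine key Z f1 (Or.inl rfl) (by rw [he0, h4]) i j hij fun a => ?_
      rw [← hgu a]
      constructor
      · intro h5
        rcases hgv (c a) with h6 | h6 | h6
        · exact h6
        · exact absurd (h6 ▸ h5) h1
        · exact absurd (h6 ▸ h5) h2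
      · intro h5
        rw [h5]
        exact huZ
  have hbr : Br (rs s Y gs) (rs d Y gd) ∅ ∅ := by
    intro Z _
    rw [sdiff_empty]
    by_cases h1 : u ∈ Z
    · exact key2 Z h1
    · rw [← crs_compl]
      exact key2 Zᶜ (mem_compl.2 h1)
  -- the class
  obtain ⟨X1, X2, Y1, hX1, hX2, hn1, hb⟩ : ∃ X1 X2 Y1 : ZMod 2, x (c i) + x (c j) + X1 = 0 ∧
      x (c k) + x (c l) + X2 = 0 ∧ (X1 ≠ 0 ∨ Y1 ≠ 0) ∧
      ((Y ∩ odd s d y).card ≤ 1 ∨ ((Y ∩ odd s d y).card ≤ 3 ∧ y (c i) + y (c j) + Y1 = 0)) := by
    refine ⟨x (c i) + x (c j), x (c k) + x (c l),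
      if x (c i) = x (c j) then 1 else y (c i) + y (c j), z2_self _, z2_self _, ?_, ?_⟩
    · by_cases h1 : x (c i) = x (c j)
      · right
        rw [if_pos h1]
        exact one_ne_zero
      · left
        intro h2
        exact h1 (z2_eq h2)
    · rcases hy with hy | ⟨hy, hne⟩
      · exact Or.inl hy
      · right
        refine ⟨hy, ?_⟩
        rw [if_neg hne]
        exact z2_self _
  set x' : E → ZMod 2 := fun e => if e = f1 then X1 else if e = f2 then X2 else x e with hx'
  set y' : E → ZMod 2 := fun e => if e = f1 then Y1 else if e = f2 then 1 else y e with hy'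
  have xc : ∀ a, x' (c a) = x (c a) := fun a => by
    rw [hx']
    beta_reduce
    rw [if_neg (hcf1 a), if_neg (hcf2 a)]
  have yc : ∀ a, y' (c a) = y (c a) := fun a => by
    rw [hy']
    beta_reduce
    rw [if_neg (hcf1 a), if_neg (hcf2 a)]
  have loc : ∀ (z z' : E → ZMod 2), (∀ e, e ≠ f1 → e ≠ f2 → z' e = z e) → ∀ p ∈ Y,
      b2 (rs s Y gs) (rs d Y gd) z' p = b2 s d z p := by
    intro z z' hz p hp
    rw [rm_b2 hgsY hgdY z' hp]
    refine b2_congr fun e _ he => hz e ?_ ?_
    · rintro rfl
      rcases he with he | he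
      · exact hf1'.2.1 (he ▸ hp)
      · exact hf1'.2.2 (he ▸ hp)
    · rintro rfl
      rcases he with he | he
      · exact hf2'.2.1 (he ▸ hp)
      · exact hf2'.2.2 (he ▸ hp)
  have at_ : ∀ (z : E → ZMod 2) (p : V), p ∉ Y → b2 (rs s Y gs) (rs d Y gd) z p =
      (∑ a, if g (c a) = p then z (c a) else 0) + (((if u = p then z f1 else 0) +
        (if v = p then z f1 else 0)) + ((if v = p then z f2 else 0) +
        (if w = p then z f2 else 0))) := by
    intro z p hp
    rw [rm_at2 hc hr hgg z hp]
    congr 1
    · refine sum_congr rfl fun a _ => ?_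
      rw [hgsc]
    · rw [sum_pair' hf1i hf2i hf12, e1, e2, e3, e4]
      intro e he h1 h2
      rw [(hgo e he h1 h2).1, (hgo e he h1 h2).2]
      exact z2_self _
  have x'1 : x' f1 = X1 := by rw [hx']; simp
  have x'2 : x' f2 = X2 := by rw [hx']; simp [hf12.symm]
  have y'1 : y' f1 = Y1 := by rw [hy']; simp
  have y'2 : y' f2 = 1 := by rw [hy']; simp [hf12.symm]
  have hcl' : Cl4 (rs s Y gs) (rs d Y gd) := by
    refine ⟨x', y', fun e he => ?_, fun p => b2_last (w := v) (fun p hp => ?_) p, ?_⟩
    · by_cases h1 : e = f1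
      · rw [h1, x'1, y'1]
        exact hn1
      · by_cases h2 : e = f2
        · right
          rw [h2, y'2]
          exact one_ne_zero
        · have h3 : x' e = x e := by
            rw [hx']
            beta_reduce
            rw [if_neg h1, if_neg h2]
          have h4 : y' e = y e := by
            rw [hy']
            beta_reduce
            rw [if_neg h1, if_neg h2]
          rw [h3, h4]
          have h5 : s e ∈ Y ∨ d e ∈ Y := by
            by_contra hcon
            rw [not_or] at hcon
            apply he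
            unfold rs
            rw [if_neg hcon.1, if_neg hcon.2]
            have h6 := hgo e (by rw [mem_inn', mem_compl, mem_compl]; exact hcon) h1 h2
            rw [h6.1, h6.2]
          refine hxy e (fun h6 => he ?_) h5
          have h7 : s e ∈ Y ∧ d e ∈ Y := by
            rw [h6] at h5 ⊢
            exact ⟨h5.elim id id, h5.elim id id⟩
          unfold rs
          rw [if_pos h7.1, if_pos h7.2, h6]
    · by_cases hpY : p ∈ Y
      · rw [loc x x' (fun e h1 h2 => by rw [hx']; beta_reduce; rw [if_neg h1, if_neg h2]) p hpY]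
        exact hx p hpY
      · rw [at_ x' p hpY]
        by_cases hpu : p = u
        · rw [hpu, sum_two hij (fun a => x' (c a)) (fun a => g (c a) = u) hgu, xc, xc, x'1,
            if_pos rfl, if_neg huv.symm, if_neg huv.symm, if_neg huw.symm, add_zero, add_zero,
            add_zero]
          exact hX1
        · by_cases hpw : p = w
          · have hvw' : v ≠ w := fun h => hp (hpw.trans h.symm)
            rw [hpw, sum_two hkl (fun a => x' (c a)) (fun a => g (c a) = w) (hgw hvw'), xc, xc,
              x'2, if_neg huw, if_neg hvw', if_neg hvw', if_pos rfl, add_zero, zero_add, zero_add]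
            exact hX2
          · rw [sum_eq_zero, if_neg (Ne.symm hpu), if_neg (Ne.symm hp), if_neg (Ne.symm hp),
              if_neg (Ne.symm hpw)]
            · simp
            · intro a _
              refine if_neg fun h1 => ?_
              rcases hgv (c a) with h2 | h2 | h2
              · exact hpu (h1.symm.trans h2)
              · exact hp (h1.symm.trans h2)
              · exact hpw (h1.symm.trans h2)
    · refine even_le (even_odd _ _ _) ?_
      have h0 : ∀ p ∈ odd (rs s Y gs) (rs d Y gd) y', p ∈ (Y ∩ odd s d y) ∨ p = u ∨ p = v ∨ p = w := by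
        intro p hp
        rw [mem_odd] at hp
        by_cases hpY : p ∈ Y
        · rw [loc y y' (fun e h1 h2 => by rw [hy']; beta_reduce; rw [if_neg h1, if_neg h2]) p
            hpY] at hp
          exact Or.inl (mem_inter.2 ⟨hpY, mem_odd.2 hp⟩)
        · right
          by_contra hcon
          rw [not_or, not_or] at hcon
          apply hp
          rw [at_ y' p hpY, sum_eq_zero, if_neg (Ne.symm hcon.1), if_neg (Ne.symm hcon.2.1),
            if_neg (Ne.symm hcon.2.1), if_neg (Ne.symm hcon.2.2)]
          · simp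
          · intro a _
            refine if_neg fun h1 => ?_
            rcases hgv (c a) with h2 | h2 | h2
            · exact hcon.1 (h1.symm.trans h2)
            · exact hcon.2.1 (h1.symm.trans h2)
            · exact hcon.2.2 (h1.symm.trans h2)
      rcases hb with hb | ⟨hb, hb'⟩
      · have h1 : odd (rs s Y gs) (rs d Y gd) y' ⊆ (Y ∩ odd s d y) ∪ {u, v, w} := by
          intro p hp
          rw [mem_union, mem_insert, mem_insert, mem_singleton]
          exact h0 p hp
        have h2 := (card_le_card h1).trans (card_union_le _ _)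
        have h3 : ({u, v, w} : Finset V).card ≤ 3 := card_le_three
        omega
      · have h4 : u ∉ odd (rs s Y gs) (rs d Y gd) y' := by
          rw [mem_odd, not_not, at_ y' u huY,
            sum_two hij (fun a => y' (c a)) (fun a => g (c a) = u) hgu, yc, yc, y'1,
            if_pos rfl, if_neg huv.symm, if_neg huv.symm, if_neg huw.symm, add_zero, add_zero,
            add_zero]
          exact hb'
        have h1 : odd (rs s Y gs) (rs d Y gd) y' ⊆ (Y ∩ odd s d y) ∪ {v, w} := by
          intro p hp
          rw [mem_union, mem_insert, mem_singleton]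
          rcases h0 p hp with h5 | h5 | h5 | h5
          · exact Or.inl h5
          · exact absurd (h5 ▸ hp) h4
          · exact Or.inr (Or.inl h5)
          · exact Or.inr (Or.inr h5)
        have h2 := (card_le_card h1).trans (card_union_le _ _)
        have h3 : ({v, w} : Finset V).card ≤ 2 := card_le_two
        omega
  obtain ⟨f, hq1, _, hq2⟩ := h.mn _ _ hcl' hbr hlt
  have hqn : ∀ e, f e ≠ 0 := fun e => hq2 e (notMem_empty _) (notMem_empty _)
  have hext := rm_ext (c := c) hgsY hgdY hq1 hqn
  have atf : ∀ (p : V), p ∉ Y → bd (rs s Y gs) (rs d Y gd) f p =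
      - (∑ a, if g (c a) = p then sg s Y (c a) (f (c a)) else 0) + (((if u = p then f f1 else 0) -
        (if v = p then f f1 else 0)) + ((if v = p then f f2 else 0) -
        (if w = p then f f2 else 0))) := by
    intro p hp
    rw [rm_at hc hr hgg f hp]
    congr 1
    · congr 1
      refine sum_congr rfl fun a _ => ?_
      rw [hgsc]
    · rw [sum_pair' hf1i hf2i hf12, e1, e2, e3, e4]
      intro e he h1 h2
      rw [(hgo e he h1 h2).1, (hgo e he h1 h2).2]
      exact sub_self _
  have hij0 : sg s Y (c i) (f (c i)) + sg s Y (c j) (f (c j)) ≠ 0 := by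
    intro h1
    have h2 := hq1 u
    rw [atf u huY, sum_two hij (fun a => sg s Y (c a) (f (c a))) (fun a => g (c a) = u) hgu, h1,
      if_pos rfl, if_neg huv.symm, if_neg huv.symm, if_neg huw.symm] at h2
    apply hqn f1
    simpa using h2
  refine ⟨_, hij0, ?_, hext⟩
  rcases hvw with ⟨hn4, hvw'⟩ | ⟨hn5, hvw'⟩
  · intro h1
    have h2 := (hext.nz hc hr).2
    apply hij0
    subst hn4
    rw [← h2]
    have hall : (univ : Finset (Fin 4)) = {i, j, k, l} := by
      symm
      rw [← card_eq_iff_eq_univ, card_insert_of_notMem, card_insert_of_notMem,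
        card_insert_of_notMem, card_singleton]
      · rfl
      all_goals simp [hij, hkl, hik, hil, hjk, hjl]
    rw [hall, sum_insert, sum_insert, sum_insert, sum_singleton, h1, add_zero]
    all_goals simp [hij, hkl, hik, hil, hjk, hjl]
  · intro h1
    have h2 := hq1 w
    rw [atf w hwY, sum_two hkl (fun a => sg s Y (c a) (f (c a))) (fun a => g (c a) = w)
      (hgw hvw'), h1, if_neg huw, if_neg hvw', if_neg hvw', if_pos rfl] at h2
    apply hqn f2
    simpa using h2

end Pool.Agent.U659.OF
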