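import Pool.Agent.U659.OF.Str

/-!
# Disjoint supports of the numbers of flows on the two sides of a cut
-/

set_option autoImplicit false
set_option linter.unusedSectionVars false

namespace Pool.Agent.U659.OF

open Finset Pool.Agent.TH676.Z

/-- all indices -/
def All5 (i j k l m : Fin 5) : Prop :=
  i ≠ j ∧ i ≠ k ∧ i ≠ l ∧ i ≠ m ∧ j ≠ k ∧ j ≠ l ∧ j ≠ m ∧ k ≠ l ∧ k ≠ m ∧ l ≠ m

theorem sum5 {M : Type} [AddCommMonoid M] {i j k l m : Fin 5} (h : All5 i j k l m) (f : Fin 5 → M) :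
    ∑ x, f x = f i + (f j + (f k + (f l + f m))) := by
  obtain ⟨h1, h2, h3, h4, h5, h6, h7, h8, h9, h10⟩ := h
  have hu : (univ : Finset (Fin 5)) = {i, j, k, l, m} := by
    symm
    rw [← card_eq_iff_eq_univ]
    rw [card_insert_of_notMem, card_insert_of_notMem, card_insert_of_notMem, card_insert_of_notMem,
      card_singleton]
    · rfl
    all_goals simp [*]
  rw [hu, sum_insert, sum_insert, sum_insert, sum_insert, sum_singleton]
  all_goals simp [*]

/-- the value of a parameter function with given entries -/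
theorem vl5 {i j k l m : Fin 5} (h : All5 i j k l m) (a : ℤ) (b : Fin 5 → Fin 5 → ℤ)
    (t : Fin 5 → ZMod 5) (ht : ∀ x, t x ≠ 0) :
    vl a b t = a + ((if t i + t j = 0 then b i j + b j i else 0) +
      (if t i + t k = 0 then b i k + b k i else 0) + (if t i + t l = 0 then b i l + b l i else 0) +
      (if t i + t m = 0 then b i m + b m i else 0) + (if t j + t k = 0 then b j k + b k j else 0) +
      (if t j + t l = 0 then b j l + b l j else 0) + (if t j + t m = 0 then b j m + b m j else 0) +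
      (if t k + t l = 0 then b k l + b l k else 0) + (if t k + t m = 0 then b k m + b m k else 0) +
      (if t l + t m = 0 then b l m + b m l else 0)) := by
  have hd : ∀ x, ¬ (t x + t x = 0) := by
    intro x
    have := ht x
    generalize t x = c at *
    revert this
    revert c
    decide
  have hc : ∀ (x y : Fin 5) (c : ℤ), (if t y + t x = 0 then c else 0) =
      (if t x + t y = 0 then c else 0) := fun x y c => by rw [add_comm]
  have hs : ∀ (x y : Fin 5) (c c' : ℤ), (if t x + t y = 0 then c + c' else 0) =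
      (if t x + t y = 0 then c else 0) + (if t x + t y = 0 then c' else 0) := fun x y c c' => by
    split_ifs <;> simp
  unfold vl
  rw [sum5 h, sum5 h, sum5 h, sum5 h, sum5 h, sum5 h]
  rw [hc i j (b j i), hc i k (b k i), hc i l (b l i), hc i m (b m i), hc j k (b k j),
    hc j l (b l j), hc j m (b m j), hc k l (b l k), hc k m (b m k), hc l m (b m l)]
  rw [if_neg (hd i), if_neg (hd j), if_neg (hd k), if_neg (hd l), if_neg (hd m)]
  rw [hs i j, hs i k, hs i l, hs i m, hs j k, hs j l, hs j m, hs k l, hs k m, hs l m]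
  ring

/-- entries `i ↦ 1`, `j, k ↦ -1`, `l, m ↦ 3` -/
def tP (i j k : Fin 5) : Fin 5 → ZMod 5 := fun x => if x = i then 1 else
  if x = j ∨ x = k then 4 else 3

/-- entries `i ↦ 1`, `m ↦ 2`, others `-1` -/
def tS (i m : Fin 5) : Fin 5 → ZMod 5 := fun x => if x = i then 1 else if x = m then 2 else 4

theorem nz_P {i j k l m : Fin 5} (h : All5 i j k l m) : Nz (tP i j k) := by
  constructor
  · intro x
    unfold tP
    split_ifs <;> decide
  · rw [sum5 h]
    obtain ⟨h1, h2, h3, h4, h5, h6, h7, h8, h9, h10⟩ := h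
    simp only [tP, if_true, h1.symm, h2.symm, h3.symm, h4.symm, h6.symm, h7.symm, h8.symm,
      h9.symm, if_false, true_or, or_true, or_self]
    decide

theorem nz_S {i j k l m : Fin 5} (h : All5 i j k l m) : Nz (tS i m) := by
  constructor
  · intro x
    unfold tS
    split_ifs <;> decide
  · rw [sum5 h]
    obtain ⟨h1, h2, h3, h4, h5, h6, h7, h8, h9, h10⟩ := h
    simp only [tS, if_true, h1.symm, h2.symm, h3.symm, h4.symm, h7, h9, h10, if_false]
    decide

theorem nz_E : Nz (fun _ : Fin 5 => (1 : ZMod 5)) := by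
  constructor
  · intro _
    exact (by decide : (1 : ZMod 5) ≠ 0)
  · rw [sum_const]
    decide

theorem vl_P {i j k l m : Fin 5} (h : All5 i j k l m) (a : ℤ) (b : Fin 5 → Fin 5 → ℤ) :
    vl a b (tP i j k) = a + (b i j + b j i) + (b i k + b k i) := by
  rw [vl5 h a b _ (nz_P h).1]
  obtain ⟨h1, h2, h3, h4, h5, h6, h7, h8, h9, h10⟩ := h
  have e1 : tP i j k i = 1 := by simp [tP]
  have e2 : tP i j k j = 4 := by simp [tP, h1.symm]
  have e3 : tP i j k k = 4 := by simp [tP, h2.symm]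
  have e4 : tP i j k l = 3 := by simp [tP, h3.symm, h6.symm, h8.symm]
  have e5 : tP i j k m = 3 := by simp [tP, h4.symm, h7.symm, h9.symm]
  rw [e1, e2, e3, e4, e5]
  rw [if_pos (by decide), if_pos (by decide), if_neg (by decide), if_neg (by decide),
    if_neg (by decide), if_neg (by decide), if_neg (by decide), if_neg (by decide),
    if_neg (by decide), if_neg (by decide)]
  ring

theorem vl_S {i j k l m : Fin 5} (h : All5 i j k l m) (a : ℤ) (b : Fin 5 → Fin 5 → ℤ) :
    vl a b (tS i m) = a + (b i j + b j i) + (b i k + b k i) + (b i l + b l i) := by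
  rw [vl5 h a b _ (nz_S h).1]
  obtain ⟨h1, h2, h3, h4, h5, h6, h7, h8, h9, h10⟩ := h
  have e1 : tS i m i = 1 := by simp [tS]
  have e2 : tS i m j = 4 := by simp [tS, h1.symm, h7]
  have e3 : tS i m k = 4 := by simp [tS, h2.symm, h9]
  have e4 : tS i m l = 4 := by simp [tS, h3.symm, h10]
  have e5 : tS i m m = 2 := by simp [tS, h4.symm]
  rw [e1, e2, e3, e4, e5]
  rw [if_pos (by decide), if_pos (by decide), if_pos (by decide), if_neg (by decide),
    if_neg (by decide), if_neg (by decide), if_neg (by decide), if_neg (by decide),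
    if_neg (by decide), if_neg (by decide)]
  ring

theorem vl_E (a : ℤ) (b : Fin 5 → Fin 5 → ℤ) : vl a b (fun _ => (1 : ZMod 5)) = a := by
  unfold vl
  rw [sum_eq_zero, add_zero]
  intro x _
  refine sum_eq_zero fun y _ => if_neg ?_
  change ¬ ((1 : ZMod 5) + 1 = 0)
  decide

theorem ex_all {i j : Fin 5} (h : i ≠ j) : ∃ k l m, All5 i j k l m := by
  revert i j
  unfold All5
  decide

theorem All5.perm {i j k l m : Fin 5} (h : All5 i j k l m) :
    All5 i j l k m ∧ All5 i j k m l ∧ All5 i k j l m ∧ All5 j i k l m ∧ All5 k i j l m ∧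
    All5 i l k j m ∧ All5 i k l j m := by
  obtain ⟨h1, h2, h3, h4, h5, h6, h7, h8, h9, h10⟩ := h
  simp only [All5]
  refine ⟨?_, ?_, ?_, ?_, ?_, ?_, ?_⟩ <;> (refine ⟨?_, ?_, ?_, ?_, ?_, ?_, ?_, ?_, ?_, ?_⟩ <;>
    first | assumption | (apply Ne.symm; assumption))

/-- the conclusion -/
def Cnc (N N' : (Fin 5 → ZMod 5) → ℤ) : Prop := ∃ i j k l m, All5 i j k l m ∧
  (∀ t, Nz t → t i + t j = 0 → N t = 0) ∧
  (∀ t, Nz t → t i + t j ≠ 0 → t k + t l ≠ 0 → N' t = 0)

theorem K5' {N N' : (Fin 5 → ZMod 5) → ℤ} {a a' : ℤ} {b b' : Fin 5 → Fin 5 → ℤ}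
    (hN : ∀ t, Nz t → N t = vl a b t) (hN' : ∀ t, Nz t → N' t = vl a' b' t)
    (h0 : ∀ t, Nz t → 0 ≤ N t) (h0' : ∀ t, Nz t → 0 ≤ N' t)
    (hz : ∀ t, Nz t → N t = 0 ∨ N' t = 0) (hn : ∃ t, Nz t ∧ N t ≠ 0) (hn' : ∃ t, Nz t ∧ N' t ≠ 0)
    (ha : a' = 0) : Cnc N N' ∨ Cnc N' N := by
  have hP : ∀ {i j k l m : Fin 5}, All5 i j k l m →
      0 ≤ a + (b i j + b j i) + (b i k + b k i) ∧ 0 ≤ (b' i j + b' j i) + (b' i k + b' k i) ∧
      (a + (b i j + b j i) + (b i k + b k i) = 0 ∨ (b' i j + b' j i) + (b' i k + b' k i) = 0) := by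
    intro i j k l m h
    have h1 := h0 _ (nz_P h)
    have h2 := h0' _ (nz_P h)
    have h3 := hz _ (nz_P h)
    rw [hN _ (nz_P h), vl_P h] at h1 h3
    rw [hN' _ (nz_P h), vl_P h, ha] at h2 h3
    omega
  have hS : ∀ {i j k l m : Fin 5}, All5 i j k l m →
      0 ≤ a + (b i j + b j i) + (b i k + b k i) + (b i l + b l i) ∧
      0 ≤ (b' i j + b' j i) + (b' i k + b' k i) + (b' i l + b' l i) ∧
      (a + (b i j + b j i) + (b i k + b k i) + (b i l + b l i) = 0 ∨
        (b' i j + b' j i) + (b' i k + b' k i) + (b' i l + b' l i) = 0) := by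
    intro i j k l m h
    have h1 := h0 _ (nz_S h)
    have h2 := h0' _ (nz_S h)
    have h3 := hz _ (nz_S h)
    rw [hN _ (nz_S h), vl_S h] at h1 h3
    rw [hN' _ (nz_S h), vl_S h, ha] at h2 h3
    omega
  -- relabellings
  have A : ∀ {i j k l m : Fin 5}, All5 i j k l m → ∀ i' j' k' l' m', All5 i' j' k' l' m' →
      All5 i' j' k' l' m' := fun _ _ _ _ _ _ h => h
  -- the entries are not negative
  have c1 : ∀ i j : Fin 5, i ≠ j → 0 ≤ b' i j + b' j i := by
    intro i j hij
    by_contra hlt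
    push Not at hlt
    obtain ⟨k, l, m, h⟩ := ex_all hij
    obtain ⟨t, ht, hne⟩ := hn
    apply hne
    rw [hN t ht, vl5 h a b t ht.1]
    obtain ⟨q1, q2, q3, q4, q5, q6, q7, q8, q9, q10⟩ := h
    have p1 := @hP i j k l m ⟨q1, q2, q3, q4, q5, q6, q7, q8, q9, q10⟩
    have p2 := @hP i j l k m ⟨q1, q3, q2, q4, q6, q5, q7, q8.symm, q10, q9⟩
    have p3 := @hP i j m k l ⟨q1, q4, q2, q3, q7, q5, q6, q9.symm, q10.symm, q8⟩
    have p4 := @hP i k l j m ⟨q2, q3, q1, q4, q8, q5.symm, q9, q6.symm, q10, q7⟩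
    have p5 := @hP i k m j l ⟨q2, q4, q1, q3, q9, q5.symm, q8, q7.symm, q10.symm, q6⟩
    have p6 := @hP i l m j k ⟨q3, q4, q1, q2, q10, q6.symm, q8.symm, q7.symm, q9.symm, q5⟩
    have s1 := @hS i k l m j ⟨q2, q3, q4, q1, q8, q9, q5.symm, q10, q6.symm, q7.symm⟩
    have s2 := @hS i j k l m ⟨q1, q2, q3, q4, q5, q6, q7, q8, q9, q10⟩
    have r1 := @hP j i k l m ⟨q1.symm, q5, q6, q7, q2, q3, q4, q8, q9, q10⟩
    have r2 := @hP j i l k m ⟨q1.symm, q6, q5, q7, q3, q2, q4, q8.symm, q10, q9⟩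
    have r3 := @hP j i m k l ⟨q1.symm, q7, q5, q6, q4, q2, q3, q9.symm, q10.symm, q8⟩
    have r4 := @hP j k l i m ⟨q5, q6, q1.symm, q7, q8, q2.symm, q9, q3.symm, q10, q4⟩
    have r5 := @hP j k m i l ⟨q5, q7, q1.symm, q6, q9, q2.symm, q8, q4.symm, q10.symm, q3⟩
    have r6 := @hP j l m i k ⟨q6, q7, q1.symm, q5, q10, q3.symm, q8.symm, q4.symm, q9.symm, q2⟩
    have s3 := @hS j k l m i ⟨q5, q6, q7, q1.symm, q8, q9, q2.symm, q10, q3.symm, q4.symm⟩
    -- `k`, `l`
    have u1 := @hP k i l j m ⟨q2.symm, q8, q5.symm, q9, q3, q1, q4, q6.symm, q10, q7⟩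
    have u2 := @hS k i j l m ⟨q2.symm, q5.symm, q8, q9, q1, q3, q4, q6, q7, q10⟩
    have u3 := @hP k i m j l ⟨q2.symm, q9, q5.symm, q8, q4, q1, q3, q7.symm, q10.symm, q6⟩
    have u4 := @hS k i j m l ⟨q2.symm, q5.symm, q9, q8, q1, q4, q3, q7, q6, q10.symm⟩
    have u5 := @hP l i m j k ⟨q3.symm, q10, q6.symm, q8.symm, q4, q1, q2, q7.symm, q9.symm, q5⟩
    have u6 := @hS l i j m k ⟨q3.symm, q6.symm, q10, q8.symm, q1, q4, q2, q7, q5, q9.symm⟩
    have z1 : b i k + b k i = 0 := by omega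
    have z2 : b i l + b l i = 0 := by omega
    have z3 : b i m + b m i = 0 := by omega
    have z0 : a = 0 := by omega
    have z4 : b i j + b j i = 0 := by omega
    have z5 : b j k + b k j = 0 := by omega
    have z6 : b j l + b l j = 0 := by omega
    have z7 : b j m + b m j = 0 := by omega
    have z8 : b k l + b l k = 0 := by omega
    have z9 : b k m + b m k = 0 := by omega
    have z10 : b l m + b m l = 0 := by omega
    rw [z1, z2, z3, z4, z5, z6, z7, z8, z9, z10, z0]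
    simp
  -- lower bound
  have c2 : ∀ {i j k l m : Fin 5}, All5 i j k l m → ∀ t, Nz t → t i + t j = 0 →
      0 < b' i j + b' j i → N t = 0 := by
    intro i j k l m h t ht h1 h2
    refine (hz t ht).resolve_right ?_
    rw [hN' t ht, vl5 h a' b' t ht.1, ha, if_pos h1]
    obtain ⟨q1, q2, q3, q4, q5, q6, q7, q8, q9, q10⟩ := h
    have g : ∀ (x y : Fin 5), x ≠ y → 0 ≤ (if t x + t y = 0 then b' x y + b' y x else 0) := by
      intro x y hxy
      split_ifs
      · exact c1 x y hxy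
      · exact le_rfl
    have g2 := g i k q2
    have g3 := g i l q3
    have g4 := g i m q4
    have g5 := g j k q5
    have g6 := g j l q6
    have g7 := g j m q7
    have g8 := g k l q8
    have g9 := g k m q9
    have g10 := g l m q10
    intro h3
    linarith
  by_cases hA : ∃ i j k l m, All5 i j k l m ∧ 0 < b' i j + b' j i ∧ 0 < b' i k + b' k i
  · right
    obtain ⟨i, j, k, l, m, h, h1, h2⟩ := hA
    have hall := h
    obtain ⟨q1, q2, q3, q4, q5, q6, q7, q8, q9, q10⟩ := h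
    have p1 := @hP i j k l m ⟨q1, q2, q3, q4, q5, q6, q7, q8, q9, q10⟩
    have p2 := @hP i j l k m ⟨q1, q3, q2, q4, q6, q5, q7, q8.symm, q10, q9⟩
    have p3 := @hP i j m k l ⟨q1, q4, q2, q3, q7, q5, q6, q9.symm, q10.symm, q8⟩
    have p4 := @hP i k l j m ⟨q2, q3, q1, q4, q8, q5.symm, q9, q6.symm, q10, q7⟩
    have p5 := @hP i k m j l ⟨q2, q4, q1, q3, q9, q5.symm, q8, q7.symm, q10.symm, q6⟩
    have s2 := @hS i j k l m ⟨q1, q2, q3, q4, q5, q6, q7, q8, q9, q10⟩
    have s4 := @hS i j k m l ⟨q1, q2, q4, q3, q5, q7, q6, q9, q8, q10.symm⟩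
    have r1 := @hP j i k l m ⟨q1.symm, q5, q6, q7, q2, q3, q4, q8, q9, q10⟩
    have r2 := @hP j i l k m ⟨q1.symm, q6, q5, q7, q3, q2, q4, q8.symm, q10, q9⟩
    have r3 := @hP j i m k l ⟨q1.symm, q7, q5, q6, q4, q2, q3, q9.symm, q10.symm, q8⟩
    have u1 := @hP k i l j m ⟨q2.symm, q8, q5.symm, q9, q3, q1, q4, q6.symm, q10, q7⟩
    have u3 := @hP k i m j l ⟨q2.symm, q9, q5.symm, q8, q4, q1, q3, q7.symm, q10.symm, q6⟩
    have u7 := @hP l i m j k ⟨q3.symm, q10, q6.symm, q8.symm, q4, q1, q2, q7.symm, q9.symm, q5⟩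
    have e1 := c1 i l q3
    have e2 := c1 i m q4
    have e3 := c1 j k q5
    have e4 := c1 j l q6
    have e5 := c1 j m q7
    have e6 := c1 k l q8
    have e7 := c1 k m q9
    have z2 : b i l + b l i = 0 := by omega
    have z3 : b i m + b m i = 0 := by omega
    have z1 : b i k + b k i = 0 := by omega
    have z4 : b i j + b j i = 0 := by omega
    have z0 : a = 0 := by omega
    have z5 : b j k + b k j = 0 := by omega
    have z6 : b j l + b l j = 0 := by omega
    have z7 : b j m + b m j = 0 := by omega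
    have z8 : b k l + b l k = 0 := by omega
    have z9 : b k m + b m k = 0 := by omega
    have hval : ∀ t, Nz t → N t = if t l + t m = 0 then b l m + b m l else 0 := by
      intro t ht
      rw [hN t ht, vl5 hall a b t ht.1, z1, z2, z3, z4, z5, z6, z7, z8, z9, z0]
      simp
    have hpos : 0 < b l m + b m l := by
      obtain ⟨t, ht, hne⟩ := hn
      rw [hval t ht] at hne
      have h5 : b l m + b m l ≠ 0 := by
        intro h5
        apply hne
        rw [h5, ite_self]
      omega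
    refine ⟨l, m, i, j, k, ⟨q10, q3.symm, q6.symm, q8.symm, q4.symm, q7.symm, q9.symm, q1, q2, q5⟩,
      ?_, ?_⟩
    · intro t ht h5
      refine (hz t ht).resolve_left ?_
      rw [hval t ht, if_pos h5]
      omega
    · intro t ht h5 _
      rw [hval t ht, if_neg h5]
  · left
    push Not at hA
    -- a positive entry
    obtain ⟨i, j, hij, hpos⟩ : ∃ i j, i ≠ j ∧ 0 < b' i j + b' j i := by
      by_contra hcon
      push Not at hcon
      obtain ⟨t, ht, hne⟩ := hn'
      apply hne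
      have hall : All5 0 1 2 3 4 := by unfold All5; decide
      rw [hN' t ht, vl5 hall a' b' t ht.1, ha]
      have g : ∀ (x y : Fin 5), x ≠ y → b' x y + b' y x = 0 := fun x y hxy =>
        le_antisymm (hcon x y hxy) (c1 x y hxy)
      rw [g 0 1 (by decide), g 0 2 (by decide), g 0 3 (by decide), g 0 4 (by decide),
        g 1 2 (by decide), g 1 3 (by decide), g 1 4 (by decide), g 2 3 (by decide),
        g 2 4 (by decide), g 3 4 (by decide)]
      simp
    obtain ⟨k, l, m, h⟩ := ex_all hij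
    have fin : ∀ {k l m : Fin 5}, All5 i j k l m → b' k m + b' m k = 0 → b' l m + b' m l = 0 →
        Cnc N N' := by
      intro k l m h g9 g10
      refine ⟨i, j, k, l, m, h, fun t ht h5 => c2 h t ht h5 hpos, fun t ht h5 h6 => ?_⟩
      have hall := h
      obtain ⟨q1, q2, q3, q4, q5, q6, q7, q8, q9, q10⟩ := h
      have g2 := hA i j k l m hall hpos
      have g3 := hA i j l k m ⟨q1, q3, q2, q4, q6, q5, q7, q8.symm, q10, q9⟩ hpos
      have g4 := hA i j m k l ⟨q1, q4, q2, q3, q7, q5, q6, q9.symm, q10.symm, q8⟩ hpos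
      have hpos' : 0 < b' j i + b' i j := by omega
      have g5 := hA j i k l m ⟨q1.symm, q5, q6, q7, q2, q3, q4, q8, q9, q10⟩ hpos'
      have g6 := hA j i l k m ⟨q1.symm, q6, q5, q7, q3, q2, q4, q8.symm, q10, q9⟩ hpos'
      have g7 := hA j i m k l ⟨q1.symm, q7, q5, q6, q4, q2, q3, q9.symm, q10.symm, q8⟩ hpos'
      have e2 := c1 i k q2
      have e3 := c1 i l q3
      have e4 := c1 i m q4
      have e5 := c1 j k q5
      have e6 := c1 j l q6
      have e7 := c1 j m q7
      have z2 : b' i k + b' k i = 0 := by omega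
      have z3 : b' i l + b' l i = 0 := by omega
      have z4 : b' i m + b' m i = 0 := by omega
      have z5 : b' j k + b' k j = 0 := by omega
      have z6 : b' j l + b' l j = 0 := by omega
      have z7 : b' j m + b' m j = 0 := by omega
      rw [hN' t ht, vl5 hall a' b' t ht.1, ha, if_neg h5, if_neg h6, z2, z3, z4, z5, z6, z7, g9, g10]
      simp
    have hall := h
    obtain ⟨q1, q2, q3, q4, q5, q6, q7, q8, q9, q10⟩ := h
    have e8 := c1 k l q8
    have e9 := c1 k m q9
    have e10 := c1 l m q10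
    have w1 := hA k l m i j ⟨q8, q9, q2.symm, q5.symm, q10, q3.symm, q6.symm, q4.symm, q7.symm, q1⟩
    have w2 := hA l k m i j ⟨q8.symm, q10, q3.symm, q6.symm, q9, q2.symm, q5.symm, q4.symm, q7.symm, q1⟩
    have w3 := hA m k l i j ⟨q9.symm, q10.symm, q4.symm, q7.symm, q8, q2.symm, q5.symm, q3.symm,
      q6.symm, q1⟩
    by_cases f1 : 0 < b' k l + b' l k
    · have w1' := w1 f1
      have w2' := w2 (by omega)
      exact fin hall (by omega) (by omega)
    · by_cases f2 : 0 < b' k m + b' m k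
      · have w3' := w3 (by omega)
        exact @fin k m l ⟨q1, q2, q4, q3, q5, q7, q6, q9, q8, q10.symm⟩ (by omega) (by omega)
      · exact @fin l m k ⟨q1, q3, q4, q2, q6, q7, q5, q10, q8.symm, q9.symm⟩ (by omega) (by omega)

/-- **Five edges.** -/
theorem K5 {N N' : (Fin 5 → ZMod 5) → ℤ} (hN : Gd N) (hN' : Gd N')
    (h0 : ∀ t, Nz t → 0 ≤ N t) (h0' : ∀ t, Nz t → 0 ≤ N' t)
    (hz : ∀ t, Nz t → N t = 0 ∨ N' t = 0) (hn : ∃ t, Nz t ∧ N t ≠ 0)
    (hn' : ∃ t, Nz t ∧ N' t ≠ 0) : Cnc N N' ∨ Cnc N' N := by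
  obtain ⟨a, b, hN⟩ := hN
  obtain ⟨a', b', hN'⟩ := hN'
  have h1 := hz _ nz_E
  rw [hN _ nz_E, hN' _ nz_E, vl_E, vl_E] at h1
  rcases h1 with h1 | h1
  · exact (K5' hN' hN h0' h0 (fun t ht => (hz t ht).symm) hn' hn h1).symm
  · exact K5' hN hN' h0 h0' hz hn hn' h1

end Pool.Agent.U659.OF
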