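import Mathlib
import Pool.Agent.TH676.Z.Lin

/-!
# Boundaries modulo two
-/

set_option autoImplicit false
set_option linter.unusedSectionVars false

namespace Pool.Agent.U659.OF

open Finset Pool.Agent.TH676.Z

variable {V E : Type} [Fintype V] [DecidableEq V] [Fintype E] [DecidableEq E]

theorem z2_self (a : ZMod 2) : a + a = 0 := CharTwo.add_self_eq_zero a

theorem z2_one {a : ZMod 2} (h : a ≠ 0) : a = 1 := by
  revert h; revert a; decide

theorem z2_sum {ι : Type} (S : Finset ι) (f : ι → ZMod 2) :
    ∑ i ∈ S, f i = ((S.filter (fun i => f i ≠ 0)).card : ZMod 2) := by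
  classical
  rw [← sum_filter_ne_zero, card_eq_sum_ones, Nat.cast_sum]
  refine sum_congr rfl fun i hi => ?_
  rw [z2_one (mem_filter.1 hi).2]
  norm_num

theorem z2_cast_zero {n : ℕ} : ((n : ℕ) : ZMod 2) = 0 ↔ Even n := by
  rw [ZMod.natCast_eq_zero_iff_even]

theorem z2_cast_ne {n : ℕ} : ((n : ℕ) : ZMod 2) ≠ 0 ↔ Odd n := by
  rw [Ne, z2_cast_zero, Nat.not_even_iff_odd]

/-- the boundary modulo two -/
def b2 (s d : E → V) (x : E → ZMod 2) (v : V) : ZMod 2 :=
  ∑ e, ((if s e = v then x e else 0) + (if d e = v then x e else 0))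

theorem b2_add (s d : E → V) (x y : E → ZMod 2) (v : V) :
    b2 s d (fun e => x e + y e) v = b2 s d x v + b2 s d y v := by
  unfold b2
  rw [← sum_add_distrib]
  refine sum_congr rfl fun e _ => ?_
  by_cases h1 : s e = v <;> by_cases h2 : d e = v <;> simp [h1, h2] <;> ring

theorem b2_zero (s d : E → V) (v : V) : b2 s d (fun _ => 0) v = 0 := by
  unfold b2
  simp

/-- the boundary depends only on the proper edges at `v` -/
theorem b2_congr {s d : E → V} {x y : E → ZMod 2} {v : V}
    (h : ∀ e, s e ≠ d e → (s e = v ∨ d e = v) → x e = y e) : b2 s d x v = b2 s d y v := by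
  unfold b2
  refine sum_congr rfl fun e _ => ?_
  by_cases hl : s e = d e
  · rw [hl]
    split_ifs
    · rw [z2_self, z2_self]
    · rfl
  · by_cases h1 : s e = v
    · rw [h e hl (Or.inl h1)]
    · by_cases h2 : d e = v
      · rw [h e hl (Or.inr h2)]
      · simp [h1, h2]

theorem b2_loc {s d s' d' : E → V} {x x' : E → ZMod 2} {v : V}
    (h : ∀ e, (if s e = v then x e else 0) + (if d e = v then x e else 0) =
      (if s' e = v then x' e else 0) + (if d' e = v then x' e else 0)) :
    b2 s d x v = b2 s' d' x' v := sum_congr rfl fun e _ => h e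

theorem sum_b2 (s d : E → V) (x : E → ZMod 2) (Z : Finset V) :
    ∑ v ∈ Z, b2 s d x v = ∑ e ∈ crs s d Z, x e := by
  unfold b2
  rw [sum_comm]
  unfold crs
  rw [sum_filter]
  refine sum_congr rfl fun e _ => ?_
  rw [sum_add_distrib, sum_ite_eq, sum_ite_eq]
  by_cases h2 : s e ∈ Z <;> by_cases h3 : d e ∈ Z <;> simp [h2, h3, z2_self]

theorem mem_crs {s d : E → V} {X : Finset V} {e : E} :
    e ∈ crs s d X ↔ ¬ (s e ∈ X ↔ d e ∈ X) := by simp [crs]

theorem crs_univ (s d : E → V) : crs s d univ = ∅ := by
  ext e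
  simp [mem_crs]

theorem crs_compl (s d : E → V) (X : Finset V) : crs s d Xᶜ = crs s d X := by
  ext e
  rw [mem_crs, mem_crs, mem_compl, mem_compl]
  tauto

/-- the set of the vertices with odd degree -/
def odd (s d : E → V) (y : E → ZMod 2) : Finset V := univ.filter (fun v => b2 s d y v ≠ 0)

theorem mem_odd {s d : E → V} {y : E → ZMod 2} {v : V} : v ∈ odd s d y ↔ b2 s d y v ≠ 0 := by
  simp [odd]

theorem cut_par (s d : E → V) (y : E → ZMod 2) (Z : Finset V) :
    (((Z ∩ odd s d y).card : ℕ) : ZMod 2) = (((crs s d Z).filter (fun e => y e ≠ 0)).card : ℕ) := by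
  rw [← z2_sum, ← sum_b2, z2_sum]
  congr 2
  ext v
  rw [mem_inter, mem_odd, mem_filter]

theorem cut_par' (s d : E → V) (y : E → ZMod 2) (Z : Finset V) :
    (Even (Z ∩ odd s d y).card ↔ Even ((crs s d Z).filter (fun e => y e ≠ 0)).card) := by
  rw [← z2_cast_zero, ← z2_cast_zero, cut_par]

theorem even_odd (s d : E → V) (y : E → ZMod 2) : Even (odd s d y).card := by
  have h := cut_par' s d y univ
  rw [univ_inter, crs_univ, filter_empty, card_empty] at h
  exact h.2 (by norm_num)

theorem even_cut {s d : E → V} {x : E → ZMod 2} {Z : Finset V} (h : ∀ v ∈ Z, b2 s d x v = 0) :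
    Even ((crs s d Z).filter (fun e => x e ≠ 0)).card := by
  rw [← cut_par']
  have : Z ∩ odd s d x = ∅ := by
    rw [eq_empty_iff_forall_notMem]
    intro v hv
    rw [mem_inter, mem_odd] at hv
    exact hv.2 (h v hv.1)
  rw [this, card_empty]
  norm_num

/-! ### Components -/

/-- connected by the edges of `x` -/
def rl (s d : E → V) (x : E → ZMod 2) (a b : V) : Prop := ∃ e, x e ≠ 0 ∧ s e = a ∧ d e = b

/-- the representative of the component -/
noncomputable def rp (s d : E → V) (x : E → ZMod 2) (v : V) : V :=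
  (Quotient.mk (Relation.EqvGen.setoid (rl s d x)) v).out

theorem rp_eqv (s d : E → V) (x : E → ZMod 2) (v : V) :
    Relation.EqvGen (rl s d x) v (rp s d x v) :=
  Relation.EqvGen.symm _ _ (Quotient.mk_out (s := Relation.EqvGen.setoid (rl s d x)) v)

theorem rp_edge {s d : E → V} {x : E → ZMod 2} {e : E} (h : x e ≠ 0) :
    rp s d x (s e) = rp s d x (d e) := by
  unfold rp
  rw [Quotient.sound (s := Relation.EqvGen.setoid (rl s d x))
    (Relation.EqvGen.rel (s e) (d e) ⟨e, h, rfl, rfl⟩)]

/-- a chain inside `x` between two equivalent vertices -/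
theorem chain_eqv {s d : E → V} {x : E → ZMod 2} {a b : V} (h : Relation.EqvGen (rl s d x) a b) :
    ∃ z : E → ZMod 2, (∀ e, z e ≠ 0 → x e ≠ 0) ∧
      ∀ v, b2 s d z v = (if v = a then 1 else 0) + (if v = b then 1 else 0) := by
  induction h with
  | rel a b h =>
    obtain ⟨e0, h0, rfl, rfl⟩ := h
    refine ⟨fun e => if e = e0 then 1 else 0, fun e he => ?_, fun v => ?_⟩
    · have : e = e0 := by
        by_contra hne
        exact he (if_neg hne)
      rw [this]
      exact h0
    · unfold b2
      rw [sum_eq_single e0]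
      · simp [eq_comm]
      · intro e _ hne
        simp [hne]
      · intro h
        exact absurd (mem_univ _) h
  | refl a =>
    refine ⟨fun _ => 0, fun e he => absurd rfl he, fun v => ?_⟩
    rw [b2_zero, z2_self]
  | symm a b _ ih =>
    obtain ⟨z, h1, h2⟩ := ih
    exact ⟨z, h1, fun v => by rw [h2, add_comm]⟩
  | trans a b c _ _ ih1 ih2 =>
    obtain ⟨z, h1, h2⟩ := ih1
    obtain ⟨w, h3, h4⟩ := ih2
    refine ⟨fun e => z e + w e, fun e he => ?_, fun v => ?_⟩
    · beta_reduce at he
      by_cases hz : z e = 0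
      · rw [hz, zero_add] at he
        exact h3 e he
      · exact h1 e hz
    · rw [b2_add, h2, h4]
      have := z2_self (if v = b then 1 else 0)
      calc _ = (if v = a then (1 : ZMod 2) else 0) + ((if v = b then 1 else 0) +
          (if v = b then 1 else 0)) + (if v = c then 1 else 0) := by ring
        _ = _ := by rw [this, add_zero]

theorem chain_rp {s d : E → V} {x : E → ZMod 2} {a b : V} (h : rp s d x a = rp s d x b) :
    ∃ z : E → ZMod 2, (∀ e, z e ≠ 0 → x e ≠ 0) ∧
      ∀ v, b2 s d z v = (if v = a then 1 else 0) + (if v = b then 1 else 0) := by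
  have h1 := rp_eqv s d x a
  have h2 := rp_eqv s d x b
  rw [← h] at h2
  exact chain_eqv (Relation.EqvGen.trans _ _ _ h1 (Relation.EqvGen.symm _ _ h2))

/-- the part of `x` in the components with property `Q` -/
theorem b2_part {s d : E → V} {x : E → ZMod 2} (hx : ∀ v, b2 s d x v = 0) (Q : V → Prop)
    [DecidablePred Q] (v : V) :
    b2 s d (fun e => if Q (rp s d x (s e)) then x e else 0) v = 0 := by
  by_cases hv : Q (rp s d x v)
  · refine Eq.trans (b2_congr (y := x) fun e _ he => ?_) (hx v)
    by_cases hxe : x e = 0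
    · simp [hxe]
    · have h1 : rp s d x (s e) = rp s d x v := by
        rcases he with he | he
        · rw [he]
        · rw [rp_edge hxe, he]
      rw [h1, if_pos hv]
  · refine Eq.trans (b2_congr (y := fun _ => 0) fun e _ he => ?_) (b2_zero s d v)
    by_cases hxe : x e = 0
    · simp [hxe]
    · have h1 : rp s d x (s e) = rp s d x v := by
        rcases he with he | he
        · rw [he]
        · rw [rp_edge hxe, he]
      rw [h1, if_neg hv]

end Pool.Agent.U659.OF
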