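import Pool.Agent.U659.OF.Mn

/-!
# The choice of the two edge sets
-/

set_option autoImplicit false
set_option linter.unusedSectionVars false

namespace Pool.Agent.U659.OF

open Finset Pool.Agent.TH676.Z Pool.Agent.Y335.FL Pool.Agent.Y358.IN

variable {V E : Type} [Fintype V] [DecidableEq V] [Fintype E] [DecidableEq E]
  {s d : E → V}

/-- the support -/
def sp (x : E → ZMod 2) : Finset E := univ.filter (fun e => x e ≠ 0)

theorem mem_sp {x : E → ZMod 2} {e : E} : e ∈ sp x ↔ x e ≠ 0 := by simp [sp]

theorem sp_add (x y : E → ZMod 2) : sp (fun e => x e + y e) ⊆ sp x ∪ sp y := by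
  intro e he
  rw [mem_sp] at he
  rw [mem_union, mem_sp, mem_sp]
  by_contra hcon
  rw [not_or, not_not, not_not] at hcon
  apply he
  rw [hcon.1, hcon.2, add_zero]

/-- valid pairs -/
structure Vd (s d : E → V) (x y : E → ZMod 2) : Prop where
  nz : ∀ e, s e ≠ d e → x e ≠ 0 ∨ y e ≠ 0
  ev : ∀ v, b2 s d x v = 0
  lp : ∀ e, s e = d e → x e = 0 ∧ y e = 0

/-- without edges of `x` -/
def Iso (s d : E → V) (x : E → ZMod 2) (v : V) : Prop := ∀ e, (s e = v ∨ d e = v) → x e = 0

/-- a short chain from `p` to `v` -/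
def Chn (s d : E → V) (p v : V) (n : ℕ) : Prop := ∃ z : E → ZMod 2,
  (∀ e, z e ≠ 0 → s e ≠ d e) ∧ (sp z).card ≤ n ∧
    ∀ w, b2 s d z w = (if w = p then 1 else 0) + (if w = v then 1 else 0)

open Classical in
/-- the odd vertices without edges of `x` -/
noncomputable def TT (s d : E → V) (x y : E → ZMod 2) : Finset V :=
  (odd s d y).filter (Iso s d x)

open Classical in
/-- the odd vertices with edges of `x` near to an isolated odd vertex -/
noncomputable def NN (s d : E → V) (x y : E → ZMod 2) : Finset V :=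
  (odd s d y).filter (fun v => ¬ Iso s d x v ∧ ∃ p ∈ TT s d x y, Chn s d p v 5)

/-- the potential -/
noncomputable def mu (s d : E → V) (x y : E → ZMod 2) : ℕ :=
  100 * (odd s d y).card + 10 * (TT s d x y).card + (NN s d x y).card

theorem mem_TT {x y : E → ZMod 2} {v : V} : v ∈ TT s d x y ↔ v ∈ odd s d y ∧ Iso s d x v := by
  classical
  unfold TT
  rw [mem_filter]

theorem mem_NN {x y : E → ZMod 2} {v : V} : v ∈ NN s d x y ↔
    v ∈ odd s d y ∧ ¬ Iso s d x v ∧ ∃ p ∈ TT s d x y, Chn s d p v 5 := by
  classical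
  unfold NN
  rw [mem_filter]

theorem TT_sub {x y : E → ZMod 2} : TT s d x y ⊆ odd s d y := fun _ h => (mem_TT.1 h).1

theorem NN_sub {x y : E → ZMod 2} : NN s d x y ⊆ odd s d y := fun _ h => (mem_NN.1 h).1

/-- a minimal pair -/
structure Mp (s d : E → V) (x y : E → ZMod 2) : Prop where
  vd : Vd s d x y
  le : (odd s d y).card ≤ 4
  mn : ∀ x' y', Vd s d x' y' → mu s d x y ≤ mu s d x' y'

theorem exists_mp (h : Cl4 s d) : ∃ x y, Mp s d x y := by
  classical
  obtain ⟨x, y, h1, h2, h3⟩ := h
  have hb : ∀ z : E → ZMod 2, ∀ v, b2 s d (fun e => if s e = d e then 0 else z e) v = b2 s d z v := by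
    intro z v
    refine b2_congr fun e he _ => ?_
    rw [if_neg he]
  have hv : Vd s d (fun e => if s e = d e then 0 else x e) (fun e => if s e = d e then 0 else y e) := by
    refine ⟨fun e he => ?_, fun v => by rw [hb, h2], fun e he => ?_⟩
    · rw [if_neg he, if_neg he]
      exact h1 e he
    · rw [if_pos he, if_pos he]
      exact ⟨rfl, rfl⟩
  have hex : ∃ m, ∃ x y, Vd s d x y ∧ mu s d x y = m := ⟨_, _, _, hv, rfl⟩
  obtain ⟨x1, y1, h4, h5⟩ := Nat.find_spec hex
  have hmin : ∀ x' y', Vd s d x' y' → mu s d x1 y1 ≤ mu s d x' y' := by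
    intro x' y' h6
    rw [h5]
    exact Nat.find_min' hex ⟨x', y', h6, rfl⟩
  refine ⟨x1, y1, h4, ?_, hmin⟩
  have h6 := hmin _ _ hv
  have h7 : odd s d (fun e => if s e = d e then 0 else y e) = odd s d y := by
    ext v
    rw [mem_odd, mem_odd, hb]
  unfold mu at h6
  rw [h7] at h6
  have h8 : (TT s d (fun e => if s e = d e then 0 else x e)
      (fun e => if s e = d e then 0 else y e)).card ≤ (odd s d y).card := by
    rw [← h7]
    exact card_le_card TT_sub
  have h9 : (NN s d (fun e => if s e = d e then 0 else x e)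
      (fun e => if s e = d e then 0 else y e)).card ≤ (odd s d y).card := by
    rw [← h7]
    exact card_le_card NN_sub
  omega

/-! ### Different components -/

theorem comp_ne {x y : E → ZMod 2} (h : Mp s d x y) {r r' : V} (hr : r ∈ odd s d y)
    (hr' : r' ∈ odd s d y) (hq : rp s d x r = rp s d x r') : r = r' := by
  by_contra hne
  obtain ⟨z, hz1, hz2⟩ := chain_rp hq
  have hv : Vd s d x (fun e => y e + z e) := by
    refine ⟨fun e he => ?_, h.vd.ev, fun e he => ⟨(h.vd.lp e he).1, ?_⟩⟩
    · by_cases h1 : z e = 0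
      · rw [h1, add_zero]
        exact h.vd.nz e he
      · exact Or.inl (hz1 e h1)
    · have h1 : z e = 0 := by
        by_contra h1
        exact hz1 e h1 (h.vd.lp e he).1
      rw [h1, add_zero]
      exact (h.vd.lp e he).2
  have h1 : odd s d (fun e => y e + z e) = ((odd s d y).erase r).erase r' := by
    ext v
    rw [mem_erase, mem_erase, mem_odd, mem_odd, b2_add, hz2]
    by_cases h2 : v = r
    · subst h2
      rw [if_pos rfl, if_neg hne, add_zero, z2_one (mem_odd.1 hr)]
      simp only [ne_eq, not_true_eq_false, false_and, and_false, iff_false, not_not]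
      decide
    · by_cases h3 : v = r'
      · subst h3
        rw [if_neg h2, if_pos rfl, zero_add, z2_one (mem_odd.1 hr')]
        simp only [ne_eq, not_true_eq_false, false_and, iff_false, not_not]
        decide
      · rw [if_neg h2, if_neg h3]
        simp [h2, h3]
  have h2 := h.mn _ _ hv
  have h3 := card_le_card (TT_sub (s := s) (d := d) (x := x) (y := fun e => y e + z e))
  have h4 := card_le_card (NN_sub (s := s) (d := d) (x := x) (y := fun e => y e + z e))
  rw [h1, card_erase_of_mem (mem_erase.2 ⟨Ne.symm hne, hr'⟩), card_erase_of_mem hr] at h3 h4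
  unfold mu at h2
  rw [h1, card_erase_of_mem (mem_erase.2 ⟨Ne.symm hne, hr'⟩), card_erase_of_mem hr] at h2
  have h5 : 2 ≤ (odd s d y).card := by
    have : ({r, r'} : Finset V) ⊆ odd s d y := by
      intro v hv
      rw [mem_insert, mem_singleton] at hv
      rcases hv with rfl | rfl <;> assumption
    have h6 := card_le_card this
    rwa [card_pair hne] at h6
  have h6 := h.le
  omega

/-! ### Vertices far away -/

theorem far (h : MinC s d) {D : E → ZMod 2} (hD : ∀ v, b2 s d D v = 0)
    (hl : ∀ e, D e ≠ 0 → s e ≠ d e) (hne : ∃ e, D e ≠ 0) (p : V) :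
    ∃ v, (∃ e, D e ≠ 0 ∧ (s e = v ∨ d e = v)) ∧ ¬ Chn s d p v 5 := by
  classical
  by_contra hcon
  push Not at hcon
  have hex : ∀ v, ∃ z : E → ZMod 2, (∃ e, D e ≠ 0 ∧ (s e = v ∨ d e = v)) →
      (∀ e, z e ≠ 0 → s e ≠ d e) ∧ (sp z).card ≤ 5 ∧
        ∀ w, b2 s d z w = (if w = p then 1 else 0) + (if w = v then 1 else 0) := by
    intro v
    by_cases hv : ∃ e, D e ≠ 0 ∧ (s e = v ∨ d e = v)
    · obtain ⟨z, hz⟩ := hcon v hv
      exact ⟨z, fun _ => hz⟩
    · exact ⟨fun _ => 0, fun h => absurd h hv⟩
  choose zz hzz using hex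
  have key : ∀ e, D e ≠ 0 → ∀ e', zz (s e) e' + zz (d e) e' = if e' = e then 1 else 0 := by
    intro e he
    obtain ⟨a1, a2, a3⟩ := hzz (s e) ⟨e, he, Or.inl rfl⟩
    obtain ⟨c1, c2, c3⟩ := hzz (d e) ⟨e, he, Or.inr rfl⟩
    have hse : ∀ w, b2 s d (fun e' => if e' = e then (1 : ZMod 2) else 0) w =
        (if w = s e then 1 else 0) + (if w = d e then 1 else 0) := by
      intro w
      unfold b2
      rw [sum_eq_single e]
      · simp [eq_comm]
      · intro e' _ hne'
        simp [hne']
      · intro h
        exact absurd (mem_univ _) h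
    by_contra hcon2
    push Not at hcon2
    obtain ⟨e1, he1⟩ := hcon2
    have h12 := short_even h (x := fun e' => (zz (s e) e' + zz (d e) e') +
        (if e' = e then (1 : ZMod 2) else 0)) (by
      intro w
      rw [b2_add (x := fun e' => zz (s e) e' + zz (d e) e'), b2_add, a3, c3, hse]
      have q1 := z2_self (if w = p then (1 : ZMod 2) else 0)
      have q2 := z2_self (if w = s e then (1 : ZMod 2) else 0)
      have q3 := z2_self (if w = d e then (1 : ZMod 2) else 0)
      linear_combination q1 + q2 + q3) (by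
      intro e' he'
      by_contra hloop
      apply he'
      have b1 : zz (s e) e' = 0 := by
        by_contra h5
        exact a1 e' h5 hloop
      have b2' : zz (d e) e' = 0 := by
        by_contra h5
        exact c1 e' h5 hloop
      have b3 : e' ≠ e := fun h5 => hl e he (h5 ▸ hloop)
      rw [b1, b2', if_neg b3]
      decide) ⟨e1, by
        intro h5
        apply he1
        have := z2_self (if e1 = e then (1 : ZMod 2) else 0)
        linear_combination h5 - this⟩
    have h13 : (univ.filter (fun e' => (zz (s e) e' + zz (d e) e') +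
        (if e' = e then (1 : ZMod 2) else 0) ≠ 0)).card ≤ 11 := by
      refine le_trans (card_le_card (t := (sp (zz (s e)) ∪ sp (zz (d e))) ∪ {e}) ?_) ?_
      · intro e' he'
        rw [mem_filter] at he'
        rw [mem_union, mem_union, mem_sp, mem_sp, mem_singleton]
        by_contra hcon3
        push Not at hcon3
        apply he'.2
        rw [hcon3.1.1, hcon3.1.2, if_neg hcon3.2]
        decide
      · have h14 := card_union_le (sp (zz (s e)) ∪ sp (zz (d e))) {e}
        have h15 := card_union_le (sp (zz (s e))) (sp (zz (d e)))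
        rw [card_singleton] at h14
        omega
    omega
  obtain ⟨e0, he0⟩ := hne
  apply he0
  have h1 : ∑ e, D e * (zz (s e) e0 + zz (d e) e0) = D e0 := by
    rw [sum_eq_single e0]
    · rw [key e0 he0, if_pos rfl, mul_one]
    · intro e _ hne'
      by_cases h2 : D e = 0
      · rw [h2, zero_mul]
      · rw [key e h2, if_neg (Ne.symm hne'), mul_zero]
    · intro h2
      exact absurd (mem_univ _) h2
  have h2 : ∑ e, D e * (zz (s e) e0 + zz (d e) e0) = ∑ v, b2 s d D v * zz v e0 := by
    unfold b2
    simp only [sum_mul]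
    rw [sum_comm]
    refine sum_congr rfl fun e _ => ?_
    simp only [add_mul, ite_mul, zero_mul]
    rw [sum_add_distrib, sum_ite_eq, sum_ite_eq]
    simp [mul_add]
  rw [← h1, h2]
  exact sum_eq_zero fun v _ => by rw [hD v, zero_mul]

theorem near_empty (hM : MinC s d) {x y : E → ZMod 2} (h : Mp s d x y)
    (hT : (TT s d x y).card ≤ 1) : NN s d x y = ∅ := by
  classical
  rw [eq_empty_iff_forall_notMem]
  intro r hr
  have hr' := mem_NN.1 hr
  obtain ⟨hrR, hri, p, hp, hchn⟩ := hr'
  have hTp : ∀ p' ∈ TT s d x y, p' = p := fun p' hp' => card_le_one.1 hT p' hp' p hp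
  -- the component of `r`
  set D : E → ZMod 2 := fun e => if rp s d x (s e) = rp s d x r then x e else 0 with hDd
  have hDe : ∀ e, D e ≠ 0 → x e ≠ 0 ∧ rp s d x (s e) = rp s d x r := by
    intro e he
    rw [hDd] at he
    beta_reduce at he
    split_ifs at he with h1
    · exact ⟨he, h1⟩
    · exact absurd rfl he
  obtain ⟨v, ⟨e, he, hev⟩, hfar⟩ := far hM (D := D)
    (fun v => b2_part h.vd.ev (fun w => w = rp s d x r) v)
    (fun e he hloop => (hDe e he).1 (h.vd.lp e hloop).1) (by
      unfold Iso at hri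
      push Not at hri
      obtain ⟨e, he, hxe⟩ := hri
      refine ⟨e, ?_⟩
      rw [hDd]
      beta_reduce
      rw [if_pos]
      · exact hxe
      · rcases he with he | he
        · rw [he]
        · rw [rp_edge hxe, he]) p
  have hvr : rp s d x v = rp s d x r := by
    rw [← (hDe e he).2]
    rcases hev with hev | hev
    · rw [hev]
    · rw [rp_edge (hDe e he).1, hev]
  have hvne : v ≠ r := fun h1 => hfar (h1 ▸ hchn)
  have hvR : v ∉ odd s d y := fun h1 => hvne (comp_ne h h1 hrR hvr)
  have hvi : ¬ Iso s d x v := fun h1 => (hDe e he).1 (h1 e hev)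
  obtain ⟨z, hz1, hz2⟩ := chain_rp hvr.symm
  have hv : Vd s d x (fun e => y e + z e) := by
    refine ⟨fun e he => ?_, h.vd.ev, fun e he => ⟨(h.vd.lp e he).1, ?_⟩⟩
    · by_cases h1 : z e = 0
      · rw [h1, add_zero]
        exact h.vd.nz e he
      · exact Or.inl (hz1 e h1)
    · have h1 : z e = 0 := by
        by_contra h1
        exact hz1 e h1 (h.vd.lp e he).1
      rw [h1, add_zero]
      exact (h.vd.lp e he).2
  have h1 : odd s d (fun e => y e + z e) = insert v ((odd s d y).erase r) := by
    ext w
    rw [mem_insert, mem_erase, mem_odd, mem_odd, b2_add, hz2]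
    by_cases h2 : w = r
    · subst h2
      rw [if_pos rfl, if_neg (Ne.symm hvne), add_zero, z2_one (mem_odd.1 hrR)]
      simp only [ne_eq, not_true_eq_false, false_and, or_false]
      constructor
      · intro h3
        exact absurd (by decide) h3
      · intro h3
        exact absurd h3.symm hvne
    · by_cases h3 : w = v
      · subst h3
        have h4 : b2 s d y w = 0 := by
          by_contra h4
          exact hvR (mem_odd.2 h4)
        rw [if_neg h2, if_pos rfl, h4]
        simp
      · rw [if_neg h2, if_neg h3]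
        simp [h2, h3]
  have hc1 : (odd s d (fun e => y e + z e)).card = (odd s d y).card := by
    rw [h1, card_insert_of_notMem (fun h2 => hvR (mem_erase.1 h2).2), card_erase_of_mem hrR]
    have := card_pos.2 ⟨r, hrR⟩
    omega
  have hT' : TT s d x (fun e => y e + z e) = TT s d x y := by
    ext w
    rw [mem_TT, mem_TT, h1, mem_insert, mem_erase]
    constructor
    · rintro ⟨h2 | h2, h3⟩
      · exact absurd (h2 ▸ h3) hvi
      · exact ⟨h2.2, h3⟩
    · rintro ⟨h2, h3⟩
      exact ⟨Or.inr ⟨fun h4 => hri (h4 ▸ h3), h2⟩, h3⟩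
  have hN' : NN s d x (fun e => y e + z e) ⊆ (NN s d x y).erase r := by
    intro w hw
    rw [mem_NN, hT', h1, mem_insert, mem_erase] at hw
    rw [mem_erase, mem_NN]
    obtain ⟨h2, h3, p', hp', h4⟩ := hw
    rcases h2 with h2 | h2
    · rw [hTp p' hp', h2] at h4
      exact absurd h4 hfar
    · exact ⟨h2.1, h2.2, h3, p', hp', h4⟩
  have h2 := h.mn _ _ hv
  unfold mu at h2
  rw [hc1, hT'] at h2
  have h3 := card_le_card hN'
  rw [card_erase_of_mem hr] at h3
  have := card_pos.2 ⟨r, hr⟩
  omega

end Pool.Agent.U659.OF
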