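import Pool.Agent.U659.OF.Gae

/-!
# Cuts with at most five edges in a minimal counterexample
-/

set_option autoImplicit false
set_option linter.unusedSectionVars false

namespace Pool.Agent.U659.OF

open Finset Pool.Agent.TH676.Z Pool.Agent.Y335.FL Pool.Agent.Y358.IN

variable {V E : Type} [Fintype V] [DecidableEq V] [Fintype E] [DecidableEq E]
  {s d : E → V}

theorem z2_ne {p q : ZMod 2} (h : p ≠ q) : q = p + 1 := by
  revert p q
  decide

theorem z2_three {p q r t : ZMod 2} (h : p ≠ q) (h' : r ≠ t) : p + r = q + t := by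
  revert p q r t
  decide

theorem z2_nz {p q : ZMod 2} (h : p ≠ 0 ∨ q ≠ 0) : p + q ≠ 0 ∨ q ≠ 0 := by
  revert p q
  decide

theorem no_bad (h : Mn s d) {n : ℕ} (hn : n = 4 ∨ n = 5) {c : Fin n → E}
    (hc : Function.Injective c) {Y : Finset V} (hr : univ.image c = crs s d Y)
    (hp : ∀ X, (crs s d X).card = n - 1 → (int s d X).card ≤ n - 4 ∨ (int s d Xᶜ).card ≤ n - 4)
    (hY : n - 2 ≤ (int s d Y).card) (hY' : n - 2 ≤ (int s d Yᶜ).card) {i j k l : Fin n}
    (hdf : Df i j k l) (hb : Bad s d Y c i j k l) : False := by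
  obtain ⟨x, y, h1, h2, h3⟩ := h.cl
  have hsum : (Y ∩ odd s d y).card + (Yᶜ ∩ odd s d y).card ≤ 4 := by
    rw [← card_union_of_disjoint]
    · refine (card_le_card fun v hv => ?_).trans h3
      rw [mem_union, mem_inter, mem_inter] at hv
      rcases hv with hv | hv
      · exact hv.2
      · exact hv.2
    · rw [disjoint_left]
      intro v hv hv'
      exact (mem_compl.1 (mem_inter.1 hv').1) (mem_inter.1 hv).1
  have hr' : univ.image c = crs s d Yᶜ := by rw [crs_compl, hr]
  by_cases h0 : (Y ∩ odd s d y).card = 0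
  · -- change the colours
    have hR : ∀ v ∈ Y, b2 s d y v = 0 := by
      intro v hv
      by_contra hne
      have : v ∈ Y ∩ odd s d y := mem_inter.2 ⟨hv, mem_odd.2 hne⟩
      rw [card_eq_zero] at h0
      rw [h0] at this
      exact notMem_empty v this
    obtain ⟨τ, t1, t2⟩ := gadI h hn hc hr hdf.1 hp hY hY' (by
      by_cases q1 : x (c i) = x (c j)
      · exact ⟨x, y, fun e he _ => h1 e he, fun v _ => h2 v, by omega, q1⟩
      · by_cases q2 : y (c i) = y (c j)
        · refine ⟨y, x, fun e he _ => (h1 e he).symm, hR, ?_, q2⟩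
          have : Y ∩ odd s d x = ∅ := by
            rw [eq_empty_iff_forall_notMem]
            intro v hv
            exact mem_odd.1 (mem_inter.1 hv).2 (h2 v)
          rw [this, card_empty]
          norm_num
        · exact ⟨fun e => x e + y e, y, fun e he _ => z2_nz (h1 e he),
            fun v hv => by rw [b2_add, h2, hR v hv, add_zero], by omega, z2_three q1 q2⟩)
    exact hb.1 τ t1 t2
  · by_cases q1 : x (c i) = x (c j)
    · by_cases q2 : (Y ∩ odd s d y).card ≤ 3
      · obtain ⟨τ, t1, t2⟩ := gadI h hn hc hr hdf.1 hp hY hY'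
          ⟨x, y, fun e he _ => h1 e he, fun v _ => h2 v, q2, q1⟩
        exact hb.1 τ t1 t2
      · obtain ⟨τ, t1, t2, t3⟩ := gadII h hn hc hr' hdf (by rw [compl_compl]; exact hY)
          ⟨x, y, fun e he _ => h1 e he, fun v _ => h2 v, Or.inl (by omega)⟩
        exact hb.2 τ t1 t2 t3
    · obtain ⟨τ, t1, t2, t3⟩ := gadII h hn hc hr' hdf (by rw [compl_compl]; exact hY)
        ⟨x, y, fun e he _ => h1 e he, fun v _ => h2 v, Or.inr ⟨by omega, q1⟩⟩
      exact hb.2 τ t1 t2 t3

theorem cut_red (h : Mn s d) {n : ℕ} (hn : n = 4 ∨ n = 5)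
    (hp : ∀ X, (crs s d X).card = n - 1 → (int s d X).card ≤ n - 4 ∨ (int s d Xᶜ).card ≤ n - 4)
    (Y : Finset V) (hY : (crs s d Y).card = n) :
    (int s d Y).card ≤ n - 3 ∨ (int s d Yᶜ).card ≤ n - 3 := by
  by_contra hcon
  rw [not_or] at hcon
  have h1 : n - 2 ≤ (int s d Y).card := by omega
  have h2 : n - 2 ≤ (int s d Yᶜ).card := by omega
  set c : Fin n → E := fun k => (((crs s d Y).equivFinOfCardEq hY).symm k : E) with hc'
  have hc : Function.Injective c := fun a b hab => by
    have h3 := Subtype.ext hab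
    exact ((crs s d Y).equivFinOfCardEq hY).symm.injective h3
  have hr : univ.image c = crs s d Y := by
    ext e
    rw [mem_image]
    constructor
    · rintro ⟨k, _, rfl⟩
      exact (((crs s d Y).equivFinOfCardEq hY).symm k).2
    · intro he
      exact ⟨(crs s d Y).equivFinOfCardEq hY ⟨e, he⟩, mem_univ _, by
        rw [hc']
        simp⟩
  obtain ⟨Y', hY', i, j, k, l, hdf, hb⟩ := dich h.minC hn Y c hc hr
    (card_pos.1 (by omega)) (card_pos.1 (by omega))
  rcases hY' with rfl | rfl
  · exact no_bad h hn hc hr hp h1 h2 hdf hb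
  · exact no_bad h hn hc (by rw [crs_compl, hr]) hp h2 (by rw [compl_compl]; exact h1) hdf hb

theorem cutT4 (h : Mn s d) (Y : Finset V) (hY : (crs s d Y).card = 4) :
    (int s d Y).card ≤ 1 ∨ (int s d Yᶜ).card ≤ 1 :=
  cut_red h (Or.inl rfl) (fun X hX => by
    rcases cutT3 h.minC X hX with h1 | h1
    · exact Or.inl (by rw [h1, card_empty])
    · exact Or.inr (by rw [h1, card_empty])) Y hY

theorem cutT5 (h : Mn s d) (Y : Finset V) (hY : (crs s d Y).card = 5) :
    (int s d Y).card ≤ 2 ∨ (int s d Yᶜ).card ≤ 2 :=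
  cut_red h (Or.inr rfl) (fun X hX => cutT4 h X hX) Y hY

end Pool.Agent.U659.OF
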