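import Mathlib
import Pool.Agent.TH676.Z.Lin

/-!
# Numbers of flows with given values on a cut with four or five edges
-/

set_option autoImplicit false
set_option linter.unusedSectionVars false

namespace Pool.Agent.U659.OF

open Finset Pool.Agent.TH676.Z

/-- nowhere zero with sum zero -/
def Nz {n : ℕ} (t : Fin n → ZMod 5) : Prop := (∀ i, t i ≠ 0) ∧ ∑ i, t i = 0

/-- the function with the parameters `a`, `b` -/
def vl {n : ℕ} (a : ℤ) (b : Fin n → Fin n → ℤ) (t : Fin n → ZMod 5) : ℤ :=
  a + ∑ x, ∑ y, if t x + t y = 0 then b x y else 0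

/-- good functions -/
def Gd {n : ℕ} (N : (Fin n → ZMod 5) → ℤ) : Prop :=
  ∃ (a : ℤ) (b : Fin n → Fin n → ℤ), ∀ t, Nz t → N t = vl a b t

theorem Gd.sub {n : ℕ} {N N' : (Fin n → ZMod 5) → ℤ} (h : Gd N) (h' : Gd N') :
    Gd (fun t => N t - N' t) := by
  obtain ⟨a, b, h⟩ := h
  obtain ⟨a', b', h'⟩ := h'
  refine ⟨a - a', fun x y => b x y - b' x y, fun t ht => ?_⟩
  beta_reduce
  rw [h t ht, h' t ht]
  unfold vl
  have : ∑ x, ∑ y, (if t x + t y = 0 then b x y - b' x y else 0) =
      ∑ x, ∑ y, (if t x + t y = 0 then b x y else 0) -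
        ∑ x, ∑ y, (if t x + t y = 0 then b' x y else 0) := by
    rw [← sum_sub_distrib]
    refine sum_congr rfl fun x _ => ?_
    rw [← sum_sub_distrib]
    refine sum_congr rfl fun y _ => ?_
    split_ifs <;> simp
  rw [this]
  ring

theorem Gd.congr {n : ℕ} {N N' : (Fin n → ZMod 5) → ℤ} (h : Gd N) (h' : ∀ t, N' t = N t) :
    Gd N' := by
  obtain ⟨a, b, h⟩ := h
  exact ⟨a, b, fun t ht => by rw [h', h t ht]⟩

/-- the types of the labellings -/
def Tri {n : ℕ} (p : Fin n → Fin n) : Prop :=
  (∃ i, ∀ j, p j = p i → j = i) ∨ (∀ i j, p i = p j) ∨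
    ∃ i j, i ≠ j ∧ p i = p j ∧ (∀ k, k ≠ i → k ≠ j → p k ≠ p i) ∧
      ∀ k l, k ≠ i → k ≠ j → l ≠ i → l ≠ j → p k = p l

instance {n : ℕ} (p : Fin n → Fin n) : Decidable (Tri p) := by
  unfold Tri; infer_instance

theorem tri4' : ∀ a b c d : Fin 4, Tri ![a, b, c, d] := by decide +kernel

theorem tri5' : ∀ a b c d e : Fin 5, Tri ![a, b, c, d, e] := by decide +kernel

theorem tri4 (p : Fin 4 → Fin 4) : Tri p := by
  have h : p = ![p 0, p 1, p 2, p 3] := by
    ext i
    fin_cases i <;> rfl
  rw [h]
  exact tri4' _ _ _ _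

theorem tri5 (p : Fin 5 → Fin 5) : Tri p := by
  have h : p = ![p 0, p 1, p 2, p 3, p 4] := by
    ext i
    fin_cases i <;> rfl
  rw [h]
  exact tri5' _ _ _ _ _

theorem base_good {n : ℕ} (p : Fin n → Fin n) (hp : Tri p) (K : ℤ) :
    Gd (fun t => if zs p t then K else 0) := by
  rcases hp with ⟨i, hi⟩ | hc | ⟨i, j, hij, h1, h2, h3⟩
  · refine ⟨0, fun _ _ => 0, fun t ht => ?_⟩
    have h : ¬ zs p t := by
      intro h
      have h4 := h (p i)
      rw [sum_eq_single i] at h4
      · rw [if_pos rfl] at h4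
        exact ht.1 i h4
      · intro j _ hj
        exact if_neg fun h5 => hj (hi j h5)
      · intro h5
        exact absurd (mem_univ _) h5
    simp [h, vl]
  · refine ⟨K, fun _ _ => 0, fun t ht => ?_⟩
    have h : zs p t := by
      intro a
      by_cases ha : ∃ i, p i = a
      · obtain ⟨i, rfl⟩ := ha
        rw [← ht.2]
        exact sum_congr rfl fun k _ => if_pos (hc k i)
      · exact sum_eq_zero fun k _ => if_neg fun h5 => ha ⟨k, h5⟩
    simp [h, vl]
  · refine ⟨0, fun x y => if x = i ∧ y = j then K else 0, fun t ht => ?_⟩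
    have hz : zs p t ↔ t i + t j = 0 := by
      have hsum : ∀ a, ∑ k, (if p k = a then t k else 0) =
          (if p i = a then t i + t j else 0) +
            ∑ k ∈ (univ.erase i).erase j, (if p k = a then t k else 0) := by
        intro a
        rw [← add_sum_erase univ _ (mem_univ i), ← add_sum_erase (univ.erase i) _
          (mem_erase.2 ⟨hij.symm, mem_univ j⟩), ← h1]
        split_ifs <;> ring
      constructor
      · intro h
        have h4 := h (p i)
        rw [hsum, if_pos rfl, sum_eq_zero, add_zero] at h4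
        · exact h4
        · intro k hk
          rw [mem_erase, mem_erase] at hk
          exact if_neg (h2 k hk.2.1 hk.1)
      · intro h a
        rw [hsum, h, ite_self, zero_add]
        have h5 : ∑ k ∈ (univ.erase i).erase j, t k = 0 := by
          have h6 := ht.2
          rw [← add_sum_erase univ _ (mem_univ i), ← add_sum_erase (univ.erase i) _
            (mem_erase.2 ⟨hij.symm, mem_univ j⟩), ← add_assoc, h, zero_add] at h6
          exact h6
        by_cases ha : ∃ k, k ≠ i ∧ k ≠ j ∧ p k = a
        · obtain ⟨k, hki, hkj, rfl⟩ := ha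
          rw [← h5]
          refine sum_congr rfl fun l hl => ?_
          rw [mem_erase, mem_erase] at hl
          exact if_pos (h3 l k hl.2.1 hl.1 hki hkj)
        · refine sum_eq_zero fun k hk => ?_
          rw [mem_erase, mem_erase] at hk
          exact if_neg fun h6 => ha ⟨k, hk.2.1, hk.1, h6⟩
    unfold vl
    beta_reduce
    rw [sum_eq_single i, sum_eq_single j]
    · rw [zero_add]
      by_cases h4 : t i + t j = 0
      · rw [if_pos (hz.2 h4), if_pos h4, if_pos ⟨rfl, rfl⟩]
      · rw [if_neg (fun h => h4 (hz.1 h)), if_neg h4]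
    · intro y _ hy
      simp [hy]
    · intro h
      exact absurd (mem_univ _) h
    · intro x _ hx
      refine sum_eq_zero fun y _ => ?_
      simp [hx]
    · intro h
      exact absurd (mem_univ _) h

variable {V E : Type} [Fintype V] [DecidableEq V] [Fintype E] [DecidableEq E]

theorem good_TT (src dst : E → V) {n : ℕ} (v : Fin n → V) (hn : ∀ p : Fin n → Fin n, Tri p) :
    ∀ R S : Finset E, Gd (fun t => ((Linx.TT src dst v R S t).card : ℤ)) := by
  intro R
  induction R using Finset.induction_on with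
  | empty =>
    intro S
    obtain ⟨p, hp⟩ := Linx.base src dst v S
    refine (base_good p (hn p) ((Linx.TT src dst v ∅ S 0).card : ℤ)).congr fun t => ?_
    rw [hp t]
    split_ifs <;> simp
  | insert e0 R _ ih =>
    intro S
    refine ((ih S).sub (ih (S.erase e0))).congr fun t => ?_
    rw [Linx.split src dst v R S t e0]
    push_cast
    ring

end Pool.Agent.U659.OF
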