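import Pool.Agent.U659.OF.Pot

/-!
# At most one odd vertex is isolated
-/

set_option autoImplicit false
set_option linter.unusedSectionVars false

namespace Pool.Agent.U659.OF

open Finset Pool.Agent.TH676.Z Pool.Agent.Y335.FL Pool.Agent.Y358.IN

variable {V E : Type} [Fintype V] [DecidableEq V] [Fintype E] [DecidableEq E]
  {s d : E → V}

/-- the degree in `S` -/
def dgS (s d : E → V) (S : Finset E) (v : V) : ℕ :=
  (S.filter (fun e => s e = v)).card + (S.filter (fun e => d e = v)).card

theorem sum_dgS (s d : E → V) (S : Finset E) : ∑ v, dgS s d S v = 2 * S.card := by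
  unfold dgS
  rw [sum_add_distrib]
  have h1 : ∀ t : E → V, ∑ v, (S.filter (fun e => t e = v)).card = S.card := by
    intro t
    rw [card_eq_sum_card_fiberwise (f := t) (t := univ) (fun e _ => mem_univ _)]
  rw [h1, h1]
  ring

/-- the indicator function -/
def ind (S : Finset E) : E → ZMod 2 := fun e => if e ∈ S then 1 else 0

theorem b2_ind (s d : E → V) (S : Finset E) (v : V) : b2 s d (ind S) v = (dgS s d S v : ℕ) := by
  unfold b2 dgS ind
  rw [sum_add_distrib, Nat.cast_add]
  have key : ∀ t : E → V, ∑ e, (if t e = v then (if e ∈ S then (1 : ZMod 2) else 0) else 0) =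
      ((S.filter (fun e => t e = v)).card : ℕ) := by
    intro t
    rw [card_filter, Nat.cast_sum, ← sum_subset (subset_univ S)]
    · refine sum_congr rfl fun e he => ?_
      rw [if_pos he]
      split_ifs <;> simp
    · intro e _ he
      rw [if_neg he]
      simp
  rw [key, key]

theorem ind_sp (x : E → ZMod 2) : ind (sp x) = x := by
  funext e
  unfold ind
  by_cases h : x e = 0
  · rw [if_neg (fun h1 => mem_sp.1 h1 h), h]
  · rw [if_pos (mem_sp.2 h), z2_one h]

theorem b2_last' {s d : E → V} {x : E → ZMod 2} {w : V} (h : ∀ v, v ≠ w → b2 s d x v = 0)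
    (v : V) : b2 s d x v = 0 := by
  by_cases hv : v = w
  · have h1 := sum_b2 s d x univ
    rw [crs_univ, sum_empty, ← add_sum_erase univ _ (mem_univ w),
      sum_eq_zero (fun v hv => h v (mem_erase.1 hv).1), add_zero] at h1
    rw [hv]
    exact h1
  · exact h v hv

/-- a set without even subsets has fewer edges than vertices -/
theorem acyc_card (S : Finset E)
    (hac : ∀ z : E → ZMod 2, sp z ⊆ S → (∀ v, b2 s d z v = 0) → ∀ e, z e = 0) {v0 : V}
    (hv0 : 0 < dgS s d S v0) :
    S.card + 1 ≤ (univ.filter (fun v => 0 < dgS s d S v)).card := by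
  classical
  set VP := univ.filter (fun v => 0 < dgS s d S v) with hVP
  have hv0' : v0 ∈ VP := mem_filter.2 ⟨mem_univ _, hv0⟩
  have h1 : S.powerset.card ≤ (VP.erase v0).powerset.card := by
    apply card_le_card_of_injOn (fun Q => (odd s d (ind Q)).erase v0)
    · intro Q hQ
      have hQ' : Q ⊆ S := mem_powerset.1 hQ
      rw [mem_coe, mem_powerset]
      intro v hv
      rw [mem_erase, mem_odd, b2_ind] at hv
      rw [mem_erase, hVP, mem_filter]
      refine ⟨hv.1, mem_univ _, ?_⟩
      by_contra hcon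
      apply hv.2
      have h3 : dgS s d Q v ≤ dgS s d S v :=
        Nat.add_le_add (card_le_card (filter_subset_filter _ hQ'))
          (card_le_card (filter_subset_filter _ hQ'))
      have h4 : dgS s d Q v = 0 := by omega
      rw [h4]
      norm_num
    · intro Q hQ Q' hQ' hQQ
      rw [mem_coe, mem_powerset] at hQ hQ'
      beta_reduce at hQQ
      have h3 := hac (fun e => ind Q e + ind Q' e) (by
        intro e he
        rcases mem_union.1 (sp_add _ _ he) with h5 | h5
        · rw [mem_sp] at h5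
          unfold ind at h5
          by_contra h6
          exact h5 (if_neg fun h7 => h6 (hQ h7))
        · rw [mem_sp] at h5
          unfold ind at h5
          by_contra h6
          exact h5 (if_neg fun h7 => h6 (hQ' h7))) (by
        refine b2_last' (w := v0) fun v hv => ?_
        rw [b2_add]
        have h5 : v ∈ (odd s d (ind Q)).erase v0 ↔ v ∈ (odd s d (ind Q')).erase v0 := by
          rw [hQQ]
        rw [mem_erase, mem_erase, mem_odd, mem_odd] at h5
        have h6 : b2 s d (ind Q) v ≠ 0 ↔ b2 s d (ind Q') v ≠ 0 :=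
          ⟨fun h => (h5.1 ⟨hv, h⟩).2, fun h => (h5.2 ⟨hv, h⟩).2⟩
        by_cases h7 : b2 s d (ind Q) v = 0
        · have h8 : b2 s d (ind Q') v = 0 := by
            by_contra h8
            exact h6.2 h8 h7
          rw [h7, h8, add_zero]
        · rw [z2_one h7, z2_one (h6.1 h7)]
          decide)
      ext e
      have h4 := h3 e
      beta_reduce at h4
      unfold ind at h4
      by_cases h5 : e ∈ Q <;> by_cases h6 : e ∈ Q'
      · exact ⟨fun _ => h6, fun _ => h5⟩
      · rw [if_pos h5, if_neg h6] at h4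
        exact absurd h4 (by decide)
      · rw [if_neg h5, if_pos h6] at h4
        exact absurd h4 (by decide)
      · exact ⟨fun h => absurd h h5, fun h => absurd h h6⟩
  rw [card_powerset, card_powerset, card_erase_of_mem hv0',
    Nat.pow_le_pow_iff_right (by norm_num)] at h1
  have := card_pos.2 ⟨v0, hv0'⟩
  omega

theorem ni_of_odd {y : E → ZMod 2} {v : V} (h : v ∈ odd s d y) : Ni s d v := by
  rw [mem_odd] at h
  by_contra hcon
  apply h
  rw [← b2_zero s d v]
  refine b2_congr fun e he hev => ?_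
  exact absurd ⟨e, he, hev⟩ hcon

theorem mem_crs_sing {v : V} {e : E} : e ∈ crs s d {v} ↔ s e ≠ d e ∧ (s e = v ∨ d e = v) := by
  rw [mem_crs, mem_singleton, mem_singleton]
  constructor
  · intro h
    refine ⟨fun h1 => h (by rw [h1]), ?_⟩
    by_contra h2
    rw [not_or] at h2
    exact h ⟨fun h3 => absurd h3 h2.1, fun h3 => absurd h3 h2.2⟩
  · rintro ⟨h1, h2⟩ h3
    rcases h2 with h2 | h2
    · exact h1 (h2.trans (h3.1 h2).symm)
    · exact h1 ((h3.2 h2).trans h2.symm)

theorem deg_three (hM : MinC s d) {v : V} (h : Ni s d v) : 3 ≤ (crs s d {v}).card := by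
  apply cutC hM
  obtain ⟨e, he⟩ := h
  exact ⟨e, mem_crs_sing.2 he⟩

theorem TT_le (hM : MinC s d) {x y : E → ZMod 2} (h : Mp s d x y) : (TT s d x y).card ≤ 1 := by
  classical
  by_contra hcon
  obtain ⟨p, hp, q, hq, hpq⟩ := one_lt_card.1 (not_le.1 hcon)
  have hp' := mem_TT.1 hp
  have hq' := mem_TT.1 hq
  set Q : V → Prop := fun w => ∃ r ∈ odd s d y, ¬ Iso s d x r ∧ rp s d x r = w ∧
    ∀ e, (s e = r ∨ d e = r) → x e ≠ 0 → y e ≠ 0 with hQ
  set y1 : E → ZMod 2 := fun e => y e + (if Q (rp s d x (s e)) then x e else 0) with hy1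
  have hb1 : ∀ v, b2 s d y1 v = b2 s d y v := by
    intro v
    rw [hy1, b2_add, b2_part h.vd.ev Q v, add_zero]
  have ho1 : odd s d y1 = odd s d y := by
    ext v
    rw [mem_odd, mem_odd, hb1]
  have hv1 : Vd s d x y1 := by
    refine ⟨fun e he => ?_, h.vd.ev, fun e he => ⟨(h.vd.lp e he).1, ?_⟩⟩
    · by_cases h1 : x e = 0
      · right
        rw [hy1]
        beta_reduce
        rw [h1, ite_self, add_zero]
        exact (h.vd.nz e he).resolve_left fun h2 => h2 h1
      · exact Or.inl h1
    · rw [hy1]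
      beta_reduce
      rw [(h.vd.lp e he).1, (h.vd.lp e he).2, ite_self, add_zero]
  -- every odd vertex with an edge of `x` has an edge of `x` outside of `y1`
  have hP : ∀ r ∈ odd s d y, ¬ Iso s d x r → ∃ e, (s e = r ∨ d e = r) ∧ x e ≠ 0 ∧ y1 e = 0 := by
    intro r hr hri
    have hrp : ∀ e, (s e = r ∨ d e = r) → x e ≠ 0 → rp s d x (s e) = rp s d x r := by
      intro e he hxe
      rcases he with he | he
      · rw [he]
      · rw [rp_edge hxe, he]
    by_cases h1 : ∀ e, (s e = r ∨ d e = r) → x e ≠ 0 → y e ≠ 0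
    · unfold Iso at hri
      push Not at hri
      obtain ⟨e, he, hxe⟩ := hri
      refine ⟨e, he, hxe, ?_⟩
      rw [hy1]
      beta_reduce
      rw [hrp e he hxe, if_pos ⟨r, hr, by unfold Iso; push Not; exact ⟨e, he, hxe⟩, rfl, h1⟩,
        z2_one hxe, z2_one (h1 e he hxe)]
      decide
    · push Not at h1
      obtain ⟨e, he, hxe, hye⟩ := h1
      refine ⟨e, he, hxe, ?_⟩
      rw [hy1]
      beta_reduce
      rw [hrp e he hxe, if_neg, hye, add_zero]
      rintro ⟨r', hr', _, hrr, h2⟩
      have h3 := comp_ne h hr' hr hrr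
      subst h3
      exact h2 e he hxe hye
  -- a minimal join
  have hex : ∃ m, ∃ P : E → ZMod 2, sp P ⊆ sp y1 ∧ (∀ v, b2 s d P v = b2 s d y1 v) ∧
      (sp P).card = m := ⟨_, y1, subset_refl _, fun _ => rfl, rfl⟩
  obtain ⟨P, hPs, hPb, hPc⟩ := Nat.find_spec hex
  have hPm : ∀ P' : E → ZMod 2, sp P' ⊆ sp y1 → (∀ v, b2 s d P' v = b2 s d y1 v) →
      (sp P).card ≤ (sp P').card := by
    intro P' h1 h2
    rw [hPc]
    exact Nat.find_min' hex ⟨P', h1, h2, rfl⟩
  -- the rest of `y1` avoids the isolated odd vertices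
  have hK : ∀ p' ∈ TT s d x y, ∀ e, (s e = p' ∨ d e = p') → y1 e + P e = 0 := by
    intro p' hp' e he
    by_contra hne
    have hpp := mem_TT.1 hp'
    set x1 : E → ZMod 2 := fun e => x e + (y1 e + P e) with hx1
    have hPy : ∀ e, y1 e = 0 → P e = 0 := by
      intro e h1
      by_contra h2
      exact mem_sp.1 (hPs (mem_sp.2 h2)) h1
    have hv2 : Vd s d x1 y1 := by
      refine ⟨fun e he => ?_, fun v => ?_, fun e he => ⟨?_, (hv1.lp e he).2⟩⟩
      · by_cases h1 : y1 e = 0
        · left
          rw [hx1]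
          beta_reduce
          rw [h1, hPy e h1, add_zero, add_zero]
          exact (hv1.nz e he).resolve_right fun h2 => h2 h1
        · exact Or.inr h1
      · rw [hx1, b2_add, h.vd.ev, zero_add, b2_add, hPb]
        exact z2_self _
      · rw [hx1]
        beta_reduce
        rw [(hv1.lp e he).2, hPy e (hv1.lp e he).2, (hv1.lp e he).1]
        simp
    have hT : TT s d x1 y1 ⊆ (TT s d x y).erase p' := by
      intro r hr
      rw [mem_TT, ho1] at hr
      obtain ⟨hr1, hr2⟩ := hr
      rw [mem_erase, mem_TT]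
      refine ⟨fun h1 => ?_, hr1, ?_⟩
      · subst h1
        have h2 := hr2 e he
        rw [hx1] at h2
        beta_reduce at h2
        rw [hpp.2 e he, zero_add] at h2
        exact hne h2
      · by_contra h1
        obtain ⟨e', he', hxe, hye⟩ := hP r hr1 h1
        have h2 := hr2 e' he'
        rw [hx1] at h2
        beta_reduce at h2
        rw [hye, hPy e' hye, add_zero, add_zero] at h2
        exact hxe h2
    have h1 := h.mn _ _ hv2
    have h2 := card_le_card hT
    have h3 := card_le_card (NN_sub (s := s) (d := d) (x := x1) (y := y1))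
    rw [card_erase_of_mem hp'] at h2
    have h4 := card_pos.2 ⟨p', hp'⟩
    have h5 := h.le
    unfold mu at h1
    rw [ho1] at h1 h3
    omega
  -- the degree of the isolated odd vertices in `P`
  have hloopP : ∀ e ∈ sp P, s e ≠ d e := by
    intro e he hloop
    exact mem_sp.1 (hPs he) (hv1.lp e hloop).2
  have hdeg : ∀ p' ∈ TT s d x y, 3 ≤ dgS s d (sp P) p' := by
    intro p' hp'
    have hpp := mem_TT.1 hp'
    have h1 := deg_three hM (ni_of_odd hpp.1)
    refine h1.trans ?_
    have h2 : crs s d {p'} ⊆ (sp P).filter (fun e => s e = p') ∪ (sp P).filter (fun e => d e = p') := by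
      intro e he
      rw [mem_crs_sing] at he
      have h3 : P e ≠ 0 := by
        have h4 := hK p' hp' e he.2
        have h5 : y1 e ≠ 0 := (hv1.nz e he.1).resolve_left fun h6 => h6 (hpp.2 e he.2)
        intro h6
        rw [h6, add_zero] at h4
        exact h5 h4
      rw [mem_union, mem_filter, mem_filter]
      rcases he.2 with h4 | h4
      · exact Or.inl ⟨mem_sp.2 h3, h4⟩
      · exact Or.inr ⟨mem_sp.2 h3, h4⟩
    exact (card_le_card h2).trans (card_union_le _ _)
  -- no even subsets
  have hac : ∀ z : E → ZMod 2, sp z ⊆ sp P → (∀ v, b2 s d z v = 0) → ∀ e, z e = 0 := by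
    intro z h1 h2 e
    by_contra h3
    have h4 : sp (fun e => P e + z e) ⊆ (sp P).erase e := by
      intro e' he'
      rw [mem_sp] at he'
      rw [mem_erase, mem_sp]
      have h5 : z e' = 0 := by
        by_contra h5
        apply he'
        rw [z2_one h5, z2_one (mem_sp.1 (h1 (mem_sp.2 h5)))]
        decide
      refine ⟨fun h6 => h3 (h6 ▸ h5), ?_⟩
      rw [h5, add_zero] at he'
      exact he'
    have h5 := hPm (fun e => P e + z e) (h4.trans ((erase_subset _ _).trans hPs)) (fun v => by
      rw [b2_add, h2, add_zero, hPb])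
    have h6 := card_le_card h4
    have h7 : e ∈ sp P := h1 (mem_sp.2 h3)
    rw [card_erase_of_mem h7] at h6
    have := card_pos.2 ⟨e, h7⟩
    omega
  -- counting
  have hpd := hdeg p hp
  have hqd := hdeg q hq
  have h1 := acyc_card (sp P) hac (v0 := p) (by omega)
  set VP := univ.filter (fun v => 0 < dgS s d (sp P) v) with hVP
  have h2 := sum_dgS s d (sp P)
  have h3 : ∑ v, dgS s d (sp P) v = ∑ v ∈ VP, dgS s d (sp P) v := by
    symm
    refine sum_subset (subset_univ _) fun v _ hv => ?_
    rw [hVP, mem_filter] at hv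
    by_contra h4
    exact hv ⟨mem_univ _, Nat.pos_of_ne_zero h4⟩
  have hpar : ∀ v ∈ VP, v ∉ odd s d y → 2 ≤ dgS s d (sp P) v := by
    intro v hv hvo
    have h4 : 0 < dgS s d (sp P) v := (mem_filter.1 hv).2
    have h5 : Even (dgS s d (sp P) v) := by
      rw [← z2_cast_zero, ← b2_ind, ind_sp, hPb, hb1]
      by_contra h6
      exact hvo (mem_odd.2 h6)
    obtain ⟨m, hm⟩ := h5
    omega
  have hpq1 : p ∈ VP := mem_filter.2 ⟨mem_univ _, by omega⟩
  have hpq2 : q ∈ VP.erase p := mem_erase.2 ⟨hpq.symm, mem_filter.2 ⟨mem_univ _, by omega⟩⟩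
  rw [h3, ← add_sum_erase VP _ hpq1, ← add_sum_erase (VP.erase p) _ hpq2] at h2
  set W := (VP.erase p).erase q with hW
  have hWc : W.card + 2 = VP.card := by
    rw [hW, card_erase_of_mem hpq2, card_erase_of_mem hpq1]
    have h4 := card_pos.2 ⟨p, hpq1⟩
    have h5 := card_pos.2 ⟨q, hpq2⟩
    rw [card_erase_of_mem hpq1] at h5
    omega
  have h4 : 2 * W.card ≤ ∑ v ∈ W, dgS s d (sp P) v + (W ∩ odd s d y).card := by
    have h5 : ∑ v ∈ W, 2 ≤ ∑ v ∈ W, (dgS s d (sp P) v + if v ∈ odd s d y then 1 else 0) := by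
      refine sum_le_sum fun v hv => ?_
      have hvP : v ∈ VP := mem_of_mem_erase (mem_of_mem_erase hv)
      have h6 : 0 < dgS s d (sp P) v := (mem_filter.1 hvP).2
      by_cases h7 : v ∈ odd s d y
      · rw [if_pos h7]
        omega
      · have := hpar v hvP h7
        rw [if_neg h7]
        omega
    rw [sum_const, smul_eq_mul, sum_add_distrib, sum_ite_mem, sum_const, smul_eq_mul] at h5
    omega
  have h5 : (W ∩ odd s d y).card + 2 ≤ (odd s d y).card := by
    have h6 : W ∩ odd s d y ⊆ ((odd s d y).erase p).erase q := by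
      intro v hv
      rw [mem_inter, hW, mem_erase, mem_erase] at hv
      rw [mem_erase, mem_erase]
      exact ⟨hv.1.1, hv.1.2.1, hv.2⟩
    have h7 := card_le_card h6
    have h8 : q ∈ (odd s d y).erase p := mem_erase.2 ⟨hpq.symm, hq'.1⟩
    rw [card_erase_of_mem h8, card_erase_of_mem hp'.1] at h7
    have h9 := card_pos.2 ⟨q, h8⟩
    rw [card_erase_of_mem hp'.1] at h9
    omega
  have h6 := h.le
  omega

end Pool.Agent.U659.OF
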