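import Pool.Agent.U659.OF.Tle

/-!
# Uncrossing
-/

set_option autoImplicit false
set_option linter.unusedSectionVars false

namespace Pool.Agent.U659.OF

open Finset Pool.Agent.TH676.Z Pool.Agent.Y335.FL Pool.Agent.Y358.IN

variable {V E : Type} [Fintype V] [DecidableEq V] [Fintype E] [DecidableEq E]
  {s d : E → V}

/-- cuts with five edges are trivial -/
def T5 (s d : E → V) : Prop := ∀ X, (crs s d X).card = 5 →
  (int s d X).card ≤ 2 ∨ (int s d Xᶜ).card ≤ 2

/-- the edges of `x` in the cut -/
def fc (s d : E → V) (x : E → ZMod 2) (X : Finset V) : Finset E :=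
  (crs s d X).filter (fun e => x e ≠ 0)

theorem mem_fc {x : E → ZMod 2} {X : Finset V} {e : E} : e ∈ fc s d x X ↔ e ∈ crs s d X ∧ x e ≠ 0 := by
  simp [fc]

/-- the component of an odd vertex leaves small sets -/
theorem cross_two (hM : MinC s d) {x y : E → ZMod 2} (hv : Vd s d x y) {S : Finset V}
    (hS : (int s d S).card ≤ 11) {r : V} (hr : r ∈ S) (hri : ¬ Iso s d x r) :
    2 ≤ ((crs s d S).filter (fun e => x e ≠ 0 ∧ rp s d x (s e) = rp s d x r)).card := by
  classical
  set D : E → ZMod 2 := fun e => if rp s d x (s e) = rp s d x r then x e else 0 with hDd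
  have hDe : ∀ e, D e ≠ 0 ↔ x e ≠ 0 ∧ rp s d x (s e) = rp s d x r := by
    intro e
    rw [hDd]
    beta_reduce
    split_ifs with h1
    · simp [h1]
    · simp [h1]
  have hD0 : ∀ v, b2 s d D v = 0 := fun v => b2_part hv.ev (fun w => w = rp s d x r) v
  have h1 : (crs s d S).filter (fun e => x e ≠ 0 ∧ rp s d x (s e) = rp s d x r) =
      (crs s d S).filter (fun e => D e ≠ 0) := by
    ext e
    rw [mem_filter, mem_filter, hDe]
  rw [h1]
  have h2 : Even ((crs s d S).filter (fun e => D e ≠ 0)).card := even_cut (fun v _ => hD0 v)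
  by_contra hcon
  have h3 : ((crs s d S).filter (fun e => D e ≠ 0)).card = 0 := by
    obtain ⟨k, hk⟩ := h2
    omega
  rw [card_eq_zero, filter_eq_empty_iff] at h3
  have h4 := short_even hM (x := fun e => if s e ∈ S ∧ d e ∈ S then D e else 0) (by
    intro v
    by_cases hvS : v ∈ S
    · refine Eq.trans (b2_congr (y := D) fun e _ he => ?_) (hD0 v)
      by_cases h5 : D e = 0
      · rw [h5, ite_self]
      · rw [if_pos]
        by_contra h6
        refine h3 (x := e) ?_ h5
        rw [mem_crs]
        intro h7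
        apply h6
        rcases he with he | he
        · have h8 : s e ∈ S := he ▸ hvS
          exact ⟨h8, h7.1 h8⟩
        · have h8 : d e ∈ S := he ▸ hvS
          exact ⟨h7.2 h8, h8⟩
    · refine Eq.trans (b2_congr (y := fun _ => 0) fun e _ he => ?_) (b2_zero s d v)
      rw [if_neg]
      rintro ⟨h5, h6⟩
      rcases he with he | he
      · exact hvS (he ▸ h5)
      · exact hvS (he ▸ h6)) (by
    intro e he hloop
    apply he
    have h5 : D e = 0 := by
      by_contra h5
      exact ((hDe e).1 h5).1 (hv.lp e hloop).1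
    rw [h5, ite_self]) (by
    unfold Iso at hri
    push Not at hri
    obtain ⟨e, he, hxe⟩ := hri
    have h5 : D e ≠ 0 := by
      rw [hDe]
      refine ⟨hxe, ?_⟩
      rcases he with he | he
      · rw [he]
      · rw [rp_edge hxe, he]
    refine ⟨e, ?_⟩
    rw [if_pos]
    · exact h5
    · by_contra h6
      refine h3 (x := e) ?_ h5
      rw [mem_crs]
      intro h7
      apply h6
      rcases he with he | he
      · have h8 : s e ∈ S := he ▸ hr
        exact ⟨h8, h7.1 h8⟩
      · have h8 : d e ∈ S := he ▸ hr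
        exact ⟨h7.2 h8, h8⟩)
  have h5 : univ.filter (fun e => (if s e ∈ S ∧ d e ∈ S then D e else 0) ≠ 0) ⊆ int s d S := by
    intro e he
    rw [mem_filter] at he
    have h6 : s e ∈ S ∧ d e ∈ S := by
      by_contra h6
      exact he.2 (if_neg h6)
    rw [if_pos h6] at he
    rw [mem_int]
    exact ⟨fun h7 => ((hDe e).1 he.2).1 (hv.lp e h7).1, h6⟩
  have h6 := card_le_card h5
  omega

/-- the odd vertices with edges of `x` in `S` -/
theorem fc_ge (hM : MinC s d) {x y : E → ZMod 2} (h : Mp s d x y) {S : Finset V}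
    (hS : (int s d S).card ≤ 11) :
    2 * ((S ∩ odd s d y) \ TT s d x y).card ≤ (fc s d x S).card := by
  classical
  set K := (S ∩ odd s d y) \ TT s d x y with hK
  have hKm : ∀ r ∈ K, r ∈ S ∧ r ∈ odd s d y ∧ ¬ Iso s d x r := by
    intro r hr
    rw [hK, mem_sdiff, mem_inter, mem_TT] at hr
    exact ⟨hr.1.1, hr.1.2, fun h1 => hr.2 ⟨hr.1.2, h1⟩⟩
  set G : V → Finset E := fun r =>
    (crs s d S).filter (fun e => x e ≠ 0 ∧ rp s d x (s e) = rp s d x r) with hG
  have h1 : ∑ r ∈ K, 2 ≤ ∑ r ∈ K, (G r).card :=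
    sum_le_sum fun r hr => cross_two hM h.vd hS (hKm r hr).1 (hKm r hr).2.2
  have h2 : ∑ r ∈ K, (G r).card = (K.biUnion G).card := by
    rw [card_biUnion]
    intro r hr r' hr' hne
    change Disjoint (G r) (G r')
    rw [disjoint_left]
    intro e he he'
    rw [hG] at he he'
    beta_reduce at he he'
    rw [mem_filter] at he he'
    exact hne (comp_ne h (hKm r hr).2.1 (hKm r' hr').2.1 (he.2.2.symm.trans he'.2.2))
  have h3 : (K.biUnion G).card ≤ (fc s d x S).card := by
    refine card_le_card fun e he => ?_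
    obtain ⟨r, _, he⟩ := mem_biUnion.1 he
    rw [hG] at he
    beta_reduce at he
    rw [mem_filter] at he
    exact mem_fc.2 ⟨he.1, he.2.1⟩
  rw [sum_const, smul_eq_mul] at h1
  omega

/-- chains inside a set with at most five boundary edges -/
theorem chain_in (hM : MinC s d) {S : Finset V} (hS : (crs s d S).card ≤ 5) {p v : V}
    (hp : p ∈ S) (hv : v ∈ S) (np : Ni s d p) (nv : Ni s d v) :
    ∃ z : E → ZMod 2, sp z ⊆ int s d S ∧
      ∀ w, b2 s d z w = (if w = p then 1 else 0) + (if w = v then 1 else 0) := by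
  classical
  set U := S.filter (fun v => ∃ z : E → ZMod 2, sp z ⊆ int s d S ∧
      ∀ w, b2 s d z w = (if w = p then 1 else 0) + (if w = v then 1 else 0)) with hU
  by_contra hcon
  have hvU : v ∉ U := fun h => hcon (mem_filter.1 h).2
  have hpU : p ∈ U := by
    rw [hU, mem_filter]
    refine ⟨hp, (fun _ => 0 : E → ZMod 2), ?_, fun w => ?_⟩
    · intro e he
      rw [mem_sp] at he
      exact absurd rfl he
    · rw [b2_zero, z2_self]
  have hvW : v ∈ S \ U := mem_sdiff.2 ⟨hv, hvU⟩
  have hpW : p ∉ S \ U := fun h => (mem_sdiff.1 h).2 hpU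
  -- no edges
  have hno : ∀ e, s e ∈ S → d e ∈ S → (s e ∈ U ↔ d e ∈ U) := by
    have ext' : ∀ e, s e ≠ d e → s e ∈ S → d e ∈ S → ∀ a b, ((a = s e ∧ b = d e) ∨
        (a = d e ∧ b = s e)) → a ∈ U → b ∈ S → b ∈ U := by
      intro e hne h1 h2 a b hab ha hb
      rw [hU, mem_filter] at ha ⊢
      obtain ⟨_, z, hz1, hz2⟩ := ha
      refine ⟨hb, fun e' => z e' + (if e' = e then 1 else 0), ?_, fun w => ?_⟩
      · intro e' he'
        rcases mem_union.1 (sp_add z (fun e' => if e' = e then (1 : ZMod 2) else 0) he') with h3 | h3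
        · exact hz1 h3
        · rw [mem_sp] at h3
          have h4 : e' = e := by
            by_contra h4
            exact h3 (if_neg h4)
          rw [h4, mem_int]
          exact ⟨hne, h1, h2⟩
      · have hse : b2 s d (fun e' => if e' = e then (1 : ZMod 2) else 0) w =
            (if w = s e then 1 else 0) + (if w = d e then 1 else 0) := by
          unfold b2
          rw [sum_eq_single e]
          · simp [eq_comm]
          · intro e' _ hne'
            simp [hne']
          · intro h
            exact absurd (mem_univ _) h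
        rw [b2_add, hz2, hse]
        have q1 := z2_self (if w = s e then (1 : ZMod 2) else 0)
        have q2 := z2_self (if w = d e then (1 : ZMod 2) else 0)
        rcases hab with ⟨rfl, rfl⟩ | ⟨rfl, rfl⟩
        · linear_combination q1
        · linear_combination q2
    intro e h1 h2
    by_cases hne : s e = d e
    · rw [hne]
    · constructor
      · intro h3
        exact ext' e hne h1 h2 _ _ (Or.inl ⟨rfl, rfl⟩) h3 h2
      · intro h3
        exact ext' e hne h1 h2 _ _ (Or.inr ⟨rfl, rfl⟩) h3 h1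
  have hUS : ∀ w ∈ U, w ∈ S := fun w hw => (mem_filter.1 hw).1
  have h1 : (crs s d U).card + (crs s d (S \ U)).card ≤ (crs s d S).card := by
    rw [← card_union_of_disjoint]
    · refine card_le_card fun e he => ?_
      rw [mem_union, mem_crs, mem_crs, mem_sdiff, mem_sdiff] at he
      rw [mem_crs]
      intro h2
      have h3 := hno e
      by_cases h4 : s e ∈ S
      · have h5 := h2.1 h4
        have h6 := h3 h4 h5
        rcases he with he | he
        · exact he h6
        · apply he
          rw [h6]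
          exact ⟨fun h => ⟨h5, h.2⟩, fun h => ⟨h4, h.2⟩⟩
      · have h5 : d e ∉ S := fun h => h4 (h2.2 h)
        rcases he with he | he
        · exact he ⟨fun h => absurd (hUS _ h) h4, fun h => absurd (hUS _ h) h5⟩
        · exact he ⟨fun h => absurd h.1 h4, fun h => absurd h.1 h5⟩
    · rw [disjoint_left]
      intro e he he'
      rw [mem_crs] at he he'
      rw [mem_sdiff, mem_sdiff] at he'
      by_cases h4 : s e ∈ S <;> by_cases h5 : d e ∈ S
      · exact he (hno e h4 h5)
      · have h6 : d e ∉ U := fun h => h5 (hUS _ h)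
        by_cases h7 : s e ∈ U
        · exact he' ⟨fun h => absurd h7 h.2, fun h => absurd h.1 h5⟩
        · exact he ⟨fun h => absurd h h7, fun h => absurd h h6⟩
      · have h6 : s e ∉ U := fun h => h4 (hUS _ h)
        by_cases h7 : d e ∈ U
        · exact he' ⟨fun h => absurd h.1 h4, fun h => absurd h7 h.2⟩
        · exact he ⟨fun h => absurd h h6, fun h => absurd h h7⟩
      · have h6 : s e ∉ U := fun h => h4 (hUS _ h)
        have h7 : d e ∉ U := fun h => h5 (hUS _ h)
        exact he ⟨fun h => absurd h h6, fun h => absurd h h7⟩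
  have h2 := cut3' hM hpU hvU np nv
  have h3 := cut3' hM hvW hpW nv np
  omega

/-- no small set contains three odd vertices -/
theorem no_three (hM : MinC s d) {x y : E → ZMod 2} (h : Mp s d x y) {S : Finset V}
    (hS : (crs s d S).card ≤ 5) (hi : (int s d S).card ≤ 2) : (S ∩ odd s d y).card ≤ 2 := by
  classical
  by_contra hcon
  have hT := TT_le hM h
  have h1 := fc_ge hM h (S := S) (by omega)
  have h2 : (fc s d x S).card ≤ (crs s d S).card := card_le_card (filter_subset _ _)
  have h3 : (S ∩ odd s d y).card ≤ ((S ∩ odd s d y) \ TT s d x y).card + (TT s d x y).card :=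
    card_le_card_sdiff_add_card
  have h4 : 1 ≤ ((S ∩ odd s d y) ∩ TT s d x y).card := by
    have := card_inter_add_card_sdiff (S ∩ odd s d y) (TT s d x y)
    omega
  obtain ⟨p, hp⟩ := card_pos.1 h4
  obtain ⟨r, hr⟩ := card_pos.1 (show 0 < ((S ∩ odd s d y) \ TT s d x y).card by omega)
  rw [mem_inter, mem_inter] at hp
  rw [mem_sdiff, mem_inter] at hr
  obtain ⟨z, hz1, hz2⟩ := chain_in hM hS hp.1.1 hr.1.1 (ni_of_odd hp.1.2) (ni_of_odd hr.1.2)
  have h5 : r ∈ NN s d x y := by
    rw [mem_NN]
    refine ⟨hr.1.2, fun h6 => hr.2 (mem_TT.2 ⟨hr.1.2, h6⟩), p, hp.2, z, fun e he => ?_, ?_, hz2⟩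
    · exact (mem_int.1 (hz1 (mem_sp.2 he))).1
    · exact (card_le_card hz1).trans (by omega)
  rw [near_empty hM h hT] at h5
  exact notMem_empty _ h5

/-- **Small sets.** -/
theorem no_small (hM : MinC s d) (h5 : T5 s d) {x y : E → ZMod 2} (h : Mp s d x y)
    (h4 : (odd s d y).card = 4) {A A' : Finset V} (hAA : Disjoint A A')
    (hA : (crs s d A).card ≤ 5) (hA' : (crs s d A').card ≤ 5) (oA : Odd (crs s d A).card)
    (oA' : Odd (crs s d A').card) (rA : (A ∩ odd s d y).card = 1) (rA' : (A' ∩ odd s d y).card = 1)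
    (hZ : (crs s d (A ∪ A')).card = 6) (hF : (fc s d x (A ∪ A')).card = 2)
    (hU : ∀ p ∈ TT s d x y, p ∈ A ∪ A' → ∃ e, s e ≠ d e ∧ (s e = p ∨ d e = p) ∧
      e ∉ crs s d (A ∪ A')) : False := by
  classical
  have hT := TT_le hM h
  have hN := near_empty hM h hT
  -- the small side
  have side : ∀ B : Finset V, (crs s d B).card ≤ 5 → Odd (crs s d B).card →
      (B ∩ odd s d y).card = 1 → (int s d B).card ≤ 2 ∧ ((crs s d B).card = 3 → int s d B = ∅) := by
    intro B h1 h2 h3
    have h6 : (Bᶜ ∩ odd s d y).card = 3 := by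
      have h7 : (B ∩ odd s d y).card + (Bᶜ ∩ odd s d y).card = (odd s d y).card := by
        rw [← card_union_of_disjoint]
        · congr 1
          ext v
          rw [mem_union, mem_inter, mem_inter, mem_compl]
          constructor
          · rintro (h | h)
            · exact h.2
            · exact h.2
          · intro hv
            by_cases hvB : v ∈ B
            · exact Or.inl ⟨hvB, hv⟩
            · exact Or.inr ⟨hvB, hv⟩
        · rw [disjoint_left]
          intro v hv hv'
          exact (mem_compl.1 (mem_inter.1 hv').1) (mem_inter.1 hv).1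
      omega
    have h7 : ¬ (int s d Bᶜ).card ≤ 2 := by
      intro h8
      have := no_three hM h (S := Bᶜ) (by rw [crs_compl]; exact h1) h8
      omega
    have h8 : (crs s d B).card ≠ 1 := br_ne hM B
    have h9 : (crs s d B).card = 3 ∨ (crs s d B).card = 5 := by
      obtain ⟨k, hk⟩ := h2
      omega
    have h10 : (crs s d B).card = 3 → int s d B = ∅ := by
      intro h10
      rcases cutT3 hM B h10 with h11 | h11
      · exact h11
      · rw [h11, card_empty] at h7
        omega
    refine ⟨?_, h10⟩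
    rcases h9 with h9 | h9
    · rw [h10 h9, card_empty]
      omega
    · rcases h5 B h9 with h11 | h11
      · exact h11
      · exact absurd h11 h7
  obtain ⟨iA, tA⟩ := side A hA oA rA
  obtain ⟨iA', tA'⟩ := side A' hA' oA' rA'
  -- the edges between the two sets
  set L := univ.filter (fun e => (s e ∈ A ∧ d e ∈ A') ∨ (s e ∈ A' ∧ d e ∈ A)) with hL
  have hdj : ∀ v, v ∈ A → v ∉ A' := fun v hv => disjoint_left.1 hAA hv
  have hcL : (crs s d A).card + (crs s d A').card = (crs s d (A ∪ A')).card + 2 * L.card := by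
    have e1 : (crs s d A ∩ L).card + (crs s d A \ L).card = (crs s d A).card :=
      card_inter_add_card_sdiff _ _
    have e2 : (crs s d A' ∩ L).card + (crs s d A' \ L).card = (crs s d A').card :=
      card_inter_add_card_sdiff _ _
    have e3 : crs s d A ∩ L = L := by
      rw [inter_eq_right]
      intro e he
      rw [hL, mem_filter] at he
      rw [mem_crs]
      rcases he.2 with ⟨a, b⟩ | ⟨a, b⟩
      · exact fun h1 => hdj _ (h1.1 a) b
      · exact fun h1 => hdj _ (h1.2 b) a
    have e4 : crs s d A' ∩ L = L := by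
      rw [inter_eq_right]
      intro e he
      rw [hL, mem_filter] at he
      rw [mem_crs]
      rcases he.2 with ⟨a, b⟩ | ⟨a, b⟩
      · exact fun h1 => hdj _ a (h1.2 b)
      · exact fun h1 => hdj _ b (h1.1 a)
    have e5 : crs s d (A ∪ A') = (crs s d A \ L) ∪ (crs s d A' \ L) := by
      ext e
      rw [mem_union, mem_sdiff, mem_sdiff, mem_crs, mem_crs, mem_crs, mem_union, mem_union, hL,
        mem_filter]
      have g1 := hdj (s e)
      have g2 := hdj (d e)
      have g3 := mem_univ e
      by_cases q1 : s e ∈ A <;> by_cases q2 : s e ∈ A' <;> by_cases q3 : d e ∈ A <;>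
        by_cases q4 : d e ∈ A' <;> simp_all
    have e6 : Disjoint (crs s d A \ L) (crs s d A' \ L) := by
      rw [disjoint_left]
      intro e he he'
      rw [mem_sdiff, mem_crs, hL, mem_filter] at he he'
      have g1 := hdj (s e)
      have g2 := hdj (d e)
      have g3 := mem_univ e
      by_cases q1 : s e ∈ A <;> by_cases q2 : s e ∈ A' <;> by_cases q3 : d e ∈ A <;>
        by_cases q4 : d e ∈ A' <;> simp_all
    rw [e5, card_union_of_disjoint e6]
    rw [e3] at e1
    rw [e4] at e2
    omega
  have hint : int s d (A ∪ A') ⊆ int s d A ∪ int s d A' ∪ L := by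
    intro e he
    rw [mem_int, mem_union, mem_union] at he
    rw [mem_union, mem_union, mem_int, mem_int, hL, mem_filter]
    have g3 := mem_univ e
    rcases he with ⟨a, b | b, c | c⟩
    · exact Or.inl (Or.inl ⟨a, b, c⟩)
    · exact Or.inr ⟨g3, Or.inl ⟨b, c⟩⟩
    · exact Or.inr ⟨g3, Or.inr ⟨b, c⟩⟩
    · exact Or.inl (Or.inr ⟨a, b, c⟩)
  have hint' : (int s d (A ∪ A')).card ≤ 6 := by
    have h1 := (card_le_card hint).trans ((card_union_le _ _).trans
      (Nat.add_le_add_right (card_union_le _ _) _))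
    omega
  have h1 := fc_ge hM h (S := A ∪ A') (by omega)
  rw [hF] at h1
  obtain ⟨r, hr⟩ := card_eq_one.1 rA
  obtain ⟨r', hr'⟩ := card_eq_one.1 rA'
  have hrA : r ∈ A ∩ odd s d y := by rw [hr]; exact mem_singleton_self _
  have hrA' : r' ∈ A' ∩ odd s d y := by rw [hr']; exact mem_singleton_self _
  rw [mem_inter] at hrA hrA'
  have hne : r ≠ r' := fun h => hdj r hrA.1 (h ▸ hrA'.1)
  -- one of the two vertices is isolated
  have hiso : r ∈ TT s d x y ∨ r' ∈ TT s d x y := by
    by_contra hcon
    rw [not_or] at hcon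
    have h2 : ({r, r'} : Finset V) ⊆ ((A ∪ A') ∩ odd s d y) \ TT s d x y := by
      intro v hv
      rw [mem_insert, mem_singleton] at hv
      rw [mem_sdiff, mem_inter, mem_union]
      rcases hv with rfl | rfl
      · exact ⟨⟨Or.inl hrA.1, hrA.2⟩, hcon.1⟩
      · exact ⟨⟨Or.inr hrA'.1, hrA'.2⟩, hcon.2⟩
    have h3 := card_le_card h2
    rw [card_pair hne] at h3
    omega
  -- the final step
  have fin : ∀ (B B' : Finset V) (p q : V), (crs s d B).card ≤ 5 → (crs s d B').card ≤ 5 →
      (int s d B).card ≤ 2 → (int s d B').card ≤ 2 → p ∈ B → q ∈ B' → p ∈ TT s d x y →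
      q ∈ odd s d y → p ≠ q → (∃ g ∈ L, (s g ∈ B ∧ d g ∈ B') ∨ (s g ∈ B' ∧ d g ∈ B)) → False := by
    intro B B' p q b1 b2' b3 b4 hpB hqB hp hq hpq hg
    obtain ⟨g, hgL, hg⟩ := hg
    have hpp := mem_TT.1 hp
    have hqT : q ∉ TT s d x y := fun h6 => hpq (card_le_one.1 hT p hp q h6)
    have hgne : s g ≠ d g := by
      rw [hL, mem_filter] at hgL
      intro h6
      rcases hgL.2 with ⟨a, b⟩ | ⟨a, b⟩
      · exact hdj _ a (h6 ▸ b)
      · exact hdj _ b (h6 ▸ a)
    obtain ⟨a, b, hab, haB, hbB⟩ : ∃ a b, ((a = s g ∧ b = d g) ∨ (a = d g ∧ b = s g)) ∧ a ∈ B ∧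
        b ∈ B' := by
      rcases hg with ⟨h6, h7⟩ | ⟨h6, h7⟩
      · exact ⟨s g, d g, Or.inl ⟨rfl, rfl⟩, h6, h7⟩
      · exact ⟨d g, s g, Or.inr ⟨rfl, rfl⟩, h7, h6⟩
    have na : Ni s d a := ⟨g, hgne, by rcases hab with h6 | h6 <;> simp [h6.1]⟩
    have nb : Ni s d b := ⟨g, hgne, by rcases hab with h6 | h6 <;> simp [h6.2]⟩
    obtain ⟨z1, z11, z12⟩ := chain_in hM b1 hpB haB (ni_of_odd hpp.1) na
    obtain ⟨z2, z21, z22⟩ := chain_in hM b2' hqB hbB (ni_of_odd hq) nb
    have hse : ∀ w, b2 s d (fun e' => if e' = g then (1 : ZMod 2) else 0) w =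
        (if w = a then 1 else 0) + (if w = b then 1 else 0) := by
      intro w
      have : b2 s d (fun e' => if e' = g then (1 : ZMod 2) else 0) w =
          (if w = s g then 1 else 0) + (if w = d g then 1 else 0) := by
        unfold b2
        rw [sum_eq_single g]
        · simp [eq_comm]
        · intro e' _ hne'
          simp [hne']
        · intro h
          exact absurd (mem_univ _) h
      rw [this]
      rcases hab with ⟨rfl, rfl⟩ | ⟨rfl, rfl⟩
      · rfl
      · rw [add_comm]
    have hchn : Chn s d p q 5 := by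
      refine ⟨fun e => (z1 e + z2 e) + (if e = g then 1 else 0), fun e he hloop => ?_, ?_, fun w => ?_⟩
      · apply he
        beta_reduce
        have g1 : z1 e = 0 := by
          by_contra h6
          exact (mem_int.1 (z11 (mem_sp.2 h6))).1 hloop
        have g2 : z2 e = 0 := by
          by_contra h6
          exact (mem_int.1 (z21 (mem_sp.2 h6))).1 hloop
        have g3 : e ≠ g := fun h6 => hgne (h6 ▸ hloop)
        rw [g1, g2, if_neg g3]
        decide
      · refine le_trans (card_le_card (t := (sp z1 ∪ sp z2) ∪ {g}) ?_) ?_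
        · intro e he
          rw [mem_sp] at he
          rw [mem_union, mem_union, mem_sp, mem_sp, mem_singleton]
          by_contra hcon3
          push Not at hcon3
          apply he
          rw [hcon3.1.1, hcon3.1.2, if_neg hcon3.2]
          decide
        · have h14 := card_union_le (sp z1 ∪ sp z2) {g}
          have h15 := card_union_le (sp z1) (sp z2)
          have h16 := card_le_card z11
          have h17 := card_le_card z21
          rw [card_singleton] at h14
          omega
      · rw [b2_add (x := fun e => z1 e + z2 e), b2_add, z12, z22, hse]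
        have q1 := z2_self (if w = a then (1 : ZMod 2) else 0)
        have q2 := z2_self (if w = b then (1 : ZMod 2) else 0)
        linear_combination q1 + q2
    have h6 : q ∈ NN s d x y := by
      rw [mem_NN]
      exact ⟨hq, fun h7 => hqT (mem_TT.2 ⟨hq, h7⟩), p, hp, hchn⟩
    rw [hN] at h6
    exact notMem_empty _ h6
  -- no edges between the two sets
  have fin0 : ∀ (B : Finset V) (p : V), p ∈ B → p ∈ TT s d x y → B ⊆ A ∪ A' → int s d B = ∅ →
      (∀ e, (s e ∈ B ∧ d e ∈ A ∪ A' ∧ d e ∉ B) ∨ (d e ∈ B ∧ s e ∈ A ∪ A' ∧ s e ∉ B) → e ∈ L) →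
      L = ∅ → False := by
    intro B p hpB hp hBs hB0 hBL hL0
    obtain ⟨e, he1, he2, he3⟩ := hU p hp (hBs hpB)
    rw [mem_crs, not_not] at he3
    have h6 : s e ∈ A ∪ A' ∧ d e ∈ A ∪ A' := by
      rcases he2 with h7 | h7
      · have h8 : s e ∈ A ∪ A' := h7 ▸ hBs hpB
        exact ⟨h8, he3.1 h8⟩
      · have h8 : d e ∈ A ∪ A' := h7 ▸ hBs hpB
        exact ⟨he3.2 h8, h8⟩
    have h7 : e ∉ int s d B := by rw [hB0]; exact notMem_empty _
    have h8 : e ∉ L := by rw [hL0]; exact notMem_empty _
    rw [mem_int] at h7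
    apply h8
    apply hBL
    rcases he2 with h9 | h9
    · have h10 : s e ∈ B := h9 ▸ hpB
      exact Or.inl ⟨h10, h6.2, fun h11 => h7 ⟨he1, h10, h11⟩⟩
    · have h10 : d e ∈ B := h9 ▸ hpB
      exact Or.inr ⟨h10, h6.1, fun h11 => h7 ⟨he1, h11, h10⟩⟩
  rcases eq_empty_or_nonempty L with hL0 | ⟨g, hg⟩
  · rw [hL0, card_empty] at hcL
    have h31 : (crs s d A).card ≠ 1 := br_ne hM A
    have h32 : (crs s d A').card ≠ 1 := br_ne hM A'
    have h33 : (crs s d A).card = 3 ∧ (crs s d A').card = 3 := by
      obtain ⟨k, hk⟩ := oA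
      obtain ⟨k', hk'⟩ := oA'
      omega
    rcases hiso with hiso | hiso
    · refine fin0 A r hrA.1 hiso subset_union_left (tA h33.1) ?_ hL0
      intro e he
      rw [hL, mem_filter]
      refine ⟨mem_univ _, ?_⟩
      rw [mem_union, mem_union] at he
      rcases he with ⟨a, b | b, c⟩ | ⟨a, b | b, c⟩
      · exact absurd b c
      · exact Or.inl ⟨a, b⟩
      · exact absurd b c
      · exact Or.inr ⟨b, a⟩
    · refine fin0 A' r' hrA'.1 hiso subset_union_right (tA' h33.2) ?_ hL0
      intro e he
      rw [hL, mem_filter]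
      refine ⟨mem_univ _, ?_⟩
      rw [mem_union, mem_union] at he
      rcases he with ⟨a, b | b, c⟩ | ⟨a, b | b, c⟩
      · exact Or.inr ⟨a, b⟩
      · exact absurd b c
      · exact Or.inl ⟨b, a⟩
      · exact absurd b c
  · have hg' := (mem_filter.1 hg).2
    rcases hiso with hiso | hiso
    · exact fin A A' r r' hA hA' iA iA' hrA.1 hrA'.1 hiso hrA'.2 hne ⟨g, hg, hg'⟩
    · exact fin A' A r' r hA' hA iA' iA hrA'.1 hrA.1 hiso hrA.2 hne.symm ⟨g, hg, hg'.symm⟩

end Pool.Agent.U659.OF
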